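import Pool.Agent.K7.H60.UP.Stm

/-! # MP_d3fa2a_an, job QUA: zeros of quadratic polynomials outside the unit disc -/

set_option autoImplicit false

namespace Pool.Agent.K7.H13.UPQUA

open Pool.Agent.K7.H60.UP

theorem t : StQua := by
  intro A B h
  obtain ⟨s, hs⟩ := IsAlgClosed.exists_pow_nat_eq (A ^ 2 - 4 * B) (n := 2) (by norm_num)
  obtain ⟨u, hu⟩ : ∃ u : ℂ, u = (-A + s) / 2 := ⟨_, rfl⟩
  obtain ⟨v, hv⟩ : ∃ v : ℂ, v = -A - u := ⟨_, rfl⟩
  have hA : A = -(u + v) := by rw [hv]; ring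
  have hB : B = u * v := by
    rw [hv, hu]
    linear_combination (1 / 4 : ℂ) * hs
  have key : ∀ w : ℂ, w ^ 2 + A * w + B = 0 → ‖w‖ ≤ 1 := by
    intro w hw
    by_contra hc
    push Not at hc
    have hw0 : w ≠ 0 := by
      rintro rfl
      simp at hc
      linarith
    have hz : ‖w⁻¹‖ < 1 := by
      rw [norm_inv]
      exact inv_lt_one_of_one_lt₀ hc
    apply h w⁻¹ hz
    field_simp
    linear_combination hw
  have hu1 : ‖u‖ ≤ 1 := key u (by rw [hA, hB]; ring)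
  have hv1 : ‖v‖ ≤ 1 := key v (by rw [hA, hB]; ring)
  have hBn : ‖B‖ = ‖u‖ * ‖v‖ := by rw [hB, norm_mul]
  have hAn : ‖A‖ ≤ ‖u‖ + ‖v‖ := by
    rw [hA, norm_neg]; exact norm_add_le _ _
  constructor
  · rw [hBn]; exact mul_le_one₀ hu1 (norm_nonneg _) hv1
  · rw [hBn]
    nlinarith [mul_nonneg (sub_nonneg.2 hu1) (sub_nonneg.2 hv1)]

end Pool.Agent.K7.H13.UPQUA
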