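import Mathlib

/-!
# Quadratic and cubic phases
-/

set_option autoImplicit false

namespace Pool.Agent.K7.H13.Alm

open scoped InnerProductSpace ComplexConjugate
open Finset

variable {q : ℕ} [Fact q.Prime]

theorem std_prim : (ZMod.stdAddChar (N := q)).IsPrimitive := ZMod.isPrimitive_stdAddChar q

theorem conj_std (a : ZMod q) : conj (ZMod.stdAddChar a : ℂ) = ZMod.stdAddChar (-a) := by
  rw [AddChar.map_neg_eq_conj]

theorem sum_std (b : ZMod q) :
    ∑ y : ZMod q, (ZMod.stdAddChar (y * b) : ℂ) = if b = 0 then (q : ℂ) else 0 := by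
  have h := AddChar.sum_mulShift (R := ZMod q) (R' := ℂ) (ψ := ZMod.stdAddChar) b std_prim
  rw [h, ZMod.card]
  split_ifs <;> simp

theorem small_ne_zero {p : ℕ} (hp : p.Prime) (hq : q ≠ p) : (p : ZMod q) ≠ 0 := by
  intro h
  rw [ZMod.natCast_eq_zero_iff] at h
  have hqp : q.Prime := Fact.out
  rcases hp.eq_one_or_self_of_dvd q h with h4 | h4
  · exact hqp.one_lt.ne' h4
  · exact hq h4

/-- the modulus of a quadratic exponential sum -/
theorem gauss_norm (hq : q ≠ 2) {a : ZMod q} (ha : a ≠ 0) (c : ZMod q) :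
    ‖∑ x : ZMod q, (ZMod.stdAddChar (a * x ^ 2 + c * x) : ℂ)‖ ^ 2 = q := by
  set S := ∑ x : ZMod q, (ZMod.stdAddChar (a * x ^ 2 + c * x) : ℂ) with hS
  have h2 : (2 : ZMod q) ≠ 0 := by exact_mod_cast small_ne_zero Nat.prime_two hq
  have h1 : ((‖S‖ ^ 2 : ℝ) : ℂ) = q := by
    have h3 : ((‖S‖ ^ 2 : ℝ) : ℂ) = S * conj S := by
      rw [RCLike.mul_conj]
      push_cast
      rfl
    rw [h3, hS, map_sum, Finset.sum_mul_sum]
    have h4 : ∀ x y : ZMod q, (ZMod.stdAddChar (a * x ^ 2 + c * x) : ℂ) *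
        conj (ZMod.stdAddChar (a * y ^ 2 + c * y) : ℂ) =
        ZMod.stdAddChar (a * (x ^ 2 - y ^ 2) + c * (x - y)) := by
      intro x y
      rw [conj_std, ← AddChar.map_add_eq_mul]
      congr 1
      ring
    simp only [h4]
    rw [Finset.sum_comm]
    have h5 : ∀ y : ZMod q, ∑ x : ZMod q,
        (ZMod.stdAddChar (a * (x ^ 2 - y ^ 2) + c * (x - y)) : ℂ) =
        ∑ h : ZMod q, (ZMod.stdAddChar (a * h ^ 2 + c * h) : ℂ) *
          ZMod.stdAddChar (y * (2 * a * h)) := by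
      intro y
      rw [← Equiv.sum_comp (Equiv.addRight y)]
      apply Finset.sum_congr rfl
      intro h _
      rw [← AddChar.map_add_eq_mul]
      congr 1
      simp only [Equiv.coe_addRight]
      ring
    rw [Finset.sum_congr rfl fun y _ => h5 y, Finset.sum_comm]
    have h6 : ∀ h : ZMod q, ∑ y : ZMod q, (ZMod.stdAddChar (a * h ^ 2 + c * h) : ℂ) *
          ZMod.stdAddChar (y * (2 * a * h)) = if h = 0 then (q : ℂ) else 0 := by
      intro h
      rw [← Finset.mul_sum, sum_std]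
      by_cases hh : h = 0
      · rw [if_pos hh, hh]
        simp
      · rw [if_neg hh, if_neg (mul_ne_zero (mul_ne_zero h2 ha) hh), mul_zero]
    rw [Finset.sum_congr rfl fun h _ => h6 h, Finset.sum_ite_eq' univ (0 : ZMod q),
      if_pos (Finset.mem_univ _)]
  exact_mod_cast h1

theorem gauss_norm' (hq : q ≠ 2) {a : ZMod q} (ha : a ≠ 0) (c : ZMod q) :
    ‖∑ x : ZMod q, (ZMod.stdAddChar (a * x ^ 2 + c * x) : ℂ)‖ = Real.sqrt q := by
  rw [← gauss_norm hq ha c, Real.sqrt_sq (norm_nonneg _)]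

/-- a bound for cubic exponential sums -/
theorem cubic_norm (hq : q ≠ 2) (hq3 : q ≠ 3) {a : ZMod q} (ha : a ≠ 0) (b c : ZMod q) :
    ‖∑ x : ZMod q, (ZMod.stdAddChar (a * x ^ 3 + b * x ^ 2 + c * x) : ℂ)‖ ^ 2 ≤
      q + q * Real.sqrt q := by
  set S := ∑ x : ZMod q, (ZMod.stdAddChar (a * x ^ 3 + b * x ^ 2 + c * x) : ℂ) with hS
  have h3 : (3 : ZMod q) ≠ 0 := by exact_mod_cast small_ne_zero Nat.prime_three hq3
  have h1 : ((‖S‖ ^ 2 : ℝ) : ℂ) = ∑ h : ZMod q,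
      (ZMod.stdAddChar (a * h ^ 3 + b * h ^ 2 + c * h) : ℂ) *
        ∑ y : ZMod q, (ZMod.stdAddChar (3 * a * h * y ^ 2 + (3 * a * h ^ 2 + 2 * b * h) * y) : ℂ) := by
    have h3 : ((‖S‖ ^ 2 : ℝ) : ℂ) = S * conj S := by
      rw [RCLike.mul_conj]
      push_cast
      rfl
    rw [h3, hS, map_sum, Finset.sum_mul_sum]
    have h4 : ∀ x y : ZMod q, (ZMod.stdAddChar (a * x ^ 3 + b * x ^ 2 + c * x) : ℂ) *
        conj (ZMod.stdAddChar (a * y ^ 3 + b * y ^ 2 + c * y) : ℂ) =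
        ZMod.stdAddChar (a * (x ^ 3 - y ^ 3) + b * (x ^ 2 - y ^ 2) + c * (x - y)) := by
      intro x y
      rw [conj_std, ← AddChar.map_add_eq_mul]
      congr 1
      ring
    simp only [h4]
    rw [Finset.sum_comm]
    have h5 : ∀ y : ZMod q, ∑ x : ZMod q,
        (ZMod.stdAddChar (a * (x ^ 3 - y ^ 3) + b * (x ^ 2 - y ^ 2) + c * (x - y)) : ℂ) =
        ∑ h : ZMod q, (ZMod.stdAddChar (a * h ^ 3 + b * h ^ 2 + c * h) : ℂ) *
          ZMod.stdAddChar (3 * a * h * y ^ 2 + (3 * a * h ^ 2 + 2 * b * h) * y) := by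
      intro y
      rw [← Equiv.sum_comp (Equiv.addRight y)]
      apply Finset.sum_congr rfl
      intro h _
      rw [← AddChar.map_add_eq_mul]
      congr 1
      simp only [Equiv.coe_addRight]
      ring
    rw [Finset.sum_congr rfl fun y _ => h5 y, Finset.sum_comm]
    apply Finset.sum_congr rfl
    intro h _
    rw [← Finset.mul_sum]
  have h2 : ‖S‖ ^ 2 = ‖((‖S‖ ^ 2 : ℝ) : ℂ)‖ := by
    rw [Complex.norm_real, Real.norm_eq_abs, abs_of_nonneg (sq_nonneg _)]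
  rw [h2, h1]
  refine (norm_sum_le _ _).trans ?_
  have h4 : ∀ h : ZMod q, ‖(ZMod.stdAddChar (a * h ^ 3 + b * h ^ 2 + c * h) : ℂ) *
        ∑ y : ZMod q, (ZMod.stdAddChar (3 * a * h * y ^ 2 + (3 * a * h ^ 2 + 2 * b * h) * y) : ℂ)‖ ≤
        Real.sqrt q + if h = 0 then (q : ℝ) else 0 := by
    intro h
    rw [norm_mul, AddChar.norm_apply, one_mul]
    by_cases hh : h = 0
    · rw [if_pos hh, hh]
      have : ∑ y : ZMod q, (ZMod.stdAddChar (3 * a * 0 * y ^ 2 + (3 * a * 0 ^ 2 + 2 * b * 0) * y) : ℂ)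
          = q := by
        simp [ZMod.card]
      rw [this, Complex.norm_natCast]
      have : 0 ≤ Real.sqrt q := Real.sqrt_nonneg _
      linarith
    · rw [if_neg hh, add_zero, gauss_norm' hq (mul_ne_zero (mul_ne_zero h3 ha) hh)]
  refine (Finset.sum_le_sum fun h _ => h4 h).trans ?_
  rw [Finset.sum_add_distrib, Finset.sum_const, Finset.card_univ, ZMod.card, nsmul_eq_mul,
    Finset.sum_ite_eq' univ (0 : ZMod q), if_pos (Finset.mem_univ _)]
  linarith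

/-- the vector of phases -/
noncomputable def qv (a b c : ZMod q) : EuclideanSpace ℂ (ZMod q) :=
  WithLp.toLp 2 fun x =>
    ((1 / Real.sqrt q : ℝ) : ℂ) * ZMod.stdAddChar (a * x ^ 3 + b * x ^ 2 + c * x)

theorem qv_inner (a b c a' b' c' : ZMod q) :
    ⟪qv a b c, qv a' b' c'⟫_ℂ = (1 / (q : ℂ)) * ∑ x : ZMod q,
      (ZMod.stdAddChar ((a' - a) * x ^ 3 + (b' - b) * x ^ 2 + (c' - c) * x) : ℂ) := by
  have hp : q.Prime := Fact.out
  have hq0 : (0 : ℝ) < q := by exact_mod_cast hp.pos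
  rw [PiLp.inner_apply, Finset.mul_sum]
  apply Finset.sum_congr rfl
  intro x _
  simp only [qv, RCLike.inner_apply, map_mul, Complex.conj_ofReal, conj_std]
  have h1 : (ZMod.stdAddChar ((a' - a) * x ^ 3 + (b' - b) * x ^ 2 + (c' - c) * x) : ℂ) =
      ZMod.stdAddChar (a' * x ^ 3 + b' * x ^ 2 + c' * x) *
        ZMod.stdAddChar (-(a * x ^ 3 + b * x ^ 2 + c * x)) := by
    rw [← AddChar.map_add_eq_mul]
    congr 1
    ring
  have h2 : ((1 / Real.sqrt q : ℝ) : ℂ) * ((1 / Real.sqrt q : ℝ) : ℂ) = 1 / (q : ℂ) := by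
    rw [← Complex.ofReal_mul, div_mul_div_comm, Real.mul_self_sqrt hq0.le]
    push_cast
    ring
  rw [h1]
  linear_combination (ZMod.stdAddChar (a' * x ^ 3 + b' * x ^ 2 + c' * x) *
    ZMod.stdAddChar (-(a * x ^ 3 + b * x ^ 2 + c * x)) : ℂ) * h2

theorem qv_inner_self (a b c : ZMod q) : ⟪qv a b c, qv a b c⟫_ℂ = 1 := by
  have hp : q.Prime := Fact.out
  have hq0 : (q : ℂ) ≠ 0 := by exact_mod_cast hp.pos.ne'
  rw [qv_inner]
  simp [ZMod.card]

theorem qv_inner_same (a b : ZMod q) {c c' : ZMod q} (h : c ≠ c') :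
    ⟪qv a b c, qv a b c'⟫_ℂ = 0 := by
  rw [qv_inner]
  have h1 := sum_std (c' - c)
  rw [if_neg (sub_ne_zero.2 h.symm)] at h1
  have h2 : ∑ x : ZMod q, (ZMod.stdAddChar ((a - a) * x ^ 3 + (b - b) * x ^ 2 +
      (c' - c) * x) : ℂ) = ∑ y : ZMod q, (ZMod.stdAddChar (y * (c' - c)) : ℂ) := by
    apply Finset.sum_congr rfl
    intro x _
    congr 1
    ring
  rw [h2, h1, mul_zero]

theorem qv_inner_diff (hq : q ≠ 2) (a : ZMod q) {b b' : ZMod q} (h : b ≠ b') (c c' : ZMod q) :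
    ‖⟪qv a b c, qv a b' c'⟫_ℂ‖ = 1 / Real.sqrt q := by
  have hp : q.Prime := Fact.out
  have hq0 : (0 : ℝ) < q := by exact_mod_cast hp.pos
  rw [qv_inner, norm_mul]
  have h1 : ∑ x : ZMod q, (ZMod.stdAddChar ((a - a) * x ^ 3 + (b' - b) * x ^ 2 +
      (c' - c) * x) : ℂ) = ∑ x : ZMod q, (ZMod.stdAddChar ((b' - b) * x ^ 2 + (c' - c) * x) : ℂ) := by
    apply Finset.sum_congr rfl
    intro x _
    congr 1
    ring
  rw [h1, gauss_norm' hq (sub_ne_zero.2 h.symm), norm_div, norm_one, Complex.norm_natCast]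
  have h3 : Real.sqrt q * Real.sqrt q = q := Real.mul_self_sqrt hq0.le
  have h4 : 0 < Real.sqrt q := Real.sqrt_pos.2 hq0
  field_simp
  nlinarith

theorem qv_inner_cubic (hq : q ≠ 2) (hq3 : q ≠ 3) {a a' : ZMod q} (h : a ≠ a')
    (b c b' c' : ZMod q) :
    ‖⟪qv a b c, qv a' b' c'⟫_ℂ‖ ^ 2 ≤ 2 / Real.sqrt q := by
  have hp : q.Prime := Fact.out
  have hq0 : (0 : ℝ) < q := by exact_mod_cast hp.pos
  have hq1 : (1 : ℝ) ≤ q := by exact_mod_cast hp.one_lt.le
  have h1 := cubic_norm hq hq3 (sub_ne_zero.2 h.symm) (b' - b) (c' - c)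
  rw [qv_inner, norm_mul, mul_pow, norm_div, norm_one, Complex.norm_natCast]
  have h3 : Real.sqrt q * Real.sqrt q = q := Real.mul_self_sqrt hq0.le
  have h4 : 1 ≤ Real.sqrt q := Real.one_le_sqrt.2 hq1
  calc (1 / (q : ℝ)) ^ 2 * ‖∑ x : ZMod q, (ZMod.stdAddChar ((a' - a) * x ^ 3 +
      (b' - b) * x ^ 2 + (c' - c) * x) : ℂ)‖ ^ 2 ≤ (1 / (q : ℝ)) ^ 2 * (q + q * Real.sqrt q) :=
        mul_le_mul_of_nonneg_left h1 (by positivity)
    _ ≤ (1 / (q : ℝ)) ^ 2 * (2 * (q * Real.sqrt q)) := by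
        apply mul_le_mul_of_nonneg_left _ (by positivity)
        nlinarith
    _ = 2 / Real.sqrt q := by
        have h5 : 0 < Real.sqrt q := by linarith
        field_simp
        nlinarith

end Pool.Agent.K7.H13.Alm
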