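import Mathlib
import Pool.Agent.K7.H13.AlmBase

/-!
# Systems of unit vectors in which almost all pairs have exactly the right angle
-/

set_option autoImplicit false

namespace Pool.Agent.K7.H13.Alm

open scoped InnerProductSpace ComplexConjugate
open Finset

variable {q : ℕ} [Fact q.Prime] {m : ℕ} [NeZero m]

/-- the class of a basis -/
def cls (m : ℕ) [NeZero m] (b : ZMod q) : Fin m := ⟨b.val % m, Nat.mod_lt _ (NeZero.pos m)⟩

theorem cls_card (k : Fin m) :
    (univ.filter fun b : ZMod q => cls m b = k).card ≤ q / m + 1 := by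
  have h1 : (univ.filter fun b : ZMod q => cls m b = k).card ≤
      ((Finset.range q).filter fun n => n ≡ (k : ℕ) [MOD m]).card := by
    apply Finset.card_le_card_of_injOn (fun b : ZMod q => b.val)
    · intro b hb
      have hb2 : cls m b = k := (Finset.mem_filter.1 hb).2
      have hb3 : b.val % m = (k : ℕ) := by
        have := congrArg Fin.val hb2
        exact this
      have : b.val ∈ (Finset.range q).filter fun n => n ≡ (k : ℕ) [MOD m] := by
        rw [Finset.mem_filter, Finset.mem_range]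
        refine ⟨ZMod.val_lt b, ?_⟩
        rw [Nat.ModEq, hb3, Nat.mod_eq_of_lt k.2]
      exact this
    · intro b _ b' _ h
      exact ZMod.val_injective q h
  refine h1.trans ?_
  rw [← Nat.count_eq_card_filter_range, Nat.count_modEq_card _ (NeZero.pos m)]
  split_ifs <;> omega

/-- the vectors -/
noncomputable def xx (t : ℝ) (m : ℕ) [NeZero m] (a b c : ZMod q) :
    EuclideanSpace ℂ (ZMod q ⊕ Fin m) :=
  WithLp.toLp 2 (Sum.elim (fun x => ((Real.sqrt t : ℝ) : ℂ) * qv a b c x)
    (fun k => if cls m b = k then ((Real.sqrt (1 - t) : ℝ) : ℂ) else 0))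

theorem xx_inner {t : ℝ} (h0 : 0 ≤ t) (h1 : t ≤ 1) (a b c a' b' c' : ZMod q) :
    ⟪xx t m a b c, xx t m a' b' c'⟫_ℂ = (t : ℂ) * ⟪qv a b c, qv a' b' c'⟫_ℂ +
      if cls m b = cls m b' then (((1 - t : ℝ)) : ℂ) else 0 := by
  rw [PiLp.inner_apply, Fintype.sum_sum_type]
  congr 1
  · rw [PiLp.inner_apply, Finset.mul_sum]
    apply Finset.sum_congr rfl
    intro x _
    simp only [xx, RCLike.inner_apply, Sum.elim_inl, map_mul, Complex.conj_ofReal]
    have h2 : ((Real.sqrt t : ℝ) : ℂ) * ((Real.sqrt t : ℝ) : ℂ) = (t : ℂ) := by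
      rw [← Complex.ofReal_mul, Real.mul_self_sqrt h0]
    linear_combination (qv a' b' c' x * conj (qv a b c x)) * h2
  · have h2 : ((Real.sqrt (1 - t) : ℝ) : ℂ) * ((Real.sqrt (1 - t) : ℝ) : ℂ) =
        ((1 - t : ℝ) : ℂ) := by
      rw [← Complex.ofReal_mul, Real.mul_self_sqrt (by linarith)]
    have h3 : ∀ k : Fin m, ⟪(xx t m a b c).ofLp (Sum.inr k), (xx t m a' b' c').ofLp (Sum.inr k)⟫_ℂ =
        if k = cls m b then (if cls m b = cls m b' then (((1 - t : ℝ)) : ℂ) else 0)
          else 0 := by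
      intro k
      simp only [xx, RCLike.inner_apply, Sum.elim_inr]
      by_cases hk : k = cls m b
      · subst hk
        rw [if_pos rfl, if_pos rfl, Complex.conj_ofReal]
        by_cases hc : cls m b = cls m b'
        · rw [if_pos hc, if_pos hc.symm, h2]
        · rw [if_neg hc, if_neg (fun hh => hc hh.symm), zero_mul]
      · have hk2 : ¬ cls m b = k := fun hh => hk hh.symm
        rw [if_neg hk, if_neg hk2, map_zero, mul_zero]
    rw [Finset.sum_congr rfl fun k _ => h3 k, Finset.sum_ite_eq' univ (cls m b),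
      if_pos (Finset.mem_univ _)]

theorem xx_norm {t : ℝ} (h0 : 0 ≤ t) (h1 : t ≤ 1) (a b c : ZMod q) : ‖xx t m a b c‖ = 1 := by
  have h2 := xx_inner (m := m) h0 h1 a b c a b c
  rw [if_pos rfl, qv_inner_self, mul_one, inner_self_eq_norm_sq_to_K] at h2
  have h3 : ((‖xx t m a b c‖ ^ 2 : ℝ) : ℂ) = ((1 : ℝ) : ℂ) := by
    push_cast at h2 ⊢
    rw [← Complex.coe_algebraMap, h2]
    ring
  have h4 : ‖xx t m a b c‖ ^ 2 = 1 := by exact_mod_cast h3
  have h5 : 0 ≤ ‖xx t m a b c‖ := norm_nonneg _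
  nlinarith

/-- different classes: the exact angle -/
theorem xx_diff (hq : q ≠ 2) {t : ℝ} (h0 : 0 ≤ t) (h1 : t ≤ 1) (a : ZMod q) {b b' : ZMod q}
    (h : cls m b ≠ cls m b') (c c' : ZMod q) :
    ‖⟪xx t m a b c, xx t m a b' c'⟫_ℂ‖ = t / Real.sqrt q := by
  have hb : b ≠ b' := fun hh => h (by rw [hh])
  rw [xx_inner h0 h1, if_neg h, add_zero, norm_mul, qv_inner_diff hq a hb, Complex.norm_real,
    Real.norm_eq_abs, abs_of_nonneg h0]
  ring

/-- all pairs: a bound -/
theorem xx_bound (hq : q ≠ 2) (hq3 : q ≠ 3) {t : ℝ} (h0 : 0 ≤ t) (h1 : t ≤ 1)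
    {a b c a' b' c' : ZMod q} (h : (a, b, c) ≠ (a', b', c')) :
    ‖⟪xx t m a b c, xx t m a' b' c'⟫_ℂ‖ ≤
      t / Real.sqrt q + (1 - t) + Real.sqrt (2 / Real.sqrt q) := by
  have h2 : 0 ≤ t / Real.sqrt q := by positivity
  have h3 : 0 ≤ Real.sqrt (2 / Real.sqrt q) := Real.sqrt_nonneg _
  rw [xx_inner h0 h1]
  have h4 : ‖(t : ℂ) * ⟪qv a b c, qv a' b' c'⟫_ℂ‖ ≤
      t / Real.sqrt q + Real.sqrt (2 / Real.sqrt q) := by
    rw [norm_mul, Complex.norm_real, Real.norm_eq_abs, abs_of_nonneg h0]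
    by_cases ha : a = a'
    · subst ha
      by_cases hb : b = b'
      · subst hb
        have hc : c ≠ c' := fun hh => h (by rw [hh])
        rw [qv_inner_same _ _ hc, norm_zero, mul_zero]
        linarith
      · rw [qv_inner_diff hq a hb]
        have : t * (1 / Real.sqrt q) = t / Real.sqrt q := by ring
        linarith
    · have h5 := Real.le_sqrt_of_sq_le (qv_inner_cubic hq hq3 ha b c b' c')
      have h6 : 0 ≤ ‖⟪qv a b c, qv a' b' c'⟫_ℂ‖ := norm_nonneg _
      nlinarith
  have h5 : ‖(if cls m b = cls m b' then (((1 - t : ℝ)) : ℂ) else 0)‖ ≤ 1 - t := by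
    split_ifs
    · rw [Complex.norm_real, Real.norm_eq_abs, abs_of_nonneg (by linarith)]
    · rw [norm_zero]; linarith
  refine (norm_add_le _ _).trans ?_
  linarith

/-- the system in dimension `q + m` -/
theorem system (hq : q ≠ 2) (hq3 : q ≠ 3) {d : ℕ} (hd : q + m = d) (hdq : d ^ 2 ≤ 2 * q ^ 2) :
    ∃ (x : Fin (d ^ 2) → EuclideanSpace ℂ (Fin d)) (S : Finset (Fin (d ^ 2))),
      S.card = q ^ 2 ∧ (∀ i, ‖x i‖ = 1) ∧
      (∀ i j, i ≠ j → ‖⟪x i, x j⟫_ℂ‖ ≤
        1 / Real.sqrt ((d : ℝ) + 1) + (m + 1) / (d + 1) + Real.sqrt (2 / Real.sqrt q)) ∧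
      ∀ i ∈ S, {j ∈ S | j ≠ i ∧ ‖⟪x i, x j⟫_ℂ‖ ≠ 1 / Real.sqrt ((d : ℝ) + 1)}.card ≤
        q * (q / m + 1) := by
  classical
  have hp : q.Prime := Fact.out
  have hq0 : (0 : ℝ) < q := by exact_mod_cast hp.pos
  have hd0 : (0 : ℝ) < (d : ℝ) + 1 := by positivity
  have hqd : (q : ℝ) + m = d := by exact_mod_cast hd
  have hm0 : (0 : ℝ) ≤ m := by positivity
  set t : ℝ := Real.sqrt (q / (d + 1)) with ht
  have ht0 : 0 ≤ t := Real.sqrt_nonneg _
  have htsq : t ^ 2 = q / (d + 1) := Real.sq_sqrt (by positivity)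
  have ht1 : t ≤ 1 := by
    rw [ht]
    apply Real.sqrt_le_one.2
    rw [div_le_one hd0]
    linarith
  have htq : t / Real.sqrt q = 1 / Real.sqrt ((d : ℝ) + 1) := by
    rw [ht, Real.sqrt_div hq0.le]
    have : 0 < Real.sqrt q := Real.sqrt_pos.2 hq0
    field_simp
  have ht2 : 1 - t ≤ (m + 1) / (d + 1) := by
    have h1 : (1 - t) ≤ (1 - t) * (1 + t) := by nlinarith
    have h2 : (1 - t) * (1 + t) = (m + 1) / (d + 1) := by
      have : (1 - t) * (1 + t) = 1 - t ^ 2 := by ring
      rw [this, htsq]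
      field_simp
      linarith
    linarith
  have hcard : Fintype.card (ZMod q ⊕ Fin m) = d := by
    rw [Fintype.card_sum, ZMod.card, Fintype.card_fin, hd]
  let e : ZMod q ⊕ Fin m ≃ Fin d := Fintype.equivFinOfCardEq hcard
  have hcard2 : Fintype.card (ZMod q × ZMod q) = q ^ 2 := by
    rw [Fintype.card_prod, ZMod.card, sq]
  let f : ZMod q × ZMod q ≃ Fin (q ^ 2) := Fintype.equivFinOfCardEq hcard2
  let L := LinearIsometryEquiv.piLpCongrLeft 2 ℂ ℂ e
  -- the labels
  let g : Fin (d ^ 2) → ZMod q × ZMod q × ZMod q := fun i =>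
    if h : i.val < q ^ 2 then (0, f.symm ⟨i.val, h⟩)
      else (1, f.symm ⟨i.val - q ^ 2, by have := i.2; omega⟩)
  have hg : Function.Injective g := by
    intro i j hij
    have h01 : (0 : ZMod q) ≠ 1 := zero_ne_one
    apply Fin.ext
    by_cases hi : i.val < q ^ 2
    · by_cases hj : j.val < q ^ 2
      · simp only [g, dif_pos hi, dif_pos hj, Prod.mk.injEq, true_and] at hij
        have := f.symm.injective hij
        simp only [Fin.mk.injEq] at this
        exact this
      · simp only [g, dif_pos hi, dif_neg hj, Prod.mk.injEq] at hij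
        exact absurd hij.1 h01
    · by_cases hj : j.val < q ^ 2
      · simp only [g, dif_neg hi, dif_pos hj, Prod.mk.injEq] at hij
        exact absurd hij.1.symm h01
      · simp only [g, dif_neg hi, dif_neg hj, Prod.mk.injEq, true_and] at hij
        have := congrArg Fin.val (f.symm.injective hij)
        simp only at this
        omega
  have hqd2 : q ^ 2 ≤ d ^ 2 := Nat.pow_le_pow_left (by omega) 2
  refine ⟨fun i => L (xx t m (g i).1 (g i).2.1 (g i).2.2),
    univ.filter fun i => i.val < q ^ 2, ?_, fun i => ?_, fun i j hij => ?_, fun i hi => ?_⟩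
  · have h1 : (univ.filter fun i : Fin (d ^ 2) => i.val < q ^ 2) =
        (univ : Finset (Fin (q ^ 2))).map (Fin.castLEEmb hqd2) := by
      ext i
      simp only [Finset.mem_filter, Finset.mem_univ, true_and, Finset.mem_map, Fin.castLEEmb_apply]
      constructor
      · intro h
        exact ⟨⟨i.val, h⟩, rfl⟩
      · rintro ⟨k, rfl⟩
        exact k.2
    rw [h1, Finset.card_map, Finset.card_univ, Fintype.card_fin]
  · rw [LinearIsometryEquiv.norm_map, xx_norm ht0 ht1]
  · rw [LinearIsometryEquiv.inner_map_map]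
    have hne : ((g i).1, (g i).2.1, (g i).2.2) ≠ ((g j).1, (g j).2.1, (g j).2.2) :=
      fun hh => hij (hg hh)
    refine (xx_bound hq hq3 ht0 ht1 hne).trans ?_
    rw [htq]
    linarith
  · have hi' : i.val < q ^ 2 := (Finset.mem_filter.1 hi).2
    have h1 : {j ∈ univ.filter fun i : Fin (d ^ 2) => i.val < q ^ 2 | j ≠ i ∧
        ‖⟪L (xx t m (g i).1 (g i).2.1 (g i).2.2), L (xx t m (g j).1 (g j).2.1 (g j).2.2)⟫_ℂ‖ ≠
        1 / Real.sqrt ((d : ℝ) + 1)}.card ≤
        ((univ.filter fun b : ZMod q => cls m b = cls m (g i).2.1) ×ˢ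
          (univ : Finset (ZMod q))).card := by
      apply Finset.card_le_card_of_injOn (fun j => (g j).2)
      · intro j hj
        have hj2 := Finset.mem_filter.1 hj
        have hj3 : j.val < q ^ 2 := (Finset.mem_filter.1 hj2.1).2
        have : (g j).2 ∈ (univ.filter fun b : ZMod q => cls m b = cls m (g i).2.1) ×ˢ
            (univ : Finset (ZMod q)) := by
          rw [Finset.mem_product, Finset.mem_filter]
          refine ⟨⟨Finset.mem_univ _, ?_⟩, Finset.mem_univ _⟩
          by_contra hc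
          apply hj2.2.2
          have hgi : (g i).1 = 0 := by simp only [g, dif_pos hi']
          have hgj : (g j).1 = 0 := by simp only [g, dif_pos hj3]
          rw [LinearIsometryEquiv.inner_map_map, hgi, hgj,
            xx_diff hq ht0 ht1 0 (fun hh => hc hh.symm), htq]
        exact this
      · intro j hj k hk hjk
        have hj3 : j.val < q ^ 2 := (Finset.mem_filter.1 (Finset.mem_filter.1 hj).1).2
        have hk3 : k.val < q ^ 2 := (Finset.mem_filter.1 (Finset.mem_filter.1 hk).1).2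
        apply hg
        apply Prod.ext
        · simp only [g, dif_pos hj3, dif_pos hk3]
        · exact hjk
    refine h1.trans ?_
    rw [Finset.card_product, Finset.card_univ, ZMod.card, mul_comm]
    exact Nat.mul_le_mul_left _ (cls_card _)

end Pool.Agent.K7.H13.Alm
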