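import Mathlib
import Pool.Agent.K7.H13.AlmMain
import Pool.Agent.H295R3.Hoheisel

/-!
# Almost all pairs with exactly the right angle, in every dimension
-/

set_option autoImplicit false

namespace Pool.Agent.K7.H13.Alm

open scoped InnerProductSpace ComplexConjugate
open Finset

/-- primes slightly below `d` -/
theorem prime_below : ∃ (δ : ℝ) (d₀ : ℕ), 0 < δ ∧ δ ≤ 1 / 8 ∧ ∀ d Y : ℕ, d₀ ≤ d →
    (d : ℝ) ^ (1 - δ) ≤ Y → 10 * Y ≤ d → ∃ q : ℕ, q.Prime ∧ q + Y ≤ d ∧ d < q + 2 * Y := by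
  obtain ⟨δ, η, hδ0, hδ1, hη, X₀, hX₀, h⟩ := Pool.Agent.H295R3.D.hoheisel
  refine ⟨min δ (1 / 8), 2 * X₀ + 30, lt_min hδ0 (by norm_num), min_le_right _ _,
    fun d Y hd hY hY2 => ?_⟩
  have hdR : (30 : ℝ) ≤ d := by
    have : 30 ≤ d := by omega
    exact_mod_cast this
  have hX1 : X₀ ≤ d - 2 * Y := by omega
  have hXle : ((d - 2 * Y : ℕ) : ℝ) ≤ d := by
    have : d - 2 * Y ≤ d := by omega
    exact_mod_cast this
  have hX2 : (2 : ℝ) ≤ ((d - 2 * Y : ℕ) : ℝ) := by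
    have : 2 ≤ d - 2 * Y := by omega
    exact_mod_cast this
  have hY1 : ((d - 2 * Y : ℕ) : ℝ) ^ (1 - δ) ≤ Y := by
    refine le_trans ?_ hY
    calc ((d - 2 * Y : ℕ) : ℝ) ^ (1 - δ) ≤ (d : ℝ) ^ (1 - δ) :=
          Real.rpow_le_rpow (by linarith) hXle (by linarith)
      _ ≤ (d : ℝ) ^ (1 - min δ (1 / 8)) := by
          apply Real.rpow_le_rpow_of_exponent_le (by linarith)
          have := min_le_left δ (1 / 8)
          linarith
  have hYX : Y ≤ d - 2 * Y := by omega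
  have h1 := h (d - 2 * Y) Y hX1 hY1 hYX
  have hYpos : 0 < (Y : ℝ) := by
    refine lt_of_lt_of_le ?_ hY
    apply Real.rpow_pos_of_pos
    linarith
  have h2 : (0 : ℝ) < η * Y / Real.log ((d - 2 * Y : ℕ) : ℝ) := by
    apply div_pos (mul_pos hη hYpos)
    exact Real.log_pos (by linarith)
  have h3 : 0 < ((Ioc (d - 2 * Y) (d - 2 * Y + Y)).filter Nat.Prime).card := by
    have := lt_of_lt_of_le h2 h1
    exact_mod_cast this
  obtain ⟨q, hq⟩ := card_pos.mp h3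
  rw [mem_filter, mem_Ioc] at hq
  refine ⟨q, hq.2, by omega, by omega⟩

theorem final : ∃ (δ : ℝ) (d₀ : ℕ), 0 < δ ∧ ∀ d Y : ℕ, d₀ ≤ d →
    (d : ℝ) ^ (1 - δ) ≤ Y → 10 * Y ≤ d →
    ∃ (x : Fin (d ^ 2) → EuclideanSpace ℂ (Fin d)) (S : Finset (Fin (d ^ 2))),
      d ^ 2 ≤ S.card + 4 * Y * d ∧
      (∀ i, ‖x i‖ = 1) ∧ (∀ i j, i ≠ j → ‖⟪x i, x j⟫_ℂ‖ ≤ 4 * Y / d) ∧
      ∀ i ∈ S, ({j ∈ S | j ≠ i ∧ ‖⟪x i, x j⟫_ℂ‖ ≠ 1 / Real.sqrt ((d : ℝ) + 1)}.card : ℝ) ≤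
        2 * (d : ℝ) ^ 2 / Y := by
  obtain ⟨δ, d₀, hδ0, hδ1, h⟩ := prime_below
  refine ⟨δ, d₀ + 40, hδ0, fun d Y hd hY hY2 => ?_⟩
  obtain ⟨q, hq, hq1, hq2⟩ := h d Y (by omega) hY hY2
  have hd40 : 40 ≤ d := by omega
  have hdR : (40 : ℝ) ≤ d := by exact_mod_cast hd40
  have hYpos : 0 < (Y : ℝ) := by
    refine lt_of_lt_of_le ?_ hY
    apply Real.rpow_pos_of_pos
    linarith
  have hYpos' : 0 < Y := by exact_mod_cast hYpos
  have : Fact q.Prime := ⟨hq⟩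
  obtain ⟨m, hm⟩ : ∃ m, q + m = d := ⟨d - q, by omega⟩
  have hm1 : Y ≤ m := by omega
  have hm2 : m < 2 * Y := by omega
  have : NeZero m := ⟨by omega⟩
  have hq2' : q ≠ 2 := by omega
  have hq3' : q ≠ 3 := by omega
  have hq45 : 4 * d ≤ 5 * q := by omega
  have hdq : d ^ 2 ≤ 2 * q ^ 2 := by nlinarith
  obtain ⟨x, S, hS, hx1, hx2, hx3⟩ := system (m := m) hq2' hq3' hm hdq
  -- `Y ^ 2 ≥ d ^ 2 * d ^ (-1/4)`
  have hY7 : (d : ℝ) ^ (7 / 8 : ℝ) ≤ Y := by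
    refine le_trans ?_ hY
    apply Real.rpow_le_rpow_of_exponent_le (by linarith)
    linarith
  have hd4 : (5 / 2 : ℝ) ≤ (d : ℝ) ^ (1 / 4 : ℝ) := by
    have h5 : ((5 / 2 : ℝ) ^ (4 : ℝ)) ^ (1 / 4 : ℝ) ≤ (d : ℝ) ^ (1 / 4 : ℝ) := by
      apply Real.rpow_le_rpow (by positivity) _ (by norm_num)
      refine le_trans ?_ hdR
      norm_num
    rw [← Real.rpow_mul (by norm_num)] at h5
    norm_num at h5
    exact h5
  set u : ℝ := (d : ℝ) ^ (1 / 4 : ℝ) with hu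
  have hu4 : u ^ 4 = d := by
    rw [hu, ← Real.rpow_natCast, ← Real.rpow_mul (by linarith)]
    norm_num
  have hYu : (u ^ 7 : ℝ) ≤ (Y : ℝ) ^ 2 := by
    have h1 : ((d : ℝ) ^ (7 / 8 : ℝ)) ^ 2 ≤ (Y : ℝ) ^ 2 :=
      pow_le_pow_left₀ (by positivity) hY7 2
    have h2 : ((d : ℝ) ^ (7 / 8 : ℝ)) ^ 2 = u ^ 7 := by
      rw [hu, ← Real.rpow_natCast, ← Real.rpow_natCast, ← Real.rpow_mul (by linarith),
        ← Real.rpow_mul (by linarith)]
      norm_num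
    linarith
  have hu0 : 0 < u := by linarith
  have hYsq : (d : ℝ) + 1 ≤ (Y : ℝ) ^ 2 := by
    have h3 : (d : ℝ) + 1 ≤ u ^ 7 := by
      have h4 : u ^ 7 = d * u ^ 3 := by rw [← hu4]; ring
      have h5 : (2 : ℝ) ≤ u ^ 3 := by
        have : (2 : ℝ) ^ 3 ≤ u ^ 3 := pow_le_pow_left₀ (by norm_num) (by linarith) 3
        linarith
      rw [h4]
      nlinarith
    linarith
  refine ⟨x, S, ?_, hx1, fun i j hij => ?_, fun i hi => ?_⟩
  · rw [hS, ← hm]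
    nlinarith
  · refine (hx2 i j hij).trans ?_
    have h1 : 1 / Real.sqrt ((d : ℝ) + 1) ≤ Y / (d + 1) := by
      rw [div_le_div_iff₀ (Real.sqrt_pos.2 (by linarith)) (by linarith)]
      have h2 : Real.sqrt ((d : ℝ) + 1) ≤ Y := by
        rw [Real.sqrt_le_left hYpos.le]
        exact hYsq
      have h3 : (d : ℝ) + 1 = Real.sqrt ((d : ℝ) + 1) * Real.sqrt ((d : ℝ) + 1) :=
        (Real.mul_self_sqrt (by linarith)).symm
      have h4 : 0 ≤ Real.sqrt ((d : ℝ) + 1) := Real.sqrt_nonneg _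
      nlinarith
    have h2 : ((m : ℝ) + 1) / (d + 1) ≤ 2 * Y / (d + 1) := by
      apply div_le_div_of_nonneg_right _ (by linarith)
      have : m + 1 ≤ 2 * Y := by omega
      exact_mod_cast this
    have h3 : (Y : ℝ) / (d + 1) + 2 * Y / (d + 1) ≤ 3 * Y / d := by
      rw [← add_div, div_le_div_iff₀ (by linarith) (by linarith)]
      nlinarith
    have h4 : Real.sqrt (2 / Real.sqrt q) ≤ Y / d := by
      rw [Real.sqrt_le_left (by positivity), div_pow]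
      have hqR : 4 * (d : ℝ) ≤ 5 * q := by exact_mod_cast hq45
      have hqs : (4 / 5 : ℝ) * u ^ 2 ≤ Real.sqrt q := by
        apply Real.le_sqrt_of_sq_le
        have : ((4 / 5 : ℝ) * u ^ 2) ^ 2 = 16 / 25 * d := by rw [← hu4]; ring
        rw [this]
        linarith
      have hqs0 : 0 < Real.sqrt q := lt_of_lt_of_le (by positivity) hqs
      rw [div_le_div_iff₀ hqs0 (by positivity)]
      have h6 : (u ^ 7 : ℝ) * ((4 / 5 : ℝ) * u ^ 2) ≤ (Y : ℝ) ^ 2 * Real.sqrt q :=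
        mul_le_mul hYu hqs (by positivity) (by positivity)
      have h7 : 2 * (d : ℝ) ^ 2 ≤ (u ^ 7 : ℝ) * ((4 / 5 : ℝ) * u ^ 2) := by
        have h8 : (u ^ 7 : ℝ) * ((4 / 5 : ℝ) * u ^ 2) = (d : ℝ) ^ 2 * ((4 / 5) * u) := by
          rw [← hu4]; ring
        rw [h8]
        have h9 : (2 : ℝ) ≤ (4 / 5) * u := by linarith
        have h10 : 0 ≤ (d : ℝ) ^ 2 := by positivity
        nlinarith
      linarith
    have h5 : 3 * (Y : ℝ) / d + Y / d = 4 * Y / d := by ring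
    linarith
  · have h1 := hx3 i hi
    have h2 : ((q * (q / m + 1) : ℕ) : ℝ) ≤ 2 * (d : ℝ) ^ 2 / Y := by
      have h3 : ((q / m : ℕ) : ℝ) ≤ (q : ℝ) / m := Nat.cast_div_le
      have hqd : (q : ℝ) ≤ d := by
        have : q ≤ d := by omega
        exact_mod_cast this
      have hYm : (Y : ℝ) ≤ m := by exact_mod_cast hm1
      have h4 : (q : ℝ) / m ≤ d / Y := div_le_div₀ (by linarith) hqd hYpos hYm
      have h5 : (1 : ℝ) ≤ d / Y := by
        rw [le_div_iff₀ hYpos]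
        have : Y ≤ d := by omega
        have h6 : (Y : ℝ) ≤ d := by exact_mod_cast this
        linarith
      push_cast
      calc (q : ℝ) * ((q / m : ℕ) + 1) ≤ d * (d / Y + d / Y) := by
            apply mul_le_mul hqd (by linarith) (by positivity) (by linarith)
        _ = 2 * (d : ℝ) ^ 2 / Y := by ring
    refine le_trans ?_ h2
    exact_mod_cast h1

end Pool.Agent.K7.H13.Alm
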