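import Mathlib
import Pool.Agent.H103R3.FrameCrit

/-!
# Quasi-probabilities of a unit vector with respect to a maximal equiangular tight frame
-/

set_option autoImplicit false

namespace Pool.Agent.K7.H13.Iso

open scoped InnerProductSpace ComplexConjugate
open Finset

variable {d : ℕ} {ι : Type*} [Fintype ι]

/-- a maximal equiangular tight frame, indexed by `ι` -/
structure IsSic (x : ι → EuclideanSpace ℂ (Fin d)) : Prop where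
  pos : 0 < d
  card : Fintype.card ι = d ^ 2
  nrm : ∀ i, ‖x i‖ = 1
  ang : ∀ i j, i ≠ j → ‖⟪x i, x j⟫_ℂ‖ = 1 / Real.sqrt ((d : ℝ) + 1)

/-- the overlap of `w` with `x i` -/
noncomputable def ov (x : ι → EuclideanSpace ℂ (Fin d)) (w : EuclideanSpace ℂ (Fin d)) (i : ι) :
    ℝ := ‖⟪x i, w⟫_ℂ‖ ^ 2

/-- the quasi-probability of `w` at `x i` -/
noncomputable def qp (x : ι → EuclideanSpace ℂ (Fin d)) (w : EuclideanSpace ℂ (Fin d)) (i : ι) :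
    ℝ := (((d : ℝ) + 1) * ov x w i - 1) / d

variable {x : ι → EuclideanSpace ℂ (Fin d)}

theorem cmul (u v : EuclideanSpace ℂ (Fin d)) : ⟪u, v⟫_ℂ * ⟪v, u⟫_ℂ = ((‖⟪u, v⟫_ℂ‖ ^ 2 : ℝ) : ℂ) := by
  rw [← inner_conj_symm v u, RCLike.mul_conj]
  push_cast
  rfl

theorem IsSic.dR (h : IsSic x) : (0 : ℝ) < d := by exact_mod_cast h.pos

theorem IsSic.one_le (h : IsSic x) : (1 : ℝ) ≤ d := by exact_mod_cast h.pos

theorem IsSic.ang_sq (h : IsSic x) {i j : ι} (hij : i ≠ j) :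
    ‖⟪x i, x j⟫_ℂ‖ ^ 2 = 1 / ((d : ℝ) + 1) := by
  have := h.dR
  rw [h.ang i j hij, div_pow, Real.sq_sqrt (by linarith), one_pow]

theorem IsSic.design (h : IsSic x) (u v w z : EuclideanSpace ℂ (Fin d)) :
    ∑ k, (⟪u, x k⟫_ℂ * ⟪x k, v⟫_ℂ) * (⟪w, x k⟫_ℂ * ⟪x k, z⟫_ℂ) =
        ((d : ℂ) / (d + 1)) * (⟪u, z⟫_ℂ * ⟪w, v⟫_ℂ + ⟪u, v⟫_ℂ * ⟪w, z⟫_ℂ) :=
  Pool.Agent.H103R3.FrameCrit.sic_design h.pos h.card x h.nrm h.ang u v w z

theorem IsSic.frame (h : IsSic x) (u v : EuclideanSpace ℂ (Fin d)) :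
    ∑ k, ⟪u, x k⟫_ℂ * ⟪x k, v⟫_ℂ = (d : ℂ) * ⟪u, v⟫_ℂ :=
  Pool.Agent.H103R3.FrameCrit.sic_frame h.pos h.card x h.nrm h.ang u v

theorem inner_self_one {w : EuclideanSpace ℂ (Fin d)} (hw : ‖w‖ = 1) : ⟪w, w⟫_ℂ = 1 := by
  rw [inner_self_eq_norm_sq_to_K, hw]
  simp

/-- `|w⟩⟨w| = ∑ T_i |x_i⟩⟨x_i|` -/
theorem expand (h : IsSic x) {w : EuclideanSpace ℂ (Fin d)} (hw : ‖w‖ = 1)
    (u v : EuclideanSpace ℂ (Fin d)) :
    ∑ i, ((qp x w i : ℝ) : ℂ) * (⟪u, x i⟫_ℂ * ⟪x i, v⟫_ℂ) = ⟪u, w⟫_ℂ * ⟪w, v⟫_ℂ := by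
  have hd : (d : ℂ) ≠ 0 := by exact_mod_cast h.pos.ne'
  have hd1 : (d : ℂ) + 1 ≠ 0 := by exact_mod_cast Nat.succ_ne_zero d
  have h1 := h.design u v w w
  have h2 := h.frame u v
  rw [inner_self_one hw, mul_one] at h1
  have h3 : ∀ i, ((qp x w i : ℝ) : ℂ) * (⟪u, x i⟫_ℂ * ⟪x i, v⟫_ℂ) =
      (((d : ℂ) + 1) / d) * ((⟪u, x i⟫_ℂ * ⟪x i, v⟫_ℂ) * (⟪w, x i⟫_ℂ * ⟪x i, w⟫_ℂ)) -
        (1 / d) * (⟪u, x i⟫_ℂ * ⟪x i, v⟫_ℂ) := by
    intro i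
    have h4 : ⟪w, x i⟫_ℂ * ⟪x i, w⟫_ℂ = ((ov x w i : ℝ) : ℂ) := by
      rw [mul_comm, cmul]; rfl
    rw [h4, qp]
    push_cast
    field_simp
  rw [Finset.sum_congr rfl fun i _ => h3 i, Finset.sum_sub_distrib, ← Finset.mul_sum,
    ← Finset.mul_sum, h1, h2]
  field_simp
  ring

theorem sum_ov (h : IsSic x) (w : EuclideanSpace ℂ (Fin d)) :
    ∑ i, ov x w i = d * ‖w‖ ^ 2 := by
  have h2 := h.frame w w
  have h3 : ∀ i, ⟪w, x i⟫_ℂ * ⟪x i, w⟫_ℂ = ((ov x w i : ℝ) : ℂ) := by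
    intro i
    rw [mul_comm, cmul]; rfl
  rw [Finset.sum_congr rfl fun i _ => h3 i, inner_self_eq_norm_sq_to_K] at h2
  have h4 : (((∑ i, ov x w i : ℝ)) : ℂ) = ((d * ‖w‖ ^ 2 : ℝ) : ℂ) := by
    push_cast
    rw [h2]
    rfl
  exact_mod_cast h4

theorem sum_ov_sq (h : IsSic x) (w : EuclideanSpace ℂ (Fin d)) :
    ∑ i, ov x w i ^ 2 = 2 * d / (d + 1) * (‖w‖ ^ 2) ^ 2 := by
  have h2 := h.design w w w w
  have h3 : ∀ i, ⟪w, x i⟫_ℂ * ⟪x i, w⟫_ℂ = ((ov x w i : ℝ) : ℂ) := by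
    intro i
    rw [mul_comm, cmul]; rfl
  have h5 : ∀ i, ((ov x w i : ℝ) : ℂ) * ((ov x w i : ℝ) : ℂ) = ((ov x w i ^ 2 : ℝ) : ℂ) := by
    intro i; push_cast; ring
  simp only [h3, h5] at h2
  rw [inner_self_eq_norm_sq_to_K] at h2
  have h4 : (((∑ i, ov x w i ^ 2 : ℝ)) : ℂ) = ((2 * d / (d + 1) * (‖w‖ ^ 2) ^ 2 : ℝ) : ℂ) := by
    push_cast
    push_cast at h2
    rw [h2]
    simp only [Complex.coe_algebraMap]
    ring
  exact_mod_cast h4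

theorem sum_qp (h : IsSic x) {w : EuclideanSpace ℂ (Fin d)} (hw : ‖w‖ = 1) :
    ∑ i, qp x w i = 1 := by
  have hd := h.dR
  have h1 : ∀ i, qp x w i = ((d + 1) / d) * ov x w i - 1 / d := by
    intro i
    rw [qp]; field_simp
  rw [Finset.sum_congr rfl fun i _ => h1 i, Finset.sum_sub_distrib, ← Finset.mul_sum, sum_ov h, hw]
  rw [Finset.sum_const, Finset.card_univ, h.card, nsmul_eq_mul]
  push_cast
  field_simp
  ring

theorem sum_qp_sq (h : IsSic x) {w : EuclideanSpace ℂ (Fin d)} (hw : ‖w‖ = 1) :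
    ∑ i, qp x w i ^ 2 = 1 := by
  have hd := h.dR
  have h1 : ∀ i, qp x w i ^ 2 = ((d + 1) ^ 2 / d ^ 2) * ov x w i ^ 2 -
      (2 * (d + 1) / d ^ 2) * ov x w i + 1 / d ^ 2 := by
    intro i
    rw [qp]; field_simp; ring
  rw [Finset.sum_congr rfl fun i _ => h1 i, Finset.sum_add_distrib, Finset.sum_sub_distrib,
    ← Finset.mul_sum, ← Finset.mul_sum, sum_ov h, sum_ov_sq h, hw]
  rw [Finset.sum_const, Finset.card_univ, h.card, nsmul_eq_mul]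
  push_cast
  field_simp
  ring

theorem ov_eq (h : IsSic x) (w : EuclideanSpace ℂ (Fin d)) (i : ι) :
    ov x w i = (d * qp x w i + 1) / (d + 1) := by
  have hd := h.dR
  rw [qp]; field_simp; ring

theorem qp_ge (h : IsSic x) (w : EuclideanSpace ℂ (Fin d)) (i : ι) : -(1 / (d : ℝ)) ≤ qp x w i := by
  have hd := h.dR
  have h1 : 0 ≤ ov x w i := by unfold ov; positivity
  have h2 : qp x w i + 1 / (d : ℝ) = ((d : ℝ) + 1) * ov x w i / d := by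
    rw [qp]; field_simp; ring
  have h3 : 0 ≤ ((d : ℝ) + 1) * ov x w i / d := by positivity
  linarith

theorem qp_le_one (h : IsSic x) {w : EuclideanSpace ℂ (Fin d)} (hw : ‖w‖ = 1) (i : ι) :
    qp x w i ≤ 1 := by
  have h1 := sum_qp_sq h hw
  have h2 : qp x w i ^ 2 ≤ 1 := by
    rw [← h1]
    exact Finset.single_le_sum (f := fun i => qp x w i ^ 2) (fun j _ => sq_nonneg _)
      (Finset.mem_univ i)
  nlinarith

end Pool.Agent.K7.H13.Iso
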