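import Mathlib
import Pool.Agent.K7.H13.IsoBase

/-!
# Infinitesimal deformations of a maximal equiangular tight frame: the frame of test vectors
-/

set_option autoImplicit false

namespace Pool.Agent.K7.H13.Def

open scoped InnerProductSpace ComplexConjugate
open Finset Pool.Agent.K7.H13.Iso

variable {d : ℕ} {ι : Type*} [Fintype ι] [DecidableEq ι]

/-- the test vector of the pair `i, j` -/
noncomputable def tu (x : ι → EuclideanSpace ℂ (Fin d)) (i j : ι) : EuclideanSpace ℂ (Fin d) :=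
  if j = i then 0 else ⟪x j, x i⟫_ℂ • x j - (1 / ((d : ℂ) + 1)) • x i

variable {x : ι → EuclideanSpace ℂ (Fin d)}

omit [Fintype ι] in
theorem tu_self (i : ι) : tu x i i = 0 := by rw [tu, if_pos rfl]

omit [Fintype ι] in
theorem tu_ne {i j : ι} (h : j ≠ i) :
    tu x i j = ⟪x j, x i⟫_ℂ • x j - (1 / ((d : ℂ) + 1)) • x i := by rw [tu, if_neg h]

theorem ang_c (h : IsSic x) {i j : ι} (hij : i ≠ j) :
    ⟪x i, x j⟫_ℂ * ⟪x j, x i⟫_ℂ = 1 / ((d : ℂ) + 1) := by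
  rw [cmul, h.ang_sq hij]
  push_cast
  rfl

/-- the real form `Re ⟪v_i, u_ij⟫` in terms of overlaps, for `v_i` orthogonal to `x_i` -/
theorem inner_tu {i : ι} {w : EuclideanSpace ℂ (Fin d)} (hw : ⟪w, x i⟫_ℂ = 0) (j : ι) :
    ⟪w, tu x i j⟫_ℂ = ⟪w, x j⟫_ℂ * ⟪x j, x i⟫_ℂ := by
  by_cases hj : j = i
  · rw [hj, tu_self, hw]; simp
  · rw [tu_ne hj, inner_sub_right, inner_smul_right, inner_smul_right, hw]
    ring

theorem tu_orth (h : IsSic x) (i j : ι) : ⟪tu x i j, x i⟫_ℂ = 0 := by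
  by_cases hj : j = i
  · rw [hj, tu_self]; simp
  · rw [tu_ne hj, inner_sub_left, inner_smul_left, inner_smul_left, inner_self_one (h.nrm i),
      inner_conj_symm, ang_c h (fun hh => hj hh.symm)]
    rw [map_div₀, map_add, map_one, Complex.conj_natCast]
    ring

/-- inner products of test vectors with the same first index -/
theorem tu_inner (h : IsSic x) {i j k : ι} (hj : j ≠ i) (hk : k ≠ i) :
    ⟪tu x i k, tu x i j⟫_ℂ =
      ⟪x i, x k⟫_ℂ * ⟪x k, x j⟫_ℂ * ⟪x j, x i⟫_ℂ - (1 / ((d : ℂ) + 1)) ^ 2 := by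
  rw [inner_tu (tu_orth h i k), tu_ne hk, inner_sub_left, inner_smul_left, inner_smul_left,
    inner_conj_symm, map_div₀, map_add, map_one, Complex.conj_natCast]
  have h1 := ang_c h (fun hh => hj hh.symm : i ≠ j)
  linear_combination (-(1 / ((d : ℂ) + 1))) * h1

theorem tu_norm (h : IsSic x) {i j : ι} (hj : j ≠ i) :
    ⟪tu x i j, tu x i j⟫_ℂ = (d : ℂ) / ((d : ℂ) + 1) ^ 2 := by
  have hd1 : (d : ℂ) + 1 ≠ 0 := by exact_mod_cast Nat.succ_ne_zero d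
  rw [tu_inner h hj hj, inner_self_one (h.nrm j), mul_one, ang_c h (fun hh => hj hh.symm)]
  field_simp
  ring

/-- Parseval identity of the test vectors -/
theorem parseval (h : IsSic x) {i : ι} {w w' : EuclideanSpace ℂ (Fin d)}
    (hw : ⟪w, x i⟫_ℂ = 0) (hw' : ⟪w', x i⟫_ℂ = 0) :
    ∑ j, (⟪w, tu x i j⟫_ℂ).re * (⟪w', tu x i j⟫_ℂ).re =
      (d : ℝ) / (2 * (d + 1)) * (⟪w, w'⟫_ℂ).re := by
  have hd := h.dR
  have hxw' : ⟪x i, w'⟫_ℂ = 0 := by rw [← inner_conj_symm, hw', map_zero]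
  have h1 := h.design w (x i) w' (x i)
  have h2 := h.design w (x i) (x i) w'
  rw [hw, hw'] at h1
  rw [hw, hxw', inner_self_one (h.nrm i)] at h2
  have h3 : ∀ j, (⟪w, tu x i j⟫_ℂ).re * (⟪w', tu x i j⟫_ℂ).re =
      (1 / 2) * ((⟪w, x j⟫_ℂ * ⟪x j, x i⟫_ℂ) * (⟪w', x j⟫_ℂ * ⟪x j, x i⟫_ℂ)).re +
      (1 / 2) * ((⟪w, x j⟫_ℂ * ⟪x j, x i⟫_ℂ) * (⟪x i, x j⟫_ℂ * ⟪x j, w'⟫_ℂ)).re := by
    intro j
    rw [inner_tu hw, inner_tu hw']
    have h4 : ⟪x i, x j⟫_ℂ * ⟪x j, w'⟫_ℂ = conj (⟪w', x j⟫_ℂ * ⟪x j, x i⟫_ℂ) := by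
      rw [map_mul, inner_conj_symm, inner_conj_symm]; ring
    rw [h4]
    simp only [Complex.mul_re, Complex.conj_re, Complex.conj_im]
    ring
  rw [Finset.sum_congr rfl fun j _ => h3 j, Finset.sum_add_distrib, ← Finset.mul_sum,
    ← Finset.mul_sum, ← Complex.re_sum, ← Complex.re_sum, h1, h2]
  have h5 : (d : ℂ) / (d + 1) * (⟪w, w'⟫_ℂ * 1 + 0 * 0) =
      (((d : ℝ) / (d + 1) : ℝ) : ℂ) * ⟪w, w'⟫_ℂ := by
    push_cast; ring
  rw [h5, Complex.re_ofReal_mul]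
  simp only [mul_zero, zero_mul, add_zero, Complex.zero_re, zero_add]
  field_simp

/-- the test vectors of a fixed first index add up to zero -/
theorem sum_tu (h : IsSic x) (i : ι) : ∑ j, tu x i j = 0 := by
  have hd := h.dR
  apply ext_inner_left ℂ
  intro u
  rw [inner_sum, inner_zero_right]
  have h1 := h.frame u (x i)
  have h2 : ∀ j, ⟪u, tu x i j⟫_ℂ = ⟪u, x j⟫_ℂ * ⟪x j, x i⟫_ℂ -
      (1 / ((d : ℂ) + 1)) * ⟪u, x i⟫_ℂ -
      (if j = i then (1 - 1 / ((d : ℂ) + 1)) * ⟪u, x i⟫_ℂ else 0) := by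
    intro j
    by_cases hj : j = i
    · rw [if_pos hj, hj, tu_self, inner_self_one (h.nrm i), inner_zero_right]; ring
    · rw [if_neg hj, tu_ne hj, inner_sub_right, inner_smul_right, inner_smul_right]; ring
  rw [Finset.sum_congr rfl fun j _ => h2 j, Finset.sum_sub_distrib, Finset.sum_sub_distrib,
    Finset.sum_ite_eq' univ i, if_pos (Finset.mem_univ i), h1, Finset.sum_const, Finset.card_univ,
    h.card, nsmul_eq_mul]
  have hd1 : (d : ℂ) + 1 ≠ 0 := by exact_mod_cast Nat.succ_ne_zero d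
  push_cast
  field_simp
  ring

/-- the combination of test vectors with real coefficients -/
noncomputable def tv (x : ι → EuclideanSpace ℂ (Fin d)) (t : ι → ℝ) (i : ι) :
    EuclideanSpace ℂ (Fin d) := ∑ k, ((t k : ℝ) : ℂ) • tu x i k

theorem tv_orth (h : IsSic x) (t : ι → ℝ) (i : ι) : ⟪tv x t i, x i⟫_ℂ = 0 := by
  rw [tv, sum_inner]
  apply Finset.sum_eq_zero
  intro k _
  rw [inner_smul_left, tu_orth h, mul_zero]

/-- symmetry of the real triple products -/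
theorem tu_symm (h : IsSic x) {i j k : ι} (hij : i ≠ j) (hki : k ≠ i) (hkj : k ≠ j) :
    (⟪tu x i k, tu x i j⟫_ℂ).re = (⟪tu x j k, tu x j i⟫_ℂ).re := by
  rw [tu_inner h hij.symm hki, tu_inner h hij hkj]
  have h1 : ⟪x j, x k⟫_ℂ * ⟪x k, x i⟫_ℂ * ⟪x i, x j⟫_ℂ =
      conj (⟪x i, x k⟫_ℂ * ⟪x k, x j⟫_ℂ * ⟪x j, x i⟫_ℂ) := by
    rw [map_mul, map_mul, inner_conj_symm, inner_conj_symm, inner_conj_symm]; ring
  rw [h1, Complex.sub_re, Complex.sub_re, Complex.conj_re]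

/-- the asymmetry of the matrix of a combination of test vectors -/
theorem tv_asymm (h : IsSic x) (t : ι → ℝ) {i j : ι} (hij : i ≠ j) :
    (⟪tv x t j, tu x j i⟫_ℂ).re - (⟪tv x t i, tu x i j⟫_ℂ).re =
      (d : ℝ) / ((d : ℝ) + 1) ^ 2 * (t i - t j) := by
  have hexp : ∀ a b : ι, a ≠ b → (⟪tv x t a, tu x a b⟫_ℂ).re =
      (d : ℝ) / ((d : ℝ) + 1) ^ 2 * t b +
        ∑ k ∈ (univ.erase a).erase b, t k * (⟪tu x a k, tu x a b⟫_ℂ).re := by
    intro a b hab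
    have h1 : (⟪tv x t a, tu x a b⟫_ℂ).re = ∑ k, t k * (⟪tu x a k, tu x a b⟫_ℂ).re := by
      rw [tv, sum_inner, Complex.re_sum]
      apply Finset.sum_congr rfl
      intro k _
      rw [inner_smul_left, Complex.conj_ofReal, Complex.re_ofReal_mul]
    have hb : b ∈ univ.erase a := Finset.mem_erase.2 ⟨hab.symm, Finset.mem_univ b⟩
    rw [h1, ← Finset.sum_erase_add univ _ (Finset.mem_univ a), ← Finset.sum_erase_add _ _ hb,
      tu_self, inner_zero_left, tu_norm h hab.symm]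
    have h2 : ((d : ℂ) / ((d : ℂ) + 1) ^ 2).re = (d : ℝ) / ((d : ℝ) + 1) ^ 2 := by
      have : (d : ℂ) / ((d : ℂ) + 1) ^ 2 = (((d : ℝ) / ((d : ℝ) + 1) ^ 2 : ℝ) : ℂ) := by
        push_cast; rfl
      rw [this, Complex.ofReal_re]
    rw [h2, Complex.zero_re]
    ring
  rw [hexp i j hij, hexp j i hij.symm]
  have h3 : ∑ k ∈ (univ.erase j).erase i, t k * (⟪tu x j k, tu x j i⟫_ℂ).re =
      ∑ k ∈ (univ.erase i).erase j, t k * (⟪tu x i k, tu x i j⟫_ℂ).re := by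
    rw [Finset.erase_right_comm]
    apply Finset.sum_congr rfl
    intro k hk
    have hk2 := Finset.mem_erase.1 hk
    have hk3 := Finset.mem_erase.1 hk2.2
    rw [tu_symm h hij hk3.1 hk2.1]
  rw [h3]
  ring

end Pool.Agent.K7.H13.Def
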