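import Mathlib
import Pool.Agent.K7.H13.DefBase

/-!
# Infinitesimal deformations of a maximal equiangular tight frame: the dimension bound
-/

set_option autoImplicit false

namespace Pool.Agent.K7.H13.Def

open scoped InnerProductSpace ComplexConjugate
open Finset Pool.Agent.K7.H13.Iso

variable {d : ℕ} {ι : Type*} [Fintype ι] [DecidableEq ι]
variable {x : ι → EuclideanSpace ℂ (Fin d)}

theorem real_inner_E (v w : EuclideanSpace ℂ (Fin d)) : ⟪v, w⟫_ℝ = (⟪v, w⟫_ℂ).re := by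
  rw [PiLp.inner_apply, PiLp.inner_apply, Complex.re_sum]
  refine Finset.sum_congr rfl fun i _ => ?_
  rw [Complex.inner]
  simp [mul_comm]

omit [DecidableEq ι] in
theorem real_inner_V (v w : PiLp 2 (fun _ : ι => EuclideanSpace ℂ (Fin d))) :
    ⟪v, w⟫_ℝ = ∑ i, (⟪v i, w i⟫_ℂ).re := by
  rw [PiLp.inner_apply]
  exact Finset.sum_congr rfl fun i _ => real_inner_E _ _

/-- the matrix of a family of vectors -/
noncomputable def mm (x v : ι → EuclideanSpace ℂ (Fin d)) (i j : ι) : ℝ :=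
  (⟪v i, tu x i j⟫_ℂ).re

/-- an eigenvector with eigenvalue `lam` -/
def Eig (x : ι → EuclideanSpace ℂ (Fin d)) (lam : ℝ) (v : ι → EuclideanSpace ℂ (Fin d)) : Prop :=
  (∀ i, ⟪v i, x i⟫_ℂ = 0) ∧ ∀ i j, ∑ l, (⟪tu x i j, tu x i l⟫_ℂ).re * mm x v l i =
    (d : ℝ) / (2 * (d + 1)) * (lam * mm x v i j)

theorem sum_mm_sq (h : IsSic x) {v : ι → EuclideanSpace ℂ (Fin d)}
    (hv : ∀ i, ⟪v i, x i⟫_ℂ = 0) :
    ∑ i, ∑ j, mm x v i j ^ 2 = (d : ℝ) / (2 * (d + 1)) * ∑ i, (⟪v i, v i⟫_ℂ).re := by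
  rw [Finset.mul_sum]
  apply Finset.sum_congr rfl
  intro i _
  rw [← parseval h (hv i) (hv i)]
  apply Finset.sum_congr rfl
  intro j _
  rw [mm]; ring

theorem sum_mm_mul (h : IsSic x) {v w : ι → EuclideanSpace ℂ (Fin d)}
    (hv : ∀ i, ⟪v i, x i⟫_ℂ = 0) (hw : ∀ i, ⟪w i, x i⟫_ℂ = 0) :
    ∑ i, ∑ j, mm x v i j * mm x w i j =
      (d : ℝ) / (2 * (d + 1)) * ∑ i, (⟪v i, w i⟫_ℂ).re := by
  rw [Finset.mul_sum]
  apply Finset.sum_congr rfl
  intro i _
  rw [← parseval h (hv i) (hw i)]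
  rfl

theorem mm_self (v : ι → EuclideanSpace ℂ (Fin d)) (i : ι) : mm x v i i = 0 := by
  rw [mm, tu_self, inner_zero_right, Complex.zero_re]

/-- deformations are eigenvectors with eigenvalue `-1` -/
theorem eig_of_skew (h : IsSic x) {v : ι → EuclideanSpace ℂ (Fin d)}
    (hv : ∀ i, ⟪v i, x i⟫_ℂ = 0) (hs : ∀ i j, mm x v i j = - mm x v j i) : Eig x (-1) v := by
  refine ⟨hv, fun i j => ?_⟩
  have h1 : ∀ l, (⟪tu x i j, tu x i l⟫_ℂ).re * mm x v l i =
      -((⟪tu x i j, tu x i l⟫_ℂ).re * (⟪v i, tu x i l⟫_ℂ).re) := by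
    intro l
    rw [hs l i, mm]; ring
  rw [Finset.sum_congr rfl fun l _ => h1 l, Finset.sum_neg_distrib,
    parseval h (tu_orth h i j) (hv i)]
  have h2 : (⟪tu x i j, v i⟫_ℂ).re = mm x v i j := by
    rw [mm, ← inner_conj_symm, Complex.conj_re]
  rw [h2]; ring

theorem mm_tv (h : IsSic x) (t : ι → ℝ) (i j : ι) :
    mm x (tv x t) j i = mm x (tv x t) i j + (d : ℝ) / ((d : ℝ) + 1) ^ 2 * (t i - t j) := by
  by_cases hij : i = j
  · rw [hij]; ring
  · have := tv_asymm h t hij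
    rw [mm, mm]; linarith

/-- combinations of test vectors are eigenvectors with eigenvalue `(d - 1) / (d + 1)` -/
theorem eig_tv (h : IsSic x) (t : ι → ℝ) : Eig x (((d : ℝ) - 1) / (d + 1)) (tv x t) := by
  have hd := h.dR
  refine ⟨tv_orth h t, fun i j => ?_⟩
  have h1 : ∀ l, (⟪tu x i j, tu x i l⟫_ℂ).re * mm x (tv x t) l i =
      (⟪tu x i j, tu x i l⟫_ℂ).re * (⟪tv x t i, tu x i l⟫_ℂ).re +
      (d : ℝ) / ((d : ℝ) + 1) ^ 2 * t i * (⟪tu x i j, tu x i l⟫_ℂ).re -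
      (d : ℝ) / ((d : ℝ) + 1) ^ 2 * (t l * (⟪tu x i j, tu x i l⟫_ℂ).re) := by
    intro l
    rw [mm_tv h t i l, mm]; ring
  rw [Finset.sum_congr rfl fun l _ => h1 l, Finset.sum_sub_distrib, Finset.sum_add_distrib,
    ← Finset.mul_sum, ← Finset.mul_sum, parseval h (tu_orth h i j) (tv_orth h t i)]
  have h2 : ∑ l, (⟪tu x i j, tu x i l⟫_ℂ).re = 0 := by
    rw [← Complex.re_sum, ← inner_sum, sum_tu h, inner_zero_right, Complex.zero_re]
  have h3 : ∑ l, t l * (⟪tu x i j, tu x i l⟫_ℂ).re = mm x (tv x t) i j := by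
    rw [mm, ← inner_conj_symm, Complex.conj_re, tv, inner_sum, Complex.re_sum]
    apply Finset.sum_congr rfl
    intro l _
    rw [inner_smul_right, Complex.re_ofReal_mul]
  have h4 : (⟪tu x i j, tv x t i⟫_ℂ).re = mm x (tv x t) i j := by
    rw [mm, ← inner_conj_symm, Complex.conj_re]
  rw [h2, h3, h4]
  field_simp
  ring

/-- deformations are orthogonal to the combinations of test vectors -/
theorem orth_tv (h : IsSic x) {v : ι → EuclideanSpace ℂ (Fin d)}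
    (hv : ∀ i, ⟪v i, x i⟫_ℂ = 0) (hs : ∀ i j, mm x v i j = - mm x v j i) (t : ι → ℝ) :
    ∑ i, (⟪v i, tv x t i⟫_ℂ).re = 0 := by
  have hd := h.dR
  set S := ∑ i, (⟪v i, tv x t i⟫_ℂ).re with hS
  -- first evaluation
  have h1 : ∑ i, ∑ j, mm x v i j * mm x (tv x t) j i = -((d : ℝ) / (2 * (d + 1)) * S) := by
    rw [hS, ← sum_mm_mul h hv (tv_orth h t), Finset.sum_comm, ← Finset.sum_neg_distrib]
    apply Finset.sum_congr rfl
    intro i _
    rw [← Finset.sum_neg_distrib]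
    apply Finset.sum_congr rfl
    intro j _
    rw [hs j i]; ring
  -- second evaluation
  have h2 : ∑ i, ∑ j, mm x v i j * mm x (tv x t) j i =
      (d : ℝ) / (2 * (d + 1)) * S - (d : ℝ) / ((d : ℝ) + 1) ^ 2 * S := by
    have h3 : ∀ i, ∑ j, mm x v i j * mm x (tv x t) j i =
        ∑ j, mm x v i j * mm x (tv x t) i j -
          (d : ℝ) / ((d : ℝ) + 1) ^ 2 * (⟪v i, tv x t i⟫_ℂ).re := by
      intro i
      have h4 : ∀ j, mm x v i j * mm x (tv x t) j i = mm x v i j * mm x (tv x t) i j +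
          (d : ℝ) / ((d : ℝ) + 1) ^ 2 * t i * mm x v i j -
          (d : ℝ) / ((d : ℝ) + 1) ^ 2 * (t j * mm x v i j) := by
        intro j
        rw [mm_tv h t i j]; ring
      have h5 : ∑ j, mm x v i j = 0 := by
        simp only [mm]
        rw [← Complex.re_sum, ← inner_sum, sum_tu h, inner_zero_right, Complex.zero_re]
      have h6 : ∑ j, t j * mm x v i j = (⟪v i, tv x t i⟫_ℂ).re := by
        rw [tv, inner_sum, Complex.re_sum]
        apply Finset.sum_congr rfl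
        intro j _
        rw [inner_smul_right, Complex.re_ofReal_mul, mm]
      rw [Finset.sum_congr rfl fun j _ => h4 j, Finset.sum_sub_distrib, Finset.sum_add_distrib,
        ← Finset.mul_sum, ← Finset.mul_sum, h5, h6]
      ring
    rw [Finset.sum_congr rfl fun i _ => h3 i, Finset.sum_sub_distrib, ← Finset.mul_sum,
      sum_mm_mul h hv (tv_orth h t)]
  rw [h1] at h2
  have h3 : (d : ℝ) ^ 2 / ((d : ℝ) + 1) ^ 2 * S = 0 := by
    have : (d : ℝ) ^ 2 / ((d : ℝ) + 1) ^ 2 * S = 2 * ((d : ℝ) / (2 * (d + 1)) * S) -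
        (d : ℝ) / ((d : ℝ) + 1) ^ 2 * S := by
      field_simp
      ring
    rw [this]; linarith
  rcases mul_eq_zero.1 h3 with h4 | h4
  · exfalso
    have : (0 : ℝ) < (d : ℝ) ^ 2 / ((d : ℝ) + 1) ^ 2 := by positivity
    linarith
  · exact h4

/-- the vectors used in the Bessel inequality -/
noncomputable def xi (x : ι → EuclideanSpace ℂ (Fin d)) (μ : ℝ) (i j : ι) :
    PiLp 2 (fun _ : ι => EuclideanSpace ℂ (Fin d)) :=
  WithLp.toLp 2 fun l =>
    ((2 * ((d : ℝ) + 1) / d * (⟪tu x i j, tu x i l⟫_ℂ).re : ℝ) : ℂ) • tu x l i -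
      if l = i then ((μ : ℝ) : ℂ) • tu x i j else 0

theorem inner_xi (h : IsSic x) {lam : ℝ} {v : PiLp 2 (fun _ : ι => EuclideanSpace ℂ (Fin d))}
    (hv : Eig x lam v) (μ : ℝ) (i j : ι) :
    ⟪v, xi x μ i j⟫_ℝ = (lam - μ) * mm x v i j := by
  have hd := h.dR
  rw [real_inner_V]
  have h1 : ∀ l, (⟪v l, (xi x μ i j) l⟫_ℂ).re =
      2 * ((d : ℝ) + 1) / d * ((⟪tu x i j, tu x i l⟫_ℂ).re * mm x v l i) -
        if l = i then μ * mm x v i j else 0 := by
    intro l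
    rw [xi, inner_sub_right, inner_smul_right, Complex.sub_re, Complex.re_ofReal_mul]
    congr 1
    · rw [mm]; ring
    · by_cases hl : l = i
      · rw [if_pos hl, if_pos hl, inner_smul_right, Complex.re_ofReal_mul, mm, hl]
      · rw [if_neg hl, if_neg hl, inner_zero_right, Complex.zero_re]
  rw [Finset.sum_congr rfl fun l _ => h1 l, Finset.sum_sub_distrib, ← Finset.mul_sum, hv.2 i j,
    Finset.sum_ite_eq' univ i, if_pos (Finset.mem_univ i)]
  field_simp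

theorem norm_xi (h : IsSic x) (μ : ℝ) {i j : ι} (hij : i ≠ j) :
    ‖xi x μ i j‖ ^ 2 = 2 * (d : ℝ) / (d + 1) ^ 3 + μ ^ 2 * (d / ((d : ℝ) + 1) ^ 2) := by
  have hd := h.dR
  have hre : ∀ a b : ι, a ≠ b → (⟪tu x a b, tu x a b⟫_ℂ).re = (d : ℝ) / ((d : ℝ) + 1) ^ 2 := by
    intro a b hab
    rw [tu_norm h hab.symm]
    have : (d : ℂ) / ((d : ℂ) + 1) ^ 2 = (((d : ℝ) / ((d : ℝ) + 1) ^ 2 : ℝ) : ℂ) := by
      push_cast; rfl
    rw [this, Complex.ofReal_re]
  rw [← real_inner_self_eq_norm_sq, real_inner_V]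
  have h1 : ∀ l, (⟪(xi x μ i j) l, (xi x μ i j) l⟫_ℂ).re =
      (2 * ((d : ℝ) + 1) / d) ^ 2 * ((d : ℝ) / ((d : ℝ) + 1) ^ 2) *
        ((⟪tu x i j, tu x i l⟫_ℂ).re * (⟪tu x i j, tu x i l⟫_ℂ).re) +
        if l = i then μ ^ 2 * (d / ((d : ℝ) + 1) ^ 2) else 0 := by
    intro l
    by_cases hl : l = i
    · subst hl
      rw [xi]
      simp only [if_true, tu_self, inner_zero_right, Complex.zero_re, mul_zero,
        Complex.ofReal_zero, zero_smul, zero_sub, zero_add]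
      rw [inner_neg_neg, inner_smul_left, inner_smul_right, Complex.conj_ofReal,
        Complex.re_ofReal_mul, Complex.re_ofReal_mul, hre l j hij]
      ring
    · rw [xi]
      simp only [if_neg hl, sub_zero, add_zero]
      rw [inner_smul_left, inner_smul_right, Complex.conj_ofReal,
        Complex.re_ofReal_mul, Complex.re_ofReal_mul, hre l i hl]
      ring
  rw [Finset.sum_congr rfl fun l _ => h1 l, Finset.sum_add_distrib, ← Finset.mul_sum,
    parseval h (tu_orth h i j) (tu_orth h i j), hre i j hij,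
    Finset.sum_ite_eq' univ i, if_pos (Finset.mem_univ i)]
  field_simp

theorem bessel (h : IsSic x) {γ : Type*} [Fintype γ]
    {g : γ → PiLp 2 (fun _ : ι => EuclideanSpace ℂ (Fin d))} (hg : Orthonormal ℝ g)
    {lam : γ → ℝ} (hl : ∀ a, Eig x (lam a) (g a)) (μ : ℝ) :
    ∑ a, (lam a - μ) ^ 2 ≤ (d : ℝ) ^ 2 * ((d : ℝ) ^ 2 - 1) *
      (4 / ((d : ℝ) + 1) ^ 2 + 2 * μ ^ 2 / ((d : ℝ) + 1)) := by
  have hd := h.dR
  have h1 : ∀ i j, ∑ a, (lam a - μ) ^ 2 * mm x (g a) i j ^ 2 ≤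
      if i = j then 0 else 2 * (d : ℝ) / (d + 1) ^ 3 + μ ^ 2 * (d / ((d : ℝ) + 1) ^ 2) := by
    intro i j
    by_cases hij : i = j
    · rw [if_pos hij, hij]
      apply le_of_eq
      apply Finset.sum_eq_zero
      intro a _
      rw [mm_self]; ring
    · rw [if_neg hij, ← norm_xi h μ hij]
      refine le_trans (le_of_eq ?_) (hg.sum_inner_products_le (xi x μ i j) (s := univ))
      apply Finset.sum_congr rfl
      intro a _
      rw [inner_xi h (hl a), Real.norm_eq_abs, sq_abs]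
      ring
  have h2 : ∑ i, ∑ j, ∑ a, (lam a - μ) ^ 2 * mm x (g a) i j ^ 2 =
      (d : ℝ) / (2 * (d + 1)) * ∑ a, (lam a - μ) ^ 2 := by
    have h3 : ∀ a, ∑ i, ∑ j, (lam a - μ) ^ 2 * mm x (g a) i j ^ 2 =
        (d : ℝ) / (2 * (d + 1)) * (lam a - μ) ^ 2 := by
      intro a
      have h4 := sum_mm_sq h (hl a).1
      have h5 : ∑ i, (⟪(g a) i, (g a) i⟫_ℂ).re = 1 := by
        rw [← real_inner_V, real_inner_self_eq_norm_sq, hg.1 a]; ring
      rw [h5] at h4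
      have h6 : ∑ i, ∑ j, (lam a - μ) ^ 2 * mm x (g a) i j ^ 2 =
          (lam a - μ) ^ 2 * ∑ i, ∑ j, mm x (g a) i j ^ 2 := by
        rw [Finset.mul_sum]
        exact Finset.sum_congr rfl fun i _ => by rw [Finset.mul_sum]
      rw [h6, h4]; ring
    have h7 : ∑ i, ∑ j, ∑ a, (lam a - μ) ^ 2 * mm x (g a) i j ^ 2 =
        ∑ a, ∑ i, ∑ j, (lam a - μ) ^ 2 * mm x (g a) i j ^ 2 := by
      rw [Finset.sum_congr rfl fun i _ => Finset.sum_comm, Finset.sum_comm]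
    rw [h7, Finset.sum_congr rfl fun a _ => h3 a, ← Finset.mul_sum]
  have h3 : ∑ i, ∑ j, ∑ a, (lam a - μ) ^ 2 * mm x (g a) i j ^ 2 ≤
      ∑ i : ι, ∑ j : ι, if i = j then 0 else
        2 * (d : ℝ) / (d + 1) ^ 3 + μ ^ 2 * (d / ((d : ℝ) + 1) ^ 2) :=
    Finset.sum_le_sum fun i _ => Finset.sum_le_sum fun j _ => h1 i j
  have h4 : (∑ i : ι, ∑ j : ι, if i = j then (0 : ℝ) else
        2 * (d : ℝ) / (d + 1) ^ 3 + μ ^ 2 * (d / ((d : ℝ) + 1) ^ 2)) =
      (d : ℝ) ^ 2 * (((d : ℝ) ^ 2 - 1) *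
        (2 * (d : ℝ) / (d + 1) ^ 3 + μ ^ 2 * (d / ((d : ℝ) + 1) ^ 2))) := by
    have h5 : ∀ i : ι, (∑ j : ι, if i = j then (0 : ℝ) else
        2 * (d : ℝ) / (d + 1) ^ 3 + μ ^ 2 * (d / ((d : ℝ) + 1) ^ 2)) = ((d : ℝ) ^ 2 - 1) *
        (2 * (d : ℝ) / (d + 1) ^ 3 + μ ^ 2 * (d / ((d : ℝ) + 1) ^ 2)) := by
      intro i
      set A := 2 * (d : ℝ) / (d + 1) ^ 3 + μ ^ 2 * (d / ((d : ℝ) + 1) ^ 2) with hA
      have h6 : ∀ j : ι, (if i = j then (0 : ℝ) else A) = A - if i = j then A else 0 := by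
        intro j
        split_ifs <;> ring
      rw [Finset.sum_congr rfl fun j _ => h6 j, Finset.sum_sub_distrib,
        Finset.sum_ite_eq univ i, if_pos (Finset.mem_univ i), Finset.sum_const, Finset.card_univ,
        h.card, nsmul_eq_mul]
      push_cast
      ring
    rw [Finset.sum_congr rfl fun i _ => h5 i, Finset.sum_const, Finset.card_univ,
        h.card, nsmul_eq_mul]
    push_cast
    ring
  rw [h2, h4] at h3
  have h5 : (d : ℝ) / (2 * (d + 1)) * ∑ a, (lam a - μ) ^ 2 ≤ (d : ℝ) / (2 * (d + 1)) *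
      ((d : ℝ) ^ 2 * ((d : ℝ) ^ 2 - 1) * (4 / ((d : ℝ) + 1) ^ 2 + 2 * μ ^ 2 / ((d : ℝ) + 1))) := by
    refine h3.trans (le_of_eq ?_)
    field_simp
    ring
  exact le_of_mul_le_mul_left h5 (by positivity)

end Pool.Agent.K7.H13.Def
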