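import Mathlib
import Pool.Agent.K7.H13.DefMain

/-!
# Infinitesimal deformations of a maximal equiangular tight frame: dimensions
-/

set_option autoImplicit false

namespace Pool.Agent.K7.H13.Def

open scoped InnerProductSpace ComplexConjugate
open Finset Module Pool.Agent.K7.H13.Iso

variable {d : ℕ} {ι : Type*} [Fintype ι] [DecidableEq ι]
variable {x : ι → EuclideanSpace ℂ (Fin d)}

omit [Fintype ι] in
theorem mm_add (v w : ι → EuclideanSpace ℂ (Fin d)) (i j : ι) :
    mm x (v + w) i j = mm x v i j + mm x w i j := by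
  rw [mm, Pi.add_apply, inner_add_left, Complex.add_re]; rfl

omit [Fintype ι] in
theorem mm_smul (c : ℝ) (v : ι → EuclideanSpace ℂ (Fin d)) (i j : ι) :
    mm x (c • v) i j = c * mm x v i j := by
  have h1 : (c • v) i = ((c : ℝ) : ℂ) • v i := by
    rw [Pi.smul_apply]
    ext k
    simp
  rw [mm, h1, inner_smul_left, Complex.conj_ofReal, Complex.re_ofReal_mul]; rfl

/-- the gauge-fixed infinitesimal deformations -/
def DD (x : ι → EuclideanSpace ℂ (Fin d)) :
    Submodule ℝ (PiLp 2 (fun _ : ι => EuclideanSpace ℂ (Fin d))) where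
  carrier := {v | (∀ i, ⟪v i, x i⟫_ℂ = 0) ∧ ∀ i j, mm x v i j = - mm x v j i}
  zero_mem' := by
    refine ⟨fun i => ?_, fun i j => ?_⟩
    · simp
    · simp [mm]
  add_mem' := by
    intro v w hv hw
    refine ⟨fun i => ?_, fun i j => ?_⟩
    · rw [PiLp.add_apply, inner_add_left, hv.1, hw.1, add_zero]
    · have h1 : ∀ a b, mm x ((v + w : PiLp 2 (fun _ : ι => EuclideanSpace ℂ (Fin d)))) a b =
          mm x v a b + mm x w a b := fun a b => mm_add _ _ a b
      rw [h1, h1, hv.2, hw.2]; ring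
  smul_mem' := by
    intro c v hv
    refine ⟨fun i => ?_, fun i j => ?_⟩
    · have h1 : (c • v) i = ((c : ℝ) : ℂ) • v i := by
        rw [PiLp.smul_apply]
        ext k
        simp
      rw [h1, inner_smul_left, hv.1, mul_zero]
    · have h1 : ∀ a b, mm x ((c • v : PiLp 2 (fun _ : ι => EuclideanSpace ℂ (Fin d)))) a b =
          c * mm x v a b := fun a b => mm_smul _ _ a b
      rw [h1, h1, hv.2]; ring

theorem tv_add (t s : ι → ℝ) (i : ι) : tv x (t + s) i = tv x t i + tv x s i := by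
  rw [tv, tv, tv, ← Finset.sum_add_distrib]
  apply Finset.sum_congr rfl
  intro k _
  rw [Pi.add_apply, Complex.ofReal_add, add_smul]

theorem tv_smul (c : ℝ) (t : ι → ℝ) (i : ι) : tv x (c • t) i = ((c : ℝ) : ℂ) • tv x t i := by
  rw [tv, tv, Finset.smul_sum]
  apply Finset.sum_congr rfl
  intro k _
  rw [Pi.smul_apply, smul_eq_mul, Complex.ofReal_mul, mul_smul]

theorem real_smul_E (c : ℝ) (v : EuclideanSpace ℂ (Fin d)) : c • v = ((c : ℝ) : ℂ) • v := by
  ext k
  simp

/-- combinations of test vectors, as a linear map -/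
noncomputable def tvL (x : ι → EuclideanSpace ℂ (Fin d)) :
    (ι → ℝ) →ₗ[ℝ] PiLp 2 (fun _ : ι => EuclideanSpace ℂ (Fin d)) where
  toFun t := WithLp.toLp 2 (tv x t)
  map_add' := by
    intro t s
    ext i k
    simp [tv_add]
  map_smul' := by
    intro c t
    ext i k
    simp [tv_smul]

theorem tvL_apply (t : ι → ℝ) (i : ι) : (tvL x t) i = tv x t i := rfl

theorem ker_tvL (h : IsSic x) : LinearMap.ker (tvL x) = Submodule.span ℝ {fun _ : ι => (1 : ℝ)} := by
  have hd := h.dR
  ext t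
  rw [LinearMap.mem_ker, Submodule.mem_span_singleton]
  constructor
  · intro ht
    have h0 : ∀ i, tv x t i = 0 := by
      intro i
      rw [← tvL_apply, ht]; rfl
    have h1 : ∀ i j, t i = t j := by
      intro i j
      by_cases hij : i = j
      · rw [hij]
      · have h2 := tv_asymm h t hij
        rw [h0, h0, inner_zero_left, inner_zero_left, Complex.zero_re, sub_self] at h2
        rcases mul_eq_zero.1 h2.symm with h3 | h3
        · exfalso
          have : (0 : ℝ) < (d : ℝ) / ((d : ℝ) + 1) ^ 2 := by positivity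
          linarith
        · linarith
    have hne : Nonempty ι := by
      rw [← Fintype.card_pos_iff, h.card]
      have := h.pos
      positivity
    obtain ⟨i₀⟩ := hne
    refine ⟨t i₀, ?_⟩
    funext i
    simp [h1 i i₀]
  · rintro ⟨c, rfl⟩
    ext i k
    have h2 : tv x (c • fun _ : ι => (1 : ℝ)) i = 0 := by
      rw [tv_smul, tv]
      simp [sum_tu h]
    rw [tvL_apply, h2]; rfl

theorem finrank_FF (h : IsSic x) : finrank ℝ (LinearMap.range (tvL x)) + 1 = d ^ 2 := by
  have h1 := LinearMap.finrank_range_add_finrank_ker (tvL x)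
  have hne : Nonempty ι := by
    rw [← Fintype.card_pos_iff, h.card]
    have := h.pos
    positivity
  have h2 : finrank ℝ (LinearMap.ker (tvL x)) = 1 := by
    rw [ker_tvL h]
    apply finrank_span_singleton
    intro h3
    obtain ⟨i₀⟩ := hne
    have := congrFun h3 i₀
    simp at this
  rw [h2, Module.finrank_fintype_fun_eq_card, h.card] at h1
  exact h1

theorem finrank_DD (h : IsSic x) (hd2 : 2 ≤ d) :
    finrank ℝ (DD x) ≤ 3 * (d - 1) ^ 2 := by
  have hd := h.dR
  have hd2' : (2 : ℝ) ≤ d := by exact_mod_cast hd2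
  have hd1 : (0 : ℝ) < (d : ℝ) - 1 := by linarith
  set bD := stdOrthonormalBasis ℝ (DD x) with hbD
  set bF := stdOrthonormalBasis ℝ (LinearMap.range (tvL x)) with hbF
  set g : Fin (finrank ℝ (DD x)) ⊕ Fin (finrank ℝ (LinearMap.range (tvL x))) →
      PiLp 2 (fun _ : ι => EuclideanSpace ℂ (Fin d)) :=
    Sum.elim (fun a => (bD a : PiLp 2 (fun _ : ι => EuclideanSpace ℂ (Fin d))))
      (fun a => (bF a : PiLp 2 (fun _ : ι => EuclideanSpace ℂ (Fin d)))) with hg
  set lam : Fin (finrank ℝ (DD x)) ⊕ Fin (finrank ℝ (LinearMap.range (tvL x))) → ℝ :=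
    Sum.elim (fun _ => -1) (fun _ => ((d : ℝ) - 1) / (d + 1)) with hlam
  have horth : ∀ (v w : PiLp 2 (fun _ : ι => EuclideanSpace ℂ (Fin d))), v ∈ DD x →
      w ∈ LinearMap.range (tvL x) → ⟪v, w⟫_ℝ = 0 := by
    rintro v w hv ⟨t, rfl⟩
    rw [real_inner_V]
    exact orth_tv h hv.1 hv.2 t
  have hgo : Orthonormal ℝ g := by
    constructor
    · rintro (a | a)
      · have := bD.orthonormal.1 a
        exact this
      · have := bF.orthonormal.1 a
        exact this
    · rintro (a | a) (b | b) hab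
      · have := bD.orthonormal.2 (fun hh => hab (by rw [hh]) : a ≠ b)
        exact this
      · exact horth _ _ (bD a).2 (bF b).2
      · change ⟪(bF a : PiLp 2 (fun _ : ι => EuclideanSpace ℂ (Fin d))),
          (bD b : PiLp 2 (fun _ : ι => EuclideanSpace ℂ (Fin d)))⟫_ℝ = 0
        rw [real_inner_comm]
        exact horth _ _ (bD b).2 (bF a).2
      · have := bF.orthonormal.2 (fun hh => hab (by rw [hh]) : a ≠ b)
        exact this
  have hl : ∀ a, Eig x (lam a) (g a) := by
    rintro (a | a)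
    · exact eig_of_skew h (bD a).2.1 (bD a).2.2
    · obtain ⟨t, ht⟩ := (bF a).2
      change Eig x _ ((bF a : PiLp 2 (fun _ : ι => EuclideanSpace ℂ (Fin d))))
      rw [← ht]
      exact eig_tv h t
  have hb := bessel h hgo hl (1 / ((d : ℝ) - 1))
  rw [Fintype.sum_sum_type] at hb
  simp only [hlam, Sum.elim_inl, Sum.elim_inr, Finset.sum_const, Finset.card_univ,
    Fintype.card_fin, nsmul_eq_mul] at hb
  have hF : (finrank ℝ (LinearMap.range (tvL x)) : ℝ) = (d : ℝ) ^ 2 - 1 := by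
    have := finrank_FF h
    have h2 : ((finrank ℝ (LinearMap.range (tvL x)) + 1 : ℕ) : ℝ) = ((d ^ 2 : ℕ) : ℝ) := by
      rw [this]
    push_cast at h2
    linarith
  rw [hF] at hb
  set k : ℝ := (finrank ℝ (DD x) : ℝ) with hk
  have hd3 : (d : ℝ) - 1 ≠ 0 := hd1.ne'
  have hid : (d : ℝ) ^ 2 * ((d : ℝ) ^ 2 - 1) *
      (4 / ((d : ℝ) + 1) ^ 2 + 2 * (1 / ((d : ℝ) - 1)) ^ 2 / ((d : ℝ) + 1)) -
      ((d : ℝ) ^ 2 - 1) * (((d : ℝ) - 1) / (d + 1) - 1 / ((d : ℝ) - 1)) ^ 2 = 3 * (d : ℝ) ^ 2 := by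
    field_simp
    ring
  have hk1 : k * (-1 - 1 / ((d : ℝ) - 1)) ^ 2 = (d : ℝ) ^ 2 * (k / ((d : ℝ) - 1) ^ 2) := by
    field_simp
    ring
  have hk2 : (d : ℝ) ^ 2 * (k / ((d : ℝ) - 1) ^ 2) ≤ (d : ℝ) ^ 2 * 3 := by
    rw [← hk1]; linarith
  have hk3 := le_of_mul_le_mul_left hk2 (by positivity)
  rw [div_le_iff₀ (by positivity)] at hk3
  have hk4 : ((finrank ℝ (DD x) : ℕ) : ℝ) ≤ ((3 * (d - 1) ^ 2 : ℕ) : ℝ) := by
    rw [Nat.cast_mul, Nat.cast_pow, Nat.cast_sub (by omega)]
    push_cast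
    exact hk3
  exact_mod_cast hk4

end Pool.Agent.K7.H13.Def
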