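import Mathlib
import Pool.Agent.K7.H13.DefRank

/-!
# Skew operators in terms of a maximal equiangular tight frame
-/

set_option autoImplicit false

namespace Pool.Agent.K7.H13.Def

open scoped InnerProductSpace ComplexConjugate
open Finset Module Pool.Agent.K7.H13.Iso

variable {d : ℕ} {ι : Type*} [Fintype ι]
variable {x : ι → EuclideanSpace ℂ (Fin d)}

/-- the trace of an operator -/
noncomputable def trc (A : EuclideanSpace ℂ (Fin d) →ₗ[ℂ] EuclideanSpace ℂ (Fin d)) : ℂ :=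
  ∑ l, ⟪EuclideanSpace.basisFun (Fin d) ℂ l, A (EuclideanSpace.basisFun (Fin d) ℂ l)⟫_ℂ

theorem expand_inner (A : EuclideanSpace ℂ (Fin d) →ₗ[ℂ] EuclideanSpace ℂ (Fin d))
    (u v : EuclideanSpace ℂ (Fin d)) :
    ⟪u, A v⟫_ℂ = ∑ l, ⟪EuclideanSpace.basisFun (Fin d) ℂ l, v⟫_ℂ *
      ⟪u, A (EuclideanSpace.basisFun (Fin d) ℂ l)⟫_ℂ := by
  conv_lhs => rw [← (EuclideanSpace.basisFun (Fin d) ℂ).sum_repr' v, map_sum, inner_sum]
  apply Finset.sum_congr rfl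
  intro l _
  rw [map_smul, inner_smul_right]

/-- the diagonal of an operator determines the operator -/
theorem operator_expand (h : IsSic x)
    (A : EuclideanSpace ℂ (Fin d) →ₗ[ℂ] EuclideanSpace ℂ (Fin d))
    (u v : EuclideanSpace ℂ (Fin d)) :
    ∑ j, (⟪u, x j⟫_ℂ * ⟪x j, v⟫_ℂ) * ⟪x j, A (x j)⟫_ℂ =
      ((d : ℂ) / (d + 1)) * (⟪u, A v⟫_ℂ + ⟪u, v⟫_ℂ * trc A) := by
  have h1 : ∀ j, (⟪u, x j⟫_ℂ * ⟪x j, v⟫_ℂ) * ⟪x j, A (x j)⟫_ℂ =
      ∑ l, (⟪u, x j⟫_ℂ * ⟪x j, v⟫_ℂ) * (⟪EuclideanSpace.basisFun (Fin d) ℂ l, x j⟫_ℂ *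
      ⟪x j, A (EuclideanSpace.basisFun (Fin d) ℂ l)⟫_ℂ) := by
    intro j
    rw [expand_inner A (x j) (x j), Finset.mul_sum]
  rw [Finset.sum_congr rfl fun j _ => h1 j, Finset.sum_comm,
    Finset.sum_congr rfl fun l _ => h.design u v _ _, ← Finset.mul_sum, Finset.sum_add_distrib]
  congr 1
  rw [expand_inner A u v, trc, Finset.mul_sum]
  congr 1
  apply Finset.sum_congr rfl
  intro l _
  ring

theorem skew_im {A : EuclideanSpace ℂ (Fin d) →ₗ[ℂ] EuclideanSpace ℂ (Fin d)}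
    (hA : ∀ y z, ⟪A y, z⟫_ℂ = -⟪y, A z⟫_ℂ) (y : EuclideanSpace ℂ (Fin d)) :
    ⟪y, A y⟫_ℂ = ((⟪y, A y⟫_ℂ).im : ℂ) * Complex.I := by
  have h1 := hA y y
  rw [← inner_conj_symm] at h1
  have h2 : (⟪y, A y⟫_ℂ).re = 0 := by
    have := congrArg Complex.re h1
    rw [Complex.conj_re, Complex.neg_re] at this
    linarith
  apply Complex.ext
  · simp [h2]
  · simp

variable [DecidableEq ι]

/-- a skew operator applied to a member of the frame -/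
theorem skew_apply (h : IsSic x)
    {A : EuclideanSpace ℂ (Fin d) →ₗ[ℂ] EuclideanSpace ℂ (Fin d)}
    (hA : ∀ y z, ⟪A y, z⟫_ℂ = -⟪y, A z⟫_ℂ) :
    ∃ (t s : ι → ℝ), ∀ i, A (x i) = Complex.I • tv x t i + ((s i : ℂ) * Complex.I) • x i := by
  have hd := h.dR
  have hdc : (d : ℂ) ≠ 0 := by exact_mod_cast h.pos.ne'
  have hd1 : (d : ℂ) + 1 ≠ 0 := by exact_mod_cast Nat.succ_ne_zero d
  set t : ι → ℝ := fun j => (d + 1) / d * (⟪x j, A (x j)⟫_ℂ).im with ht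
  set τ : ℝ := ∑ l, (⟪EuclideanSpace.basisFun (Fin d) ℂ l,
    A (EuclideanSpace.basisFun (Fin d) ℂ l)⟫_ℂ).im with hτ
  have htr : trc A = (τ : ℂ) * Complex.I := by
    rw [trc, hτ, Complex.ofReal_sum, Finset.sum_mul]
    exact Finset.sum_congr rfl fun l _ => skew_im hA _
  refine ⟨t, fun i => t i + 1 / (d + 1) * ∑ k ∈ univ.erase i, t k - τ, fun i => ?_⟩
  apply ext_inner_left ℂ
  intro u
  have h1 := operator_expand h A u (x i)
  have h2 : ∀ j, (⟪u, x j⟫_ℂ * ⟪x j, x i⟫_ℂ) * ⟪x j, A (x j)⟫_ℂ =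
      ((d : ℂ) / (d + 1)) * (Complex.I * ((t j : ℂ) * (⟪u, x j⟫_ℂ * ⟪x j, x i⟫_ℂ))) := by
    intro j
    rw [skew_im hA (x j), ht]
    push_cast
    field_simp
  rw [Finset.sum_congr rfl fun j _ => h2 j, ← Finset.mul_sum, ← Finset.mul_sum, htr] at h1
  have hdd : (d : ℂ) / (d + 1) ≠ 0 := div_ne_zero hdc hd1
  have h3 := mul_left_cancel₀ hdd h1
  have h4 : ⟪u, tv x t i⟫_ℂ = ∑ j, (t j : ℂ) * (⟪u, x j⟫_ℂ * ⟪x j, x i⟫_ℂ) -
      ((t i + 1 / (d + 1) * ∑ k ∈ univ.erase i, t k : ℝ) : ℂ) * ⟪u, x i⟫_ℂ := by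
    rw [tv, inner_sum, ← Finset.sum_erase_add univ _ (Finset.mem_univ i), tu_self, smul_zero,
      inner_zero_right, add_zero,
      ← Finset.sum_erase_add univ (fun j => (t j : ℂ) * (⟪u, x j⟫_ℂ * ⟪x j, x i⟫_ℂ))
        (Finset.mem_univ i), inner_self_one (h.nrm i)]
    have h5 : ∀ k ∈ univ.erase i, ⟪u, ((t k : ℝ) : ℂ) • tu x i k⟫_ℂ =
        (t k : ℂ) * (⟪u, x k⟫_ℂ * ⟪x k, x i⟫_ℂ) -
          (1 / ((d : ℂ) + 1)) * ⟪u, x i⟫_ℂ * (t k : ℂ) := by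
      intro k hk
      rw [inner_smul_right, tu_ne (Finset.mem_erase.1 hk).1, inner_sub_right, inner_smul_right,
        inner_smul_right]
      ring
    rw [Finset.sum_congr rfl h5, Finset.sum_sub_distrib, ← Finset.mul_sum]
    push_cast
    ring
  rw [inner_add_right, inner_smul_right, inner_smul_right, h4]
  push_cast at h3 ⊢
  linear_combination -h3

end Pool.Agent.K7.H13.Def
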