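import Mathlib

/-!
# Large systems of unit vectors with exactly the angle of a maximal equiangular tight frame
-/

set_option autoImplicit false

namespace Pool.Agent.K7.H13.Exact

open scoped InnerProductSpace ComplexConjugate
open Finset

variable {F : Type} [Field F] [Fintype F] [DecidableEq F]

theorem sum_char {ψ : AddChar F ℂ} (hψ : ψ.IsPrimitive) (b : F) :
    ∑ y : F, ψ (y * b) = if b = 0 then (Fintype.card F : ℂ) else 0 := by
  have h := AddChar.sum_mulShift (R := F) (R' := ℂ) (ψ := ψ) b hψ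
  rw [h]
  split_ifs <;> simp

omit [DecidableEq F] in
theorem conj_char (ψ : AddChar F ℂ) (a : F) : conj (ψ a) = ψ (-a) := by
  rw [AddChar.map_neg_eq_conj]

theorem gauss_norm {ψ : AddChar F ℂ} (hψ : ψ.IsPrimitive) (h2 : (2 : F) ≠ 0) {a : F}
    (ha : a ≠ 0) (c : F) :
    ‖∑ x : F, ψ (a * x ^ 2 + c * x)‖ = Real.sqrt (Fintype.card F) := by
  set S := ∑ x : F, ψ (a * x ^ 2 + c * x) with hS
  have h1 : ((‖S‖ ^ 2 : ℝ) : ℂ) = Fintype.card F := by
    have h3 : ((‖S‖ ^ 2 : ℝ) : ℂ) = S * conj S := by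
      rw [RCLike.mul_conj]
      push_cast
      rfl
    rw [h3, hS, map_sum, Finset.sum_mul_sum]
    have h4 : ∀ x y : F, ψ (a * x ^ 2 + c * x) * conj (ψ (a * y ^ 2 + c * y)) =
        ψ (a * (x ^ 2 - y ^ 2) + c * (x - y)) := by
      intro x y
      rw [conj_char, ← AddChar.map_add_eq_mul]
      congr 1
      ring
    simp only [h4]
    rw [Finset.sum_comm]
    have h5 : ∀ y : F, ∑ x : F, ψ (a * (x ^ 2 - y ^ 2) + c * (x - y)) =
        ∑ h : F, ψ (a * h ^ 2 + c * h) * ψ (y * (2 * a * h)) := by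
      intro y
      rw [← Equiv.sum_comp (Equiv.addRight y)]
      apply Finset.sum_congr rfl
      intro h _
      rw [← AddChar.map_add_eq_mul]
      congr 1
      simp only [Equiv.coe_addRight]
      ring
    rw [Finset.sum_congr rfl fun y _ => h5 y, Finset.sum_comm]
    have h6 : ∀ h : F, ∑ y : F, ψ (a * h ^ 2 + c * h) * ψ (y * (2 * a * h)) =
        if h = 0 then (Fintype.card F : ℂ) else 0 := by
      intro h
      rw [← Finset.mul_sum, sum_char hψ]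
      by_cases hh : h = 0
      · rw [if_pos hh, hh]
        simp
      · rw [if_neg hh, if_neg (mul_ne_zero (mul_ne_zero h2 ha) hh), mul_zero]
    rw [Finset.sum_congr rfl fun h _ => h6 h, Finset.sum_ite_eq' univ (0 : F),
      if_pos (Finset.mem_univ _)]
  have h7 : ‖S‖ ^ 2 = Fintype.card F := by exact_mod_cast h1
  rw [← h7, Real.sqrt_sq (norm_nonneg _)]

/-- the vector of quadratic phases -/
noncomputable def qv (ψ : AddChar F ℂ) (b c : F) : EuclideanSpace ℂ F :=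
  WithLp.toLp 2 fun x => ((1 / Real.sqrt (Fintype.card F) : ℝ) : ℂ) * ψ (b * x ^ 2 + c * x)

theorem qv_inner (ψ : AddChar F ℂ) (b c b' c' : F) :
    ⟪qv ψ b c, qv ψ b' c'⟫_ℂ =
      (1 / (Fintype.card F : ℂ)) * ∑ x : F, ψ ((b' - b) * x ^ 2 + (c' - c) * x) := by
  have hq0 : (0 : ℝ) < Fintype.card F := by exact_mod_cast Fintype.card_pos
  rw [PiLp.inner_apply, Finset.mul_sum]
  apply Finset.sum_congr rfl
  intro x _
  simp only [qv, RCLike.inner_apply, map_mul, Complex.conj_ofReal, conj_char]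
  have h1 : ψ ((b' - b) * x ^ 2 + (c' - c) * x) =
      ψ (b' * x ^ 2 + c' * x) * ψ (-(b * x ^ 2 + c * x)) := by
    rw [← AddChar.map_add_eq_mul]
    congr 1
    ring
  have h2 : ((1 / Real.sqrt (Fintype.card F) : ℝ) : ℂ) *
      ((1 / Real.sqrt (Fintype.card F) : ℝ) : ℂ) = 1 / (Fintype.card F : ℂ) := by
    rw [← Complex.ofReal_mul, div_mul_div_comm, Real.mul_self_sqrt hq0.le]
    push_cast
    ring
  rw [h1]
  linear_combination (ψ (b' * x ^ 2 + c' * x) * ψ (-(b * x ^ 2 + c * x))) * h2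

theorem qv_inner_self (ψ : AddChar F ℂ) (b c : F) : ⟪qv ψ b c, qv ψ b c⟫_ℂ = 1 := by
  have hq0 : (Fintype.card F : ℂ) ≠ 0 := by exact_mod_cast Fintype.card_ne_zero
  rw [qv_inner]
  simp

theorem qv_inner_same {ψ : AddChar F ℂ} (hψ : ψ.IsPrimitive) (b : F) {c c' : F} (h : c ≠ c') :
    ⟪qv ψ b c, qv ψ b c'⟫_ℂ = 0 := by
  rw [qv_inner]
  have h1 := sum_char hψ (c' - c)
  rw [if_neg (sub_ne_zero.2 h.symm)] at h1
  have h2 : ∑ x : F, ψ ((b - b) * x ^ 2 + (c' - c) * x) = ∑ y : F, ψ (y * (c' - c)) := by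
    apply Finset.sum_congr rfl
    intro x _
    congr 1
    ring
  rw [h2, h1, mul_zero]

theorem qv_inner_diff {ψ : AddChar F ℂ} (hψ : ψ.IsPrimitive) (h2 : (2 : F) ≠ 0) {b b' : F}
    (h : b ≠ b') (c c' : F) :
    ‖⟪qv ψ b c, qv ψ b' c'⟫_ℂ‖ = 1 / Real.sqrt (Fintype.card F) := by
  have hq0 : (0 : ℝ) < Fintype.card F := by exact_mod_cast Fintype.card_pos
  rw [qv_inner, norm_mul, gauss_norm hψ h2 (sub_ne_zero.2 h.symm), norm_div, norm_one,
    Complex.norm_natCast]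
  have h3 : Real.sqrt (Fintype.card F) * Real.sqrt (Fintype.card F) = Fintype.card F :=
    Real.mul_self_sqrt hq0.le
  have h4 : 0 < Real.sqrt (Fintype.card F) := Real.sqrt_pos.2 hq0
  field_simp
  nlinarith

/-- the vectors -/
noncomputable def xx (ψ : AddChar F ℂ) (t : ℝ) {m : ℕ} (B : Fin m → F) (p : Fin m × F) :
    EuclideanSpace ℂ (F ⊕ Fin m) :=
  WithLp.toLp 2 (Sum.elim (fun x => ((Real.sqrt t : ℝ) : ℂ) * qv ψ (B p.1) p.2 x)
    (fun k => if p.1 = k then ((Real.sqrt (1 - t) : ℝ) : ℂ) else 0))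

theorem xx_inner (ψ : AddChar F ℂ) {t : ℝ} (h0 : 0 ≤ t) (h1 : t ≤ 1) {m : ℕ} (B : Fin m → F)
    (p p' : Fin m × F) :
    ⟪xx ψ t B p, xx ψ t B p'⟫_ℂ = (t : ℂ) * ⟪qv ψ (B p.1) p.2, qv ψ (B p'.1) p'.2⟫_ℂ +
      if p.1 = p'.1 then (((1 - t : ℝ)) : ℂ) else 0 := by
  rw [PiLp.inner_apply, Fintype.sum_sum_type]
  congr 1
  · rw [PiLp.inner_apply, Finset.mul_sum]
    apply Finset.sum_congr rfl
    intro x _
    simp only [xx, RCLike.inner_apply, Sum.elim_inl, map_mul, Complex.conj_ofReal]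
    have h2 : ((Real.sqrt t : ℝ) : ℂ) * ((Real.sqrt t : ℝ) : ℂ) = (t : ℂ) := by
      rw [← Complex.ofReal_mul, Real.mul_self_sqrt h0]
    linear_combination (qv ψ (B p'.1) p'.2 x * conj (qv ψ (B p.1) p.2 x)) * h2
  · have h2 : ((Real.sqrt (1 - t) : ℝ) : ℂ) * ((Real.sqrt (1 - t) : ℝ) : ℂ) =
        ((1 - t : ℝ) : ℂ) := by
      rw [← Complex.ofReal_mul, Real.mul_self_sqrt (by linarith)]
    have h3 : ∀ k : Fin m, ⟪(xx ψ t B p).ofLp (Sum.inr k), (xx ψ t B p').ofLp (Sum.inr k)⟫_ℂ =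
        if k = p.1 then (if p.1 = p'.1 then (((1 - t : ℝ)) : ℂ) else 0) else 0 := by
      intro k
      simp only [xx, RCLike.inner_apply, Sum.elim_inr]
      by_cases hk : k = p.1
      · rw [if_pos hk, if_pos hk.symm, Complex.conj_ofReal]
        by_cases hc : p.1 = p'.1
        · rw [if_pos hc, if_pos (by rw [hk, hc]), h2]
        · rw [if_neg hc, if_neg (fun hh => hc (by rw [hh, hk])), zero_mul]
      · have hk2 : ¬ p.1 = k := fun hh => hk hh.symm
        rw [if_neg hk, if_neg hk2, map_zero, mul_zero]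
    rw [Finset.sum_congr rfl fun k _ => h3 k, Finset.sum_ite_eq' univ p.1,
      if_pos (Finset.mem_univ _)]

theorem xx_norm (ψ : AddChar F ℂ) {t : ℝ} (h0 : 0 ≤ t) (h1 : t ≤ 1) {m : ℕ} (B : Fin m → F)
    (p : Fin m × F) : ‖xx ψ t B p‖ = 1 := by
  have h2 := xx_inner ψ h0 h1 B p p
  rw [if_pos rfl, qv_inner_self, mul_one, inner_self_eq_norm_sq_to_K] at h2
  have h3 : ((‖xx ψ t B p‖ ^ 2 : ℝ) : ℂ) = ((1 : ℝ) : ℂ) := by
    push_cast at h2 ⊢
    rw [← Complex.coe_algebraMap, h2]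
    ring
  have h4 : ‖xx ψ t B p‖ ^ 2 = 1 := by exact_mod_cast h3
  have h5 : 0 ≤ ‖xx ψ t B p‖ := norm_nonneg _
  nlinarith

/-- the exact angle, if the field has `s ^ 2` elements -/
theorem xx_angle {ψ : AddChar F ℂ} (hψ : ψ.IsPrimitive) (h2 : (2 : F) ≠ 0) {s : ℕ}
    (hs : Fintype.card F = s ^ 2) {m : ℕ} {B : Fin m → F} (hB : Function.Injective B)
    {p p' : Fin m × F} (h : p ≠ p') :
    ‖⟪xx ψ ((s : ℝ) / (s + 1)) B p, xx ψ ((s : ℝ) / (s + 1)) B p'⟫_ℂ‖ = 1 / ((s : ℝ) + 1) := by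
  have hs0 : (0 : ℝ) ≤ s := by positivity
  have h0 : 0 ≤ (s : ℝ) / (s + 1) := by positivity
  have h1 : (s : ℝ) / (s + 1) ≤ 1 := by
    rw [div_le_one (by positivity)]; linarith
  have hspos : 0 < s := by
    rcases Nat.eq_zero_or_pos s with h3 | h3
    · exfalso
      rw [h3] at hs
      have := Fintype.card_pos (α := F)
      omega
    · exact h3
  have hsR : (0 : ℝ) < s := by exact_mod_cast hspos
  rw [xx_inner ψ h0 h1]
  by_cases hp : p.1 = p'.1
  · have hc : p.2 ≠ p'.2 := fun hh => h (Prod.ext hp hh)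
    rw [if_pos hp, hp, qv_inner_same hψ _ hc, mul_zero, zero_add, Complex.norm_real,
      Real.norm_eq_abs, abs_of_nonneg (by linarith)]
    field_simp
    ring
  · rw [if_neg hp, add_zero, norm_mul, qv_inner_diff hψ h2 (fun hh => hp (hB hh)),
      Complex.norm_real, Real.norm_eq_abs, abs_of_nonneg h0, hs]
    have : Real.sqrt ((s ^ 2 : ℕ) : ℝ) = s := by
      push_cast
      exact Real.sqrt_sq hs0
    rw [this]
    field_simp

theorem system {ψ : AddChar F ℂ} (hψ : ψ.IsPrimitive) (h2 : (2 : F) ≠ 0) {s : ℕ}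
    (hs : Fintype.card F = s ^ 2) (hs2 : 2 ≤ s) :
    ∃ x : Fin (2 * s ^ 3) → EuclideanSpace ℂ (Fin (s ^ 2 + 2 * s)), (∀ i, ‖x i‖ = 1) ∧
      ∀ i j, i ≠ j → ‖⟪x i, x j⟫_ℂ‖ = 1 / Real.sqrt (((s ^ 2 + 2 * s : ℕ) : ℝ) + 1) := by
  have hle : Fintype.card (Fin (2 * s)) ≤ Fintype.card F := by
    rw [Fintype.card_fin, hs]
    nlinarith
  obtain ⟨B⟩ : Nonempty (Fin (2 * s) ↪ F) := Function.Embedding.nonempty_of_card_le hle
  have hcard : Fintype.card (F ⊕ Fin (2 * s)) = s ^ 2 + 2 * s := by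
    rw [Fintype.card_sum, hs, Fintype.card_fin]
  let e : F ⊕ Fin (2 * s) ≃ Fin (s ^ 2 + 2 * s) := Fintype.equivFinOfCardEq hcard
  have hcard2 : Fintype.card (Fin (2 * s) × F) = 2 * s ^ 3 := by
    rw [Fintype.card_prod, hs, Fintype.card_fin]
    ring
  let f : Fin (2 * s) × F ≃ Fin (2 * s ^ 3) := Fintype.equivFinOfCardEq hcard2
  let L := LinearIsometryEquiv.piLpCongrLeft 2 ℂ ℂ e
  have hs0 : (0 : ℝ) ≤ s := by positivity
  have h0 : 0 ≤ (s : ℝ) / (s + 1) := by positivity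
  have h1 : (s : ℝ) / (s + 1) ≤ 1 := by
    rw [div_le_one (by positivity)]; linarith
  refine ⟨fun i => L (xx ψ ((s : ℝ) / (s + 1)) B (f.symm i)), fun i => ?_, fun i j hij => ?_⟩
  · rw [LinearIsometryEquiv.norm_map, xx_norm ψ h0 h1]
  · have hne : f.symm i ≠ f.symm j := fun hh => hij (f.symm.injective hh)
    rw [LinearIsometryEquiv.inner_map_map, xx_angle hψ h2 hs B.injective hne]
    have h3 : ((s ^ 2 + 2 * s : ℕ) : ℝ) + 1 = ((s : ℝ) + 1) ^ 2 := by
      push_cast; ring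
    rw [h3, Real.sqrt_sq (by linarith)]

omit [Fintype F] [DecidableEq F] in
theorem exists_prim [Finite F] (p : ℕ) [Fact p.Prime] [CharP F p] :
    ∃ ψ : AddChar F ℂ, ψ.IsPrimitive := by
  obtain rfl : ringChar F = p := ringChar.eq F p
  have : Algebra (ZMod (ringChar F)) F := ZMod.algebra F (ringChar F)
  let ψ : AddChar F ℂ := (ZMod.stdAddChar (N := ringChar F)).compAddMonoidHom
    (Algebra.trace (ZMod (ringChar F)) F).toAddMonoidHom
  refine ⟨ψ, fun a ha => ?_⟩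
  obtain ⟨b, hb⟩ := FiniteField.trace_to_zmod_nondegenerate F ha
  rw [AddChar.ne_one_iff]
  refine ⟨b, fun h => hb ?_⟩
  have h1 : (ZMod.stdAddChar (Algebra.trace (ZMod (ringChar F)) F (a * b)) : ℂ) = 1 := h
  have h2 : (ZMod.stdAddChar (Algebra.trace (ZMod (ringChar F)) F (a * b)) : ℂ) =
      ZMod.stdAddChar (0 : ZMod (ringChar F)) := by
    rw [h1, AddChar.map_zero_eq_one]
  exact ZMod.injective_stdAddChar h2

theorem main (p k : ℕ) (hp : p.Prime) (hp2 : p ≠ 2) (hk : k ≠ 0) :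
    ∃ x : Fin (2 * (p ^ k) ^ 3) → EuclideanSpace ℂ (Fin ((p ^ k) ^ 2 + 2 * p ^ k)),
      (∀ i, ‖x i‖ = 1) ∧ ∀ i j, i ≠ j → ‖⟪x i, x j⟫_ℂ‖ =
        1 / Real.sqrt ((((p ^ k) ^ 2 + 2 * p ^ k : ℕ) : ℝ) + 1) := by
  classical
  have : Fact p.Prime := ⟨hp⟩
  have hfin : Finite (GaloisField p (2 * k)) := inferInstance
  have : Fintype (GaloisField p (2 * k)) := Fintype.ofFinite _
  obtain ⟨ψ, hψ⟩ := exists_prim (F := GaloisField p (2 * k)) p
  have hcard : Fintype.card (GaloisField p (2 * k)) = (p ^ k) ^ 2 := by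
    rw [← Nat.card_eq_fintype_card, GaloisField.card p (2 * k) (by omega)]
    ring
  have h2 : (2 : GaloisField p (2 * k)) ≠ 0 := by
    intro h
    have h3 : ((2 : ℕ) : GaloisField p (2 * k)) = 0 := by exact_mod_cast h
    rw [CharP.cast_eq_zero_iff _ p] at h3
    have := (Nat.prime_dvd_prime_iff_eq hp Nat.prime_two).1 h3
    exact hp2 this
  refine system hψ h2 hcard ?_
  calc 2 ≤ p := hp.two_le
    _ = p ^ 1 := (pow_one p).symm
    _ ≤ p ^ k := Nat.pow_le_pow_right hp.pos (by omega)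

end Pool.Agent.K7.H13.Exact
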