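import Pool.Agent.K7.H84.GG.Stm

set_option autoImplicit false

/-! Project GG, job S6. -/

namespace Pool.Agent.K7.H13.GGS6

open Finset DC813 Pool.Agent.K7.H84.GG

/-- closure is monotone -/
theorem cl_mono {α : Type} [DecidableEq α] {r : Finset α → ℕ} (hr : IsRk r) {A B : Finset α} {e : α}
    (hAB : A ⊆ B) (h : r (insert e A) = r A) : r (insert e B) = r B := by
  have h1 := hr.submod (insert e A) B
  have h2 : insert e A ∪ B = insert e B := by
    rw [Finset.insert_union, Finset.union_eq_right.2 hAB]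
  have h3 : r A ≤ r (insert e A ∩ B) :=
    hr.mono _ _ (Finset.subset_inter (Finset.subset_insert _ _) hAB)
  rw [h2] at h1
  have h4 := hr.mono B (insert e B) (Finset.subset_insert _ _)
  omega

/-- if `r (X ∪ L) = r X + 1`, `e ∈ L` and `r X < r (insert e X)` then `L` is in the closure of
`insert e X` -/
theorem in_cl {α : Type} [DecidableEq α] {r : Finset α → ℕ} (hr : IsRk r) {X L : Finset α} {e q : α}
    (h1 : r (X ∪ L) = r X + 1) (he : e ∈ L) (hq : q ∈ L) (h2 : r X < r (insert e X)) {F : Finset α}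
    (hF : insert e X ⊆ F) : r (insert q F) = r F := by
  apply cl_mono hr hF
  apply le_antisymm
  · have h3 : insert q (insert e X) ⊆ X ∪ L := by
      intro x hx
      rw [Finset.mem_insert, Finset.mem_insert] at hx
      rw [Finset.mem_union]
      rcases hx with rfl | rfl | hx
      · exact Or.inr hq
      · exact Or.inr he
      · exact Or.inl hx
    have h4 := hr.mono _ _ h3
    omega
  · exact hr.mono _ _ (Finset.subset_insert _ _)

theorem mem_fl {α : Type} [DecidableEq α] {r : Finset α → ℕ} {E F : Finset α} :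
    F ∈ fl r E ↔ F ⊆ E ∧ ∀ e ∈ E, e ∉ F → r F < r (insert e F) := by
  unfold fl
  rw [Finset.mem_filter, Finset.mem_powerset]

/-- STEP 6, disjointness -/
theorem s6d : StS6d := by
  intro α _ r E L p X H hC hX hH hXH
  unfold XX at hX
  rw [Finset.mem_filter] at hX
  obtain ⟨hXf, hXn, hXd, hXr⟩ := hX
  unfold hy at hH
  rw [Finset.mem_filter] at hH
  obtain ⟨hHf, hHr, hpH⟩ := hH
  rw [Finset.disjoint_left]
  intro e heH heL
  have heX : e ∉ X := fun h => (Finset.disjoint_left.1 hXd) h heL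
  have h1 := (mem_fl.1 hXf).2 e ((mem_fl.1 hHf).1 heH) heX
  have h2 := in_cl hC.hr hXr heL hC.hpL h1 (F := H) (by
    intro x hx
    rcases Finset.mem_insert.1 hx with rfl | hx
    · exact heH
    · exact hXH hx)
  have h3 := (mem_fl.1 hHf).2 p hC.hp hpH
  omega

/-- STEP 6 -/
theorem s6 (hCON : StCON) (hFLC : StFLC) : StS6 := by
  intro α _ r E L p f X hC hIH hf hX
  have hX0 := hX
  unfold XX at hX
  rw [Finset.mem_filter] at hX
  obtain ⟨hXf, hXn, hXd, hXr⟩ := hX
  have hXE := (mem_fl.1 hXf).1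
  have hpX : p ∉ X := fun h => (Finset.disjoint_left.1 hXd) h hC.hpL
  obtain ⟨hsum, hcon, hlp⟩ := hFLC α r E X hC.hr hXf
  have hrX : 0 < r X := by
    obtain ⟨x, hx⟩ := hXn
    exact lt_of_lt_of_le (hC.lp x (hXE hx)) (hC.hr.mono {x} X (Finset.singleton_subset_iff.2 hx))
  have hrXE := hC.hr.mono X E hXE
  have hrE : con r X (E \ X) = r E - r X := by
    unfold con
    rw [Finset.sdiff_union_of_subset hXE]
  have hG := hIH (r E - r X) (by omega) (con r X) (E \ X) p f (hCON α r X hC.hr) hrE hlp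
    (Finset.mem_sdiff.2 ⟨hC.hp, hpX⟩) hf
  unfold GGs at hG
  -- the left side
  have hL : ∑ F ∈ (fl (con r X) (E \ X)).filter (fun F => p ∈ F),
      beta (con r X) F * mc (con r X) (E \ X) F * f ((E \ X) \ F) =
      ∑ F ∈ (fl r E).filter (fun F => X ⊆ F ∧ L ⊆ F),
      beta (con r X) (F \ X) * mc r E F * f (E \ F) := by
    rw [Finset.sum_filter, hsum]
    have h1 : (fl r E).filter (fun F => X ⊆ F ∧ L ⊆ F) =
        ((fl r E).filter (fun F => X ⊆ F)).filter (fun F => p ∈ F) := by
      ext F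
      simp only [Finset.mem_filter]
      constructor
      · rintro ⟨h1, h2, h3⟩
        exact ⟨⟨h1, h2⟩, h3 hC.hpL⟩
      · rintro ⟨⟨h1, h2⟩, h3⟩
        refine ⟨h1, h2, fun q hq => ?_⟩
        by_contra hqF
        have h4 := (mem_fl.1 h1).2 q ((mem_fl.1 hC.hL).1 hq) hqF
        have h5 := in_cl hC.hr hXr hC.hpL hq ((mem_fl.1 hXf).2 p hC.hp hpX) (F := F) (by
          intro x hx
          rcases Finset.mem_insert.1 hx with rfl | hx
          · exact h3
          · exact h2 hx)
        omega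
    conv_rhs => rw [h1, Finset.sum_filter]
    refine Finset.sum_congr rfl fun F hF => ?_
    rw [Finset.mem_filter] at hF
    have h2 : (p ∈ F \ X) ↔ p ∈ F := by
      rw [Finset.mem_sdiff]
      exact ⟨fun h => h.1, fun h => ⟨h, hpX⟩⟩
    have h3 : (E \ X) \ (F \ X) = E \ F := by
      ext x
      simp only [Finset.mem_sdiff]
      have := @hF.2 x
      tauto
    by_cases h4 : p ∈ F
    · rw [if_pos (h2.2 h4), if_pos h4, h3]
      unfold mc
      rw [hcon F hF.2, h3]
    · rw [if_neg (fun h => h4 (h2.1 h)), if_neg h4]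
  -- the right side
  have hR : ∑ H ∈ hy (con r X) (E \ X) p, mu (con r X) H * f H =
      ∑ H ∈ (hy r E p).filter (fun H => X ⊆ H), mc r H X * f (H \ X) := by
    have h1 : (hy r E p).filter (fun H => X ⊆ H) =
        ((fl r E).filter (fun H => X ⊆ H)).filter (fun H => r H + 1 = r E ∧ p ∉ H) := by
      ext H
      simp only [hy, Finset.mem_filter]
      tauto
    conv_rhs => rw [h1, Finset.sum_filter]
    unfold hy
    rw [Finset.sum_filter, hsum]
    refine Finset.sum_congr rfl fun H hH => ?_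
    rw [Finset.mem_filter] at hH
    have h2 : (p ∈ H \ X) ↔ p ∈ H := by
      rw [Finset.mem_sdiff]
      exact ⟨fun h => h.1, fun h => ⟨h, hpX⟩⟩
    have h3 : con r X (H \ X) = r H - r X := by
      unfold con
      rw [Finset.sdiff_union_of_subset hH.2]
    have h4 := hC.hr.mono X H hH.2
    have h5 := hC.hr.mono H E (mem_fl.1 hH.1).1
    have h6 : (con r X (H \ X) + 1 = con r X (E \ X) ∧ p ∉ H \ X) ↔ (r H + 1 = r E ∧ p ∉ H) := by
      rw [h2, h3, hrE]
      constructor
      · rintro ⟨h7, h8⟩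
        exact ⟨by omega, h8⟩
      · rintro ⟨h7, h8⟩
        exact ⟨by omega, h8⟩
    by_cases h7 : r H + 1 = r E ∧ p ∉ H
    · rw [if_pos (h6.2 h7), if_pos h7]
      rfl
    · rw [if_neg (fun h => h7 (h6.1 h)), if_neg h7]
  rw [hL, hR] at hG
  exact hG

theorem t (hCON : StCON) (hFLC : StFLC) : StS6 ∧ StS6d := ⟨s6 hCON hFLC, s6d⟩

end Pool.Agent.K7.H13.GGS6
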