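import Mathlib

/-!
# Induced degree-one subsets of the ternary Hamming graph that meet every line
-/

set_option autoImplicit false

namespace Pool.Agent.K7.H13.Ham

open Function

section gen

variable {n : ℕ} {α : Type} [DecidableEq α]

def HD (V : Set (Fin n → α)) : Prop :=
  ∀ x ∈ V, ∀ (i j : Fin n) (c d : α), c ≠ x i → d ≠ x j → update x i c ∈ V → update x j d ∈ V →
    i = j ∧ c = d

def HL (V : Set (Fin n → α)) : Prop := ∀ (x : Fin n → α) (i : Fin n), ∃ c, update x i c ∈ V

theorem center (h3 : ∀ a c d e : α, c ≠ a → d ≠ a → c ≠ d → e = a ∨ e = c ∨ e = d)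
    (V : Set (Fin n → α)) (hd : HD V) (hl : HL V) (x : Fin n → α) (i : Fin n) (c d : α)
    (hc : c ≠ x i) (hd' : d ≠ x i) (hcd : c ≠ d) (h1 : update x i c ∈ V)
    (h2 : update x i d ∈ V) : ∀ (j : Fin n) (e : α), e ≠ x j → update x j e ∈ V := by
  intro j e he
  by_cases hij : j = i
  · subst hij
    rcases h3 (x j) c d e hc hd' hcd with h | h | h
    · exact absurd h he
    · rw [h]; exact h1
    · rw [h]; exact h2
  obtain ⟨g, hg⟩ := hl (update x j e) i
  have key : ∀ c d : α, c ≠ x i → d ≠ x i → c ≠ d → update x i c ∈ V → update x i d ∈ V →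
      update (update x j e) i c ∉ V := by
    intro c d _ hd1 hcd1 hc1 hd2 hg1
    rw [update_comm hij] at hg1
    have := hd _ hc1 i j d e (by rw [update_self]; exact hcd1.symm)
      (by rw [update_of_ne hij]; exact he) (by rw [update_idem]; exact hd2) hg1
    exact hij this.1.symm
  rcases h3 (x i) c d g hc hd' hcd with h | h | h
  · rw [h] at hg
    have e1 : update (update x j e) i (x i) = update x j e := by
      have : (update x j e) i = x i := update_of_ne (Ne.symm hij) _ _
      rw [← this, update_eq_self]
    rwa [e1] at hg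
  · rw [h] at hg; exact absurd hg (key c d hc hd' hcd h1 h2)
  · rw [h] at hg; exact absurd hg (key d c hd' hc hcd.symm h2 h1)

end gen

section main

variable {n : ℕ} (V : Set (Fin n → Option Bool))

def O : Fin n → Option Bool := fun _ => none

def p2 (i j : Fin n) (a b : Bool) : Fin n → Option Bool :=
  update (update O i (some a)) j (some b)

def p3 (i j k : Fin n) (a b c : Bool) : Fin n → Option Bool := update (p2 i j a b) k (some c)

def p4 (i j k l : Fin n) (a b c d : Bool) : Fin n → Option Bool :=
  update (p3 i j k a b c) l (some d)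

theorem three : ∀ a c d e : Option Bool, c ≠ a → d ≠ a → c ≠ d → e = a ∨ e = c ∨ e = d := by
  decide

variable {V} (hd : HD V) (hl : HL V)
  (h0 : ∀ (i : Fin n) (b : Bool), update (O : Fin n → Option Bool) i (some b) ∈ V)

include hd h0 in
theorem stepB (i j : Fin n) (hij : i ≠ j) (a b : Bool) : p2 i j a b ∉ V := by
  intro h
  have := hd _ (h0 i a) i j (some (!a)) (some b) (by rw [update_self]; simp)
    (by rw [update_of_ne (Ne.symm hij)]; simp [O]) (by rw [update_idem]; exact h0 i (!a)) h
  exact hij this.1

include hd hl h0 in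
theorem toggle (i j k : Fin n) (hij : i ≠ j) (hik : i ≠ k) (hjk : j ≠ k) (a b c : Bool) :
    p3 i j k a b (!c) ∈ V ↔ p3 i j k a b c ∉ V := by
  have hqk : p2 i j a b k = none := by
    unfold p2
    rw [update_of_ne (Ne.symm hjk), update_of_ne (Ne.symm hik)]; rfl
  have hq := stepB hd h0 i j hij a b
  have hle : ¬ (p3 i j k a b c ∈ V ∧ p3 i j k a b (!c) ∈ V) := by
    rintro ⟨h1, h2⟩
    have := center three V hd hl (p2 i j a b) k (some c) (some (!c)) (by rw [hqk]; simp)
      (by rw [hqk]; simp) (by simp) h1 h2 i (some (!a)) (by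
        unfold p2
        rw [update_of_ne hij, update_self]; simp)
    apply stepB hd h0 i j hij (!a) b
    unfold p2 at this ⊢
    rw [update_comm hij, update_idem, update_comm hij.symm] at this
    exact this
  have hge : p3 i j k a b c ∈ V ∨ p3 i j k a b (!c) ∈ V := by
    obtain ⟨g, hg⟩ := hl (p2 i j a b) k
    rcases g with _ | g
    · exfalso
      apply hq
      rw [← hqk, update_eq_self] at hg
      exact hg
    · by_cases hgc : g = c
      · left; rw [hgc] at hg; exact hg
      · right
        have : g = !c := by revert hgc; cases g <;> cases c <;> simp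
        rw [this] at hg; exact hg
  tauto

theorem p3_swap12 (i j k : Fin n) (hij : i ≠ j) (a b c : Bool) :
    p3 i j k a b c = p3 j i k b a c := by
  unfold p3 p2; rw [update_comm hij]

theorem p3_swap23 (i j k : Fin n) (hjk : j ≠ k) (a b c : Bool) :
    p3 i j k a b c = p3 i k j a c b := by
  unfold p3 p2; rw [update_comm hjk]

include hd hl h0 in
theorem sgn (i j k : Fin n) (hij : i ≠ j) (hik : i ≠ k) (hjk : j ≠ k) :
    ∃ s : Bool, ∀ a b c : Bool, p3 i j k a b c ∈ V ↔ (a ^^ (b ^^ c)) = s := by
  have t3 := toggle hd hl h0 i j k hij hik hjk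
  have t2 : ∀ a b c : Bool, p3 i j k a (!b) c ∈ V ↔ p3 i j k a b c ∉ V := by
    intro a b c
    rw [p3_swap23 i j k hjk, p3_swap23 i j k hjk]
    exact toggle hd hl h0 i k j hik hij hjk.symm a c b
  have t1 : ∀ a b c : Bool, p3 i j k (!a) b c ∈ V ↔ p3 i j k a b c ∉ V := by
    intro a b c
    rw [p3_swap12 i j k hij, p3_swap12 i j k hij, p3_swap23 j i k hik, p3_swap23 j i k hik]
    exact toggle hd hl h0 j k i hjk hij.symm hik.symm b c a
  by_cases h : p3 i j k false false false ∈ V
  · refine ⟨false, ?_⟩
    have e1 := t3 false false false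
    have e2 := t2 false false false
    have e3 := t2 false false true
    have e4 := t1 false false false
    have e5 := t1 false false true
    have e6 := t1 false true false
    have e7 := t1 false true true
    simp only [Bool.not_false] at e1 e2 e3 e4 e5 e6 e7
    intro a b c
    cases a <;> cases b <;> cases c <;> simp <;> tauto
  · refine ⟨true, ?_⟩
    have e1 := t3 false false false
    have e2 := t2 false false false
    have e3 := t2 false false true
    have e4 := t1 false false false
    have e5 := t1 false false true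
    have e6 := t1 false true false
    have e7 := t1 false true true
    simp only [Bool.not_false] at e1 e2 e3 e4 e5 e6 e7
    intro a b c
    cases a <;> cases b <;> cases c <;> simp <;> tauto

end main

end Pool.Agent.K7.H13.Ham
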