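import Pool.Agent.K7.H13.HamA

set_option autoImplicit false

namespace Pool.Agent.K7.H13.Ham

open Function

theorem signs : ∀ s1 s2 s3 s4 : Bool, ∃ a b c d : Bool, (a ^^ (b ^^ c)) = s1 ∧
    (a ^^ (b ^^ d)) = s2 ∧ (a ^^ (c ^^ d)) = s3 ∧ (b ^^ (c ^^ d)) = s4 := by
  decide

section main

variable {n : ℕ} {V : Set (Fin n → Option Bool)} (hd : HD V) (hl : HL V)
  (h0 : ∀ (i : Fin n) (b : Bool), update (O : Fin n → Option Bool) i (some b) ∈ V)

include hd hl h0 in
/-- the flip in the last coordinate of the special word -/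
theorem flip (i j k l : Fin n) (hij : i ≠ j) (hik : i ≠ k) (hil : i ≠ l) (hjk : j ≠ k)
    (hjl : j ≠ l) (hkl : k ≠ l) (a b c d : Bool) (h2 : p3 i j l a b d ∈ V)
    (h3 : p3 i k l a c d ∈ V) (h4 : p3 j k l b c d ∈ V) :
    p4 i j k l a b c (!d) ∈ V := by
  by_contra hz
  obtain ⟨s2, e2⟩ := sgn hd hl h0 i j l hij hil hjl
  obtain ⟨s3, e3⟩ := sgn hd hl h0 i k l hik hil hkl
  obtain ⟨s4, e4⟩ := sgn hd hl h0 j k l hjk hjl hkl
  have f2 : p3 i j l a b (!d) ∉ V := by
    rw [e2] at h2 ⊢
    rw [← h2]; cases a <;> cases b <;> cases d <;> decide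
  have f3 : p3 i k l a (!c) (!d) ∈ V := by
    rw [e3] at h3 ⊢
    rw [← h3]; cases a <;> cases c <;> cases d <;> decide
  have f4 : p3 j k l b (!c) (!d) ∈ V := by
    rw [e4] at h4 ⊢
    rw [← h4]; cases b <;> cases c <;> cases d <;> decide
  -- the line in direction `k` through `p3 i j l a b (!d)`
  obtain ⟨g, hg⟩ := hl (p3 i j l a b (!d)) k
  have hqk : p3 i j l a b (!d) k = none := by
    unfold p3 p2
    rw [update_of_ne hkl, update_of_ne (Ne.symm hjk), update_of_ne (Ne.symm hik)]; rfl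
  have ecom : ∀ x : Bool, update (p3 i j l a b (!d)) k (some x) = p4 i j k l a b x (!d) := by
    intro x
    unfold p4 p3
    rw [update_comm hkl]
  have hkey : p4 i j k l a b (!c) (!d) ∈ V := by
    rcases g with _ | g
    · exfalso
      apply f2
      rw [← hqk, update_eq_self] at hg
      exact hg
    · rw [ecom] at hg
      by_cases hgc : g = c
      · rw [hgc] at hg; exact absurd hg hz
      · have : g = !c := by revert hgc; cases g <;> cases c <;> simp
        rw [this] at hg; exact hg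
  -- two neighbours of this word
  have hi : p4 i j k l a b (!c) (!d) i = some a := by
    unfold p4 p3 p2
    rw [update_of_ne hil, update_of_ne hik, update_of_ne hij, update_self]
  have hj : p4 i j k l a b (!c) (!d) j = some b := by
    unfold p4 p3 p2
    rw [update_of_ne hjl, update_of_ne hjk, update_self]
  have ni : update (p4 i j k l a b (!c) (!d)) i none = p3 j k l b (!c) (!d) := by
    unfold p4 p3 p2
    rw [update_comm hil.symm, update_comm hik.symm, update_comm hij.symm, update_idem]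
    congr 3
    funext t
    by_cases ht : t = i
    · subst ht; rw [update_self]; rfl
    · rw [update_of_ne ht]
  have nj : update (p4 i j k l a b (!c) (!d)) j none = p3 i k l a (!c) (!d) := by
    unfold p4 p3 p2
    rw [update_comm hjl.symm, update_comm hjk.symm, update_idem]
    congr 2
    funext t
    by_cases ht : t = j
    · subst ht; rw [update_self, update_of_ne hij.symm]; rfl
    · rw [update_of_ne ht]
  have := hd _ hkey i j none none (by rw [hi]; simp) (by rw [hj]; simp) (by rw [ni]; exact f4)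
    (by rw [nj]; exact f3)
  exact hij this.1

/-- the colours of the pairs -/
def Col (V : Set (Fin n → Option Bool)) (i j k l : Fin n) (x y : Bool) : Prop :=
  ∃ c d : Bool, p3 i j k x y c ∈ V ∧ p3 i j l x y d ∈ V ∧ p4 i j k l x y c (!d) ∈ V ∧
    p4 i j k l x y (!c) d ∈ V

theorem p4_swap (i j k l : Fin n) (hkl : k ≠ l) (a b c d : Bool) :
    p4 i j k l a b c d = p4 i j l k a b d c := by
  unfold p4 p3; rw [update_comm hkl]

theorem Col.symm {i j k l : Fin n} (hkl : k ≠ l) {x y : Bool} (h : Col V i j k l x y) :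
    Col V i j l k x y := by
  obtain ⟨c, d, h1, h2, h3, h4⟩ := h
  refine ⟨d, c, h2, h1, ?_, ?_⟩
  · rw [p4_swap i j l k hkl.symm]; exact h4
  · rw [p4_swap i j l k hkl.symm]; exact h3

include hd hl h0 in
theorem exCol (i j k l : Fin n) (hij : i ≠ j) (hik : i ≠ k) (hil : i ≠ l) (hjk : j ≠ k)
    (hjl : j ≠ l) (hkl : k ≠ l) : ∃ x y : Bool, Col V i j k l x y := by
  obtain ⟨s1, e1⟩ := sgn hd hl h0 i j k hij hik hjk
  obtain ⟨s2, e2⟩ := sgn hd hl h0 i j l hij hil hjl
  obtain ⟨s3, e3⟩ := sgn hd hl h0 i k l hik hil hkl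
  obtain ⟨s4, e4⟩ := sgn hd hl h0 j k l hjk hjl hkl
  obtain ⟨a, b, c, d, g1, g2, g3, g4⟩ := signs s1 s2 s3 s4
  have m1 := (e1 a b c).2 g1
  have m2 := (e2 a b d).2 g2
  have m3 := (e3 a c d).2 g3
  have m4 := (e4 b c d).2 g4
  refine ⟨a, b, c, d, m1, m2, ?_, ?_⟩
  · exact flip hd hl h0 i j k l hij hik hil hjk hjl hkl a b c d m2 m3 m4
  · rw [p4_swap i j k l hkl]
    refine flip hd hl h0 i j l k hij hil hik hjl hjk hkl.symm a b d c m1 ?_ ?_
    · rw [p3_swap23 i l k hkl.symm]; exact m3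
    · rw [p3_swap23 j l k hkl.symm]; exact m4

include hd hl h0 in
theorem col_unique (i j k l m : Fin n) (hij : i ≠ j) (hik : i ≠ k) (hil : i ≠ l) (him : i ≠ m)
    (hjk : j ≠ k) (hjl : j ≠ l) (hjm : j ≠ m) (hkl : k ≠ l) (hkm : k ≠ m) (x y : Bool)
    (h1 : Col V i j k l x y) (h2 : Col V i j k m x y) : l = m := by
  obtain ⟨c, d, c1, _, c3, _⟩ := h1
  obtain ⟨c', d', c1', _, c3', _⟩ := h2
  obtain ⟨s, e⟩ := sgn hd hl h0 i j k hij hik hjk
  have hc : c = c' := by
    have a1 := (e x y c).1 c1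
    have a2 := (e x y c').1 c1'
    rw [← a2] at a1
    revert a1
    cases x <;> cases y <;> cases c <;> cases c' <;> decide
  subst hc
  have hvl : p3 i j k x y c l = none := by
    unfold p3 p2
    rw [update_of_ne hkl.symm, update_of_ne hjl.symm, update_of_ne hil.symm]; rfl
  have hvm : p3 i j k x y c m = none := by
    unfold p3 p2
    rw [update_of_ne hkm.symm, update_of_ne hjm.symm, update_of_ne him.symm]; rfl
  exact (hd _ c1 l m (some (!d)) (some (!d')) (by rw [hvl]; simp) (by rw [hvm]; simp) c3 c3').1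

theorem no_involution (f : Fin 5 → Fin 5) (hf : ∀ k, f (f k) = k) (hk : ∀ k, f k ≠ k) :
    False := by
  let σ : Equiv.Perm (Fin 5) := ⟨f, f, hf, hf⟩
  have hσ : σ ^ (2 ^ 1) = 1 := by
    ext k
    simp [pow_succ, σ, hf]
  have : Fact (Nat.Prime 2) := ⟨Nat.prime_two⟩
  obtain ⟨a, ha⟩ := Equiv.Perm.exists_fixed_point_of_prime (p := 2) (n := 1) (α := Fin 5)
    (by simp) hσ
  exact hk a ha

include hd hl h0 in
theorem main (hn : 7 ≤ n) : False := by
  let i : Fin n := ⟨0, by omega⟩
  let j : Fin n := ⟨1, by omega⟩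
  let e : Fin 5 → Fin n := fun t => ⟨t.1 + 2, by omega⟩
  have hij : i ≠ j := Fin.ne_of_val_ne (show (0 : ℕ) ≠ 1 by omega)
  have hie : ∀ t : Fin 5, i ≠ e t := fun t => Fin.ne_of_val_ne (show (0 : ℕ) ≠ t.1 + 2 by omega)
  have hje : ∀ t : Fin 5, j ≠ e t := fun t => Fin.ne_of_val_ne (show (1 : ℕ) ≠ t.1 + 2 by omega)
  have hee : ∀ s t : Fin 5, s ≠ t → e s ≠ e t := by
    intro s t hst h
    apply hst
    simp only [e, Fin.mk.injEq] at h
    exact Fin.ext (by omega)
  have hcol : ∀ s t : Fin 5, s ≠ t → ∃ q : Bool × Bool, Col V i j (e s) (e t) q.1 q.2 := by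
    intro s t hst
    obtain ⟨x, y, h⟩ := exCol hd hl h0 i j (e s) (e t) hij (hie s) (hie t) (hje s) (hje t)
      (hee s t hst)
    exact ⟨(x, y), h⟩
  have huniq : ∀ k l m : Fin 5, k ≠ l → k ≠ m → ∀ x y : Bool, Col V i j (e k) (e l) x y →
      Col V i j (e k) (e m) x y → l = m := by
    intro k l m hkl hkm x y h1 h2
    have := col_unique hd hl h0 i j (e k) (e l) (e m) hij (hie k) (hie l) (hie m) (hje k) (hje l)
      (hje m) (hee k l hkl) (hee k m hkm) x y h1 h2
    by_contra hne
    exact hee l m hne this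
  -- every colour occurs at every vertex
  have hall : ∀ k : Fin 5, ∃ l : Fin 5, l ≠ k ∧ Col V i j (e k) (e l) true true := by
    intro k
    choose q hq using fun l : {l : Fin 5 // l ≠ k} => hcol k l.1 (Ne.symm l.2)
    have hinj : Injective q := by
      intro l m hlm
      apply Subtype.ext
      refine huniq k l.1 m.1 (Ne.symm l.2) (Ne.symm m.2) (q l).1 (q l).2 (hq l) ?_
      rw [hlm]; exact hq m
    have hsurj : Surjective q := by
      have hcard : Fintype.card {l : Fin 5 // l ≠ k} = Fintype.card (Bool × Bool) := by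
        rw [Fintype.card_subtype_compl]
        simp
      exact ((Fintype.bijective_iff_injective_and_card q).2 ⟨hinj, hcard⟩).2
    obtain ⟨l, hl'⟩ := hsurj (true, true)
    refine ⟨l.1, l.2, ?_⟩
    have := hq l
    rw [hl'] at this
    exact this
  choose f hf1 hf2 using hall
  refine no_involution f ?_ hf1
  intro k
  have h1 := hf2 (f k)
  have h2 := (hf2 k).symm (hee k (f k) (hf1 k).symm)
  exact huniq (f k) (f (f k)) k (hf1 (f k)).symm (hf1 k) true true h1 h2

end main

end Pool.Agent.K7.H13.Ham
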