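import Mathlib
import Pool.Agent.K7.H13.IsoBase

/-!
# The key inequality of the isolation theorem
-/

set_option autoImplicit false

namespace Pool.Agent.K7.H13.Iso

open scoped InnerProductSpace ComplexConjugate
open Finset

variable {d : ℕ} {ι : Type*} [Fintype ι] [DecidableEq ι]
variable {x : ι → EuclideanSpace ℂ (Fin d)}

open Classical in
/-- the indices with an overlap different from the flat one -/
noncomputable def bad (x : ι → EuclideanSpace ℂ (Fin d)) (w : EuclideanSpace ℂ (Fin d)) :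
    Finset ι := univ.filter fun i => qp x w i ≠ 0

omit [DecidableEq ι] in
theorem mem_bad {w : EuclideanSpace ℂ (Fin d)} {i : ι} : i ∈ bad x w ↔ qp x w i ≠ 0 := by
  classical
  simp [bad]

omit [DecidableEq ι] in
theorem qp_of_not_mem {w : EuclideanSpace ℂ (Fin d)} {i : ι} (hi : i ∉ bad x w) :
    qp x w i = 0 := by
  by_contra h
  exact hi (mem_bad.2 h)

theorem sum_bad (h : IsSic x) {w : EuclideanSpace ℂ (Fin d)} (hw : ‖w‖ = 1) :
    ∑ i ∈ bad x w, ov x w i = (d + (bad x w).card) / (d + 1) := by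
  have hd := h.dR
  have h1 : ∑ i ∈ bad x w, ov x w i + ∑ i ∈ (bad x w)ᶜ, ov x w i = ∑ i, ov x w i :=
    Finset.sum_add_sum_compl _ _
  have h2 : ∑ i ∈ (bad x w)ᶜ, ov x w i = ((d : ℝ) ^ 2 - (bad x w).card) * (1 / (d + 1)) := by
    have : ∀ i ∈ (bad x w)ᶜ, ov x w i = 1 / (d + 1) := by
      intro i hi
      rw [ov_eq h, qp_of_not_mem (Finset.mem_compl.1 hi)]
      ring
    rw [Finset.sum_congr rfl this, Finset.sum_const, nsmul_eq_mul, Finset.card_compl, h.card,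
      Nat.cast_sub]
    · push_cast; ring
    · rw [← h.card]; exact Finset.card_le_univ _
  rw [h2, sum_ov h, hw] at h1
  have h3 : ∑ i ∈ bad x w, ov x w i = d * 1 ^ 2 - ((d : ℝ) ^ 2 - (bad x w).card) * (1 / (d + 1)) := by
    linarith
  rw [h3]
  field_simp
  ring

theorem sum_erase (h : IsSic x) {w : EuclideanSpace ℂ (Fin d)} (hw : ‖w‖ = 1) (i : ι) :
    ∑ j ∈ (bad x w).erase i, ((qp x w j : ℝ) : ℂ) * (⟪x i, x j⟫_ℂ * ⟪x j, w⟫_ℂ) =
      (1 - (qp x w i : ℝ)) * ⟪x i, w⟫_ℂ := by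
  have h1 := expand h hw (x i) w
  rw [inner_self_one hw, mul_one] at h1
  have h2 : ∑ j ∈ (bad x w).erase i, ((qp x w j : ℝ) : ℂ) * (⟪x i, x j⟫_ℂ * ⟪x j, w⟫_ℂ) =
      ∑ j ∈ univ.erase i, ((qp x w j : ℝ) : ℂ) * (⟪x i, x j⟫_ℂ * ⟪x j, w⟫_ℂ) := by
    apply Finset.sum_subset
    · exact Finset.erase_subset_erase _ (Finset.subset_univ _)
    · intro j hj hj2
      have : j ∉ bad x w := by
        intro h3
        exact hj2 (Finset.mem_erase.2 ⟨(Finset.mem_erase.1 hj).1, h3⟩)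
      rw [qp_of_not_mem this]
      simp
  have h3 := Finset.sum_erase_add univ
    (fun j => ((qp x w j : ℝ) : ℂ) * (⟪x i, x j⟫_ℂ * ⟪x j, w⟫_ℂ)) (Finset.mem_univ i)
  rw [inner_self_one (h.nrm i), one_mul, h1] at h3
  rw [h2]
  linear_combination h3

theorem sum_sq_erase (h : IsSic x) {w : EuclideanSpace ℂ (Fin d)} (hw : ‖w‖ = 1) (i : ι) :
    ∑ j ∈ (bad x w).erase i, qp x w j ^ 2 ≤ 1 - qp x w i ^ 2 := by
  have h1 := sum_qp_sq h hw
  have h3 := Finset.sum_erase_add univ (fun j => qp x w j ^ 2) (Finset.mem_univ i)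
  rw [h1] at h3
  have h2 : ∑ j ∈ (bad x w).erase i, qp x w j ^ 2 ≤ ∑ j ∈ univ.erase i, qp x w j ^ 2 := by
    apply Finset.sum_le_sum_of_subset_of_nonneg
    · exact Finset.erase_subset_erase _ (Finset.subset_univ _)
    · intro j _ _; positivity
  linarith

theorem key (h : IsSic x) {w : EuclideanSpace ℂ (Fin d)} (hw : ‖w‖ = 1) {i : ι}
    (hi : i ∈ bad x w) (hT : qp x w i < 1) :
    (1 - qp x w i) * (1 + (d : ℝ) ^ 2 * qp x w i) ≤ (1 + qp x w i) * ((bad x w).card - 1) := by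
  have hd := h.dR
  set B := bad x w with hB
  set T := qp x w i with hTdef
  -- norm of the expansion
  have h1 := sum_erase h hw i
  have h2 : (1 - T) * ‖⟪x i, w⟫_ℂ‖ ≤
      ∑ j ∈ B.erase i, (|qp x w j| * (1 / Real.sqrt ((d : ℝ) + 1))) * ‖⟪x j, w⟫_ℂ‖ := by
    have h3 : ‖(1 - (T : ℂ)) * ⟪x i, w⟫_ℂ‖ = (1 - T) * ‖⟪x i, w⟫_ℂ‖ := by
      rw [norm_mul]
      congr 1
      rw [← Complex.ofReal_one, ← Complex.ofReal_sub, Complex.norm_real, Real.norm_eq_abs,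
        abs_of_pos (by linarith)]
    rw [← h3, ← h1]
    refine (norm_sum_le _ _).trans (Finset.sum_le_sum ?_)
    intro j hj
    have hij : i ≠ j := fun hh => (Finset.mem_erase.1 hj).1 hh.symm
    rw [norm_mul, norm_mul, h.ang i j hij, Complex.norm_real, Real.norm_eq_abs]
    apply le_of_eq
    ring
  have h4 : ((1 - T) * ‖⟪x i, w⟫_ℂ‖) ^ 2 ≤
      (∑ j ∈ B.erase i, (|qp x w j| * (1 / Real.sqrt ((d : ℝ) + 1))) ^ 2) *
        ∑ j ∈ B.erase i, ‖⟪x j, w⟫_ℂ‖ ^ 2 := by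
    refine le_trans ?_ (Finset.sum_mul_sq_le_sq_mul_sq _ _ _)
    apply pow_le_pow_left₀ _ h2
    have : 0 ≤ 1 - T := by linarith
    positivity
  have h5 : ∑ j ∈ B.erase i, (|qp x w j| * (1 / Real.sqrt ((d : ℝ) + 1))) ^ 2 ≤
      (1 / ((d : ℝ) + 1)) * (1 - T ^ 2) := by
    have : ∀ j ∈ B.erase i, (|qp x w j| * (1 / Real.sqrt ((d : ℝ) + 1))) ^ 2 =
        (1 / ((d : ℝ) + 1)) * qp x w j ^ 2 := by
      intro j _
      rw [mul_pow, sq_abs, div_pow, Real.sq_sqrt (by linarith), one_pow]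
      ring
    rw [Finset.sum_congr rfl this, ← Finset.mul_sum]
    apply mul_le_mul_of_nonneg_left (sum_sq_erase h hw i)
    positivity
  have h6 : ∑ j ∈ B.erase i, ‖⟪x j, w⟫_ℂ‖ ^ 2 = (d + B.card) / (d + 1) - (d * T + 1) / (d + 1) := by
    have h7 := Finset.sum_erase_add B (fun j => ov x w j) hi
    rw [sum_bad h hw, ov_eq h] at h7
    have h8 : ∑ j ∈ B.erase i, ‖⟪x j, w⟫_ℂ‖ ^ 2 = ∑ j ∈ B.erase i, ov x w j := rfl
    rw [h8]
    linarith
  have h9 : ((1 - T) * ‖⟪x i, w⟫_ℂ‖) ^ 2 = (1 - T) ^ 2 * ((d * T + 1) / (d + 1)) := by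
    rw [mul_pow, ← ov_eq h]; rfl
  have hS0 : 0 ≤ ∑ j ∈ B.erase i, ‖⟪x j, w⟫_ℂ‖ ^ 2 := Finset.sum_nonneg fun j _ => sq_nonneg _
  have h10 : (1 - T) ^ 2 * ((d * T + 1) / (d + 1)) ≤ ((1 / ((d : ℝ) + 1)) * (1 - T ^ 2)) *
      ((d + B.card) / (d + 1) - (d * T + 1) / (d + 1)) := by
    rw [← h9, ← h6]
    exact h4.trans (mul_le_mul_of_nonneg_right h5 hS0)
  have h11 : (1 - T) * ((1 - T) * (d * T + 1) * (d + 1)) ≤
      (1 - T) * ((1 + T) * (B.card + d - d * T - 1)) := by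
    have h12 : (1 - T) * ((1 - T) * (d * T + 1) * (d + 1)) =
        ((1 - T) ^ 2 * ((d * T + 1) / (d + 1))) * ((d : ℝ) + 1) ^ 2 := by
      field_simp
    have h13 : (1 - T) * ((1 + T) * (B.card + d - d * T - 1)) =
        (((1 / ((d : ℝ) + 1)) * (1 - T ^ 2)) *
      ((d + B.card) / (d + 1) - (d * T + 1) / (d + 1))) * ((d : ℝ) + 1) ^ 2 := by
      field_simp
      ring
    rw [h12, h13]
    exact mul_le_mul_of_nonneg_right h10 (by positivity)
  have h14 := le_of_mul_le_mul_left h11 (by linarith)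
  nlinarith [h14]

end Pool.Agent.K7.H13.Iso
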