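import Mathlib
import Pool.Agent.K7.H13.IsoKey

/-!
# The two cases of the isolation theorem
-/

set_option autoImplicit false

namespace Pool.Agent.K7.H13.Iso

open scoped InnerProductSpace ComplexConjugate
open Finset

variable {d : ℕ} {ι : Type*} [Fintype ι] [DecidableEq ι]
variable {x : ι → EuclideanSpace ℂ (Fin d)}

omit [DecidableEq ι] in
/-- some quasi-probability is positive -/
theorem exists_pos (h : IsSic x) {w : EuclideanSpace ℂ (Fin d)} (hw : ‖w‖ = 1) :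
    ∃ i, 0 < qp x w i := by
  by_contra hc
  have hc2 : ∀ i, qp x w i ≤ 0 := fun i => not_lt.1 fun h3 => hc ⟨i, h3⟩
  have h1 := sum_qp h hw
  have h2 : ∑ i, qp x w i ≤ 0 := Finset.sum_nonpos fun i _ => hc2 i
  linarith

omit [DecidableEq ι] in
theorem one_le_card (h : IsSic x) {w : EuclideanSpace ℂ (Fin d)} (hw : ‖w‖ = 1) :
    (1 : ℝ) ≤ (bad x w).card := by
  obtain ⟨i, hi⟩ := exists_pos h hw
  have : 0 < (bad x w).card := Finset.card_pos.2 ⟨i, mem_bad.2 hi.ne'⟩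
  exact_mod_cast this

theorem caseA (h : IsSic x) {w : EuclideanSpace ℂ (Fin d)} (hw : ‖w‖ = 1)
    (hle : ∀ i, qp x w i ≤ 1 / 2) {μ : ℝ} (hμ : ((bad x w).card : ℝ) - 1 = μ * (d : ℝ) ^ 2)
    (h3 : 3 * μ < 1) :
    (1 - μ) * (1 - 3 * μ) ≤ μ * (1 + 3 * μ) * (1 + d * μ) := by
  have hd := h.dR
  have hd2 : (0 : ℝ) < (d : ℝ) ^ 2 := by positivity
  have hμ0 : 0 ≤ μ := by
    have h1 := one_le_card h hw
    by_contra hc
    have : μ * (d : ℝ) ^ 2 < 0 := mul_neg_of_neg_of_pos (not_le.1 hc) hd2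
    linarith
  set τ := μ * (1 + 3 * μ) / (1 - 3 * μ) with hτ
  have h3' : 0 < 1 - 3 * μ := by linarith
  have hτ0 : 0 ≤ τ := by positivity
  -- every quasi-probability is at most τ
  have hT : ∀ i, qp x w i ≤ τ := by
    intro i
    by_cases hi : i ∈ bad x w
    · have hk := key h hw hi (by linarith [hle i])
      have hli := hle i
      rw [hμ] at hk
      set T := qp x w i with hTd
      rcases le_or_gt T 0 with hneg | hpos
      · linarith
      · have h4 : T ≤ 3 * μ := by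
          have h5 : (1 / 2) * (1 + (d : ℝ) ^ 2 * T) ≤ (1 - T) * (1 + (d : ℝ) ^ 2 * T) := by
            apply mul_le_mul_of_nonneg_right (by linarith)
            positivity
          have h6 : (1 + T) * (μ * (d : ℝ) ^ 2) ≤ (3 / 2) * (μ * (d : ℝ) ^ 2) := by
            apply mul_le_mul_of_nonneg_right (by linarith)
            positivity
          have h7 : (d : ℝ) ^ 2 * T ≤ (d : ℝ) ^ 2 * (3 * μ) := by linarith
          exact le_of_mul_le_mul_left h7 hd2
        have h5 : (1 - 3 * μ) * (1 + (d : ℝ) ^ 2 * T) ≤ (1 - T) * (1 + (d : ℝ) ^ 2 * T) := by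
          apply mul_le_mul_of_nonneg_right (by linarith)
          positivity
        have h6 : (1 + T) * (μ * (d : ℝ) ^ 2) ≤ (1 + 3 * μ) * (μ * (d : ℝ) ^ 2) := by
          apply mul_le_mul_of_nonneg_right (by linarith)
          positivity
        have h7 : (d : ℝ) ^ 2 * (T * (1 - 3 * μ)) ≤ (d : ℝ) ^ 2 * (μ * (1 + 3 * μ)) := by
          nlinarith
        have h8 := le_of_mul_le_mul_left h7 hd2
        rw [hτ, le_div_iff₀ h3']
        exact h8
    · rw [qp_of_not_mem hi]; exact hτ0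
  -- positive and negative parts
  obtain ⟨i₀, hi₀⟩ := exists_pos h hw
  have hneg : ∑ i, max (-qp x w i) 0 ≤ d * μ := by
    have h4 : ∑ i, max (-qp x w i) 0 = ∑ i ∈ (bad x w).erase i₀, max (-qp x w i) 0 := by
      symm
      apply Finset.sum_subset (Finset.subset_univ _)
      intro i _ hi
      by_cases h5 : i = i₀
      · rw [h5, max_eq_right]; linarith
      · have : i ∉ bad x w := fun h6 => hi (Finset.mem_erase.2 ⟨h5, h6⟩)
        rw [qp_of_not_mem this]; simp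
    rw [h4]
    have h5 : ∑ i ∈ (bad x w).erase i₀, max (-qp x w i) 0 ≤
        ∑ i ∈ (bad x w).erase i₀, (1 / (d : ℝ)) := by
      apply Finset.sum_le_sum
      intro i _
      apply max_le _ (by positivity)
      linarith [qp_ge h w i]
    refine h5.trans ?_
    rw [Finset.sum_const, nsmul_eq_mul, Finset.card_erase_of_mem (mem_bad.2 hi₀.ne'),
      Nat.cast_sub (by exact_mod_cast one_le_card h hw), Nat.cast_one, hμ]
    apply le_of_eq
    field_simp
  have hpos : ∑ i, max (qp x w i) 0 = 1 + ∑ i, max (-qp x w i) 0 := by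
    rw [← sum_qp h hw, ← Finset.sum_add_distrib]
    apply Finset.sum_congr rfl
    intro i _
    rcases le_total (qp x w i) 0 with h5 | h5
    · rw [max_eq_right h5, max_eq_left (by linarith)]; ring
    · rw [max_eq_left h5, max_eq_right (by linarith)]; ring
  have hsq : (1 : ℝ) ≤ τ * ∑ i, max (qp x w i) 0 + (1 / d) * ∑ i, max (-qp x w i) 0 := by
    refine (sum_qp_sq h hw).symm.le.trans ?_
    rw [Finset.mul_sum, Finset.mul_sum, ← Finset.sum_add_distrib]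
    apply Finset.sum_le_sum
    intro i _
    rcases le_total (qp x w i) 0 with h5 | h5
    · rw [max_eq_right h5, max_eq_left (by linarith)]
      have h6 := qp_ge h w i
      nlinarith
    · rw [max_eq_left h5, max_eq_right (by linarith)]
      have h6 := hT i
      nlinarith
  rw [hpos] at hsq
  set σ := ∑ i, max (-qp x w i) 0 with hσ
  have hσ0 : 0 ≤ σ := Finset.sum_nonneg fun i _ => le_max_right _ _
  have h9 : (1 : ℝ) ≤ τ * (1 + d * μ) + μ := by
    have h10 : τ * (1 + σ) ≤ τ * (1 + d * μ) := by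
      apply mul_le_mul_of_nonneg_left _ hτ0
      linarith
    have h11 : (1 / (d : ℝ)) * σ ≤ (1 / (d : ℝ)) * (d * μ) := by
      apply mul_le_mul_of_nonneg_left hneg
      positivity
    have h12 : (1 / (d : ℝ)) * (d * μ) = μ := by field_simp
    linarith
  have h13 : τ * (1 - 3 * μ) = μ * (1 + 3 * μ) := by
    rw [hτ]; exact div_mul_cancel₀ _ h3'.ne'
  have h14 : 1 - μ ≤ τ * (1 + d * μ) := by linarith
  calc (1 - μ) * (1 - 3 * μ) ≤ (τ * (1 + d * μ)) * (1 - 3 * μ) :=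
        mul_le_mul_of_nonneg_right h14 h3'.le
    _ = (τ * (1 - 3 * μ)) * (1 + d * μ) := by ring
    _ = μ * (1 + 3 * μ) * (1 + d * μ) := by rw [h13]

omit [DecidableEq ι] in
theorem cross_sq (h : IsSic x) {u v : EuclideanSpace ℂ (Fin d)} (huv : ⟪u, v⟫_ℂ = 0) :
    ∑ i, (ov x (u + v) i - ov x u i - ov x v i) ^ 2 =
      2 * d / (d + 1) * (‖u‖ ^ 2 * ‖v‖ ^ 2) := by
  have hvu : ⟪v, u⟫_ℂ = 0 := by
    rw [← inner_conj_symm, huv, map_zero]
  have h1 := h.design v u v u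
  have h2 := h.design u v u v
  have h3 := h.design v u u v
  rw [hvu] at h1
  rw [huv] at h2
  rw [hvu, huv, inner_self_eq_norm_sq_to_K, inner_self_eq_norm_sq_to_K] at h3
  have hov : ∀ (z : EuclideanSpace ℂ (Fin d)) (i : ι),
      ((ov x z i : ℝ) : ℂ) = ⟪z, x i⟫_ℂ * ⟪x i, z⟫_ℂ := by
    intro z i
    rw [mul_comm, cmul]; rfl
  have h4 : ∀ i, (((ov x (u + v) i - ov x u i - ov x v i) ^ 2 : ℝ) : ℂ) =
      (⟪v, x i⟫_ℂ * ⟪x i, u⟫_ℂ) * (⟪v, x i⟫_ℂ * ⟪x i, u⟫_ℂ) +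
      (⟪u, x i⟫_ℂ * ⟪x i, v⟫_ℂ) * (⟪u, x i⟫_ℂ * ⟪x i, v⟫_ℂ) +
      2 * ((⟪v, x i⟫_ℂ * ⟪x i, u⟫_ℂ) * (⟪u, x i⟫_ℂ * ⟪x i, v⟫_ℂ)) := by
    intro i
    push_cast
    rw [hov, hov, hov, inner_add_left, inner_add_right]
    ring
  have h5 : ((∑ i, (ov x (u + v) i - ov x u i - ov x v i) ^ 2 : ℝ) : ℂ) =
      ((2 * d / (d + 1) * (‖u‖ ^ 2 * ‖v‖ ^ 2) : ℝ) : ℂ) := by
    rw [Complex.ofReal_sum, Finset.sum_congr rfl fun i _ => h4 i, Finset.sum_add_distrib,
      Finset.sum_add_distrib, ← Finset.mul_sum, h1, h2, h3]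
    push_cast
    simp only [Complex.coe_algebraMap]
    ring
  exact_mod_cast h5

omit [DecidableEq ι] in
theorem dev_sq (h : IsSic x) (u : EuclideanSpace ℂ (Fin d)) :
    ∑ i, (ov x u i - ‖u‖ ^ 2 / (d + 1)) ^ 2 = (‖u‖ ^ 2 * d / (d + 1)) ^ 2 := by
  have hd := h.dR
  have h1 : ∀ i, (ov x u i - ‖u‖ ^ 2 / (d + 1)) ^ 2 = ov x u i ^ 2 -
      (2 * ‖u‖ ^ 2 / (d + 1)) * ov x u i + (‖u‖ ^ 2 / (d + 1)) ^ 2 := by
    intro i; ring
  rw [Finset.sum_congr rfl fun i _ => h1 i, Finset.sum_add_distrib, Finset.sum_sub_distrib,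
    ← Finset.mul_sum, sum_ov h, sum_ov_sq h, Finset.sum_const, Finset.card_univ, h.card,
    nsmul_eq_mul]
  push_cast
  field_simp
  ring

theorem caseB (h : IsSic x) {w : EuclideanSpace ℂ (Fin d)} (hw : ‖w‖ = 1) {i₁ : ι}
    (hi : i₁ ∈ bad x w) (hp1 : ov x w i₁ < 1) :
    2 * d * (d + 1) * ov x w i₁ ≤ (1 - ov x w i₁) * (d : ℝ) ^ 2 +
      4 * ov x w i₁ * (d * Real.sqrt ((bad x w).card - 1) + ((bad x w).card - 1)) := by
  have hd := h.dR
  set B := bad x w with hB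
  set p := ov x w i₁ with hp
  have hp0 : 0 ≤ p := by rw [hp, ov]; positivity
  have hn0 : (0 : ℝ) ≤ (B.card : ℝ) - 1 := by have := one_le_card h hw; linarith
  set z := ⟪x i₁, w⟫_ℂ with hz
  set v := z • x i₁ with hv
  set u := w - v with hu
  have hwuv : u + v = w := by rw [hu]; abel
  have hx1 : ⟪x i₁, x i₁⟫_ℂ = 1 := inner_self_one (h.nrm i₁)
  have hxu : ⟪x i₁, u⟫_ℂ = 0 := by
    rw [hu, inner_sub_right, hv, inner_smul_right, hx1, mul_one, ← hz, sub_self]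
  have huv : ⟪u, v⟫_ℂ = 0 := by
    rw [hv, inner_smul_right, ← inner_conj_symm, hxu, map_zero, mul_zero]
  have hvn : ‖v‖ ^ 2 = p := by
    rw [hv, norm_smul, h.nrm, mul_one]
    rfl
  have hun : ‖u‖ ^ 2 = 1 - p := by
    have h1 : ‖w‖ * ‖w‖ = ‖u‖ * ‖u‖ + ‖v‖ * ‖v‖ := by
      rw [← hwuv]
      exact norm_add_sq_eq_norm_sq_add_norm_sq_of_inner_eq_zero u v huv
    rw [hw] at h1
    nlinarith
  have hS : 0 < 1 - p := by linarith
  -- the cross terms
  have hc := cross_sq h huv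
  rw [hwuv, hvn, hun] at hc
  have hq := dev_sq h u
  rw [hun] at hq
  have hovv : ∀ i, i ≠ i₁ → ov x v i = p / (d + 1) := by
    intro i hne
    rw [ov, hv, inner_smul_right, norm_mul, mul_pow, h.ang_sq hne]
    rw [hp, ov]
    ring
  have hc1 : ov x w i₁ - ov x u i₁ - ov x v i₁ = 0 := by
    have h1 : ov x u i₁ = 0 := by rw [ov, hxu]; simp
    have h2 : ov x v i₁ = p := by
      rw [ov, hv, inner_smul_right, hx1, mul_one]
      rfl
    rw [h1, h2, ← hp]; ring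
  have hgood : ∀ i ∈ Bᶜ, (ov x w i - ov x u i - ov x v i) ^ 2 =
      (ov x u i - (1 - p) / (d + 1)) ^ 2 := by
    intro i hi2
    have hi3 : i ∉ B := Finset.mem_compl.1 hi2
    have hne : i ≠ i₁ := fun hh => hi3 (hh ▸ hi)
    rw [hovv i hne, ov_eq h w i, qp_of_not_mem hi3]
    ring
  have hbadc : ∀ i ∈ B.erase i₁, (ov x w i - ov x u i - ov x v i) ^ 2 ≤
      4 * (p / (d + 1)) * ov x u i := by
    intro i hi2
    have hne : i ≠ i₁ := (Finset.mem_erase.1 hi2).1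
    have h1 : ov x w i - ov x u i - ov x v i = 2 * (⟪v, x i⟫_ℂ * ⟪x i, u⟫_ℂ).re := by
      have h2 : ((ov x w i - ov x u i - ov x v i : ℝ) : ℂ) =
          (⟪v, x i⟫_ℂ * ⟪x i, u⟫_ℂ) + conj (⟪v, x i⟫_ℂ * ⟪x i, u⟫_ℂ) := by
        have hov : ∀ (z : EuclideanSpace ℂ (Fin d)) (i : ι),
            ((ov x z i : ℝ) : ℂ) = ⟪z, x i⟫_ℂ * ⟪x i, z⟫_ℂ := by
          intro z i
          rw [mul_comm, cmul]; rfl
        push_cast
        rw [← hwuv, hov, hov, hov, inner_add_left, inner_add_right, map_mul, inner_conj_symm,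
          inner_conj_symm]
        ring
      rw [Complex.add_conj] at h2
      exact_mod_cast h2
    have h3 : |(⟪v, x i⟫_ℂ * ⟪x i, u⟫_ℂ).re| ≤ ‖⟪v, x i⟫_ℂ‖ * ‖⟪x i, u⟫_ℂ‖ := by
      rw [← norm_mul]
      exact Complex.abs_re_le_norm _
    have h4 : (⟪v, x i⟫_ℂ * ⟪x i, u⟫_ℂ).re ^ 2 ≤ (‖⟪v, x i⟫_ℂ‖ * ‖⟪x i, u⟫_ℂ‖) ^ 2 := by
      rw [← sq_abs]
      exact pow_le_pow_left₀ (abs_nonneg _) h3 2
    have h5 : ‖⟪v, x i⟫_ℂ‖ ^ 2 = p / (d + 1) := by
      rw [norm_inner_symm, ← hovv i hne]; rfl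
    rw [h1, mul_pow]
    rw [mul_pow, h5] at h4
    have h6 : ov x u i = ‖⟪x i, u⟫_ℂ‖ ^ 2 := rfl
    rw [h6]
    linarith
  have hsplit : ∑ i, (ov x w i - ov x u i - ov x v i) ^ 2 =
      ∑ i ∈ Bᶜ, (ov x w i - ov x u i - ov x v i) ^ 2 +
      ∑ i ∈ B.erase i₁, (ov x w i - ov x u i - ov x v i) ^ 2 := by
    rw [← Finset.sum_add_sum_compl B, ← Finset.sum_erase_add B _ hi, hc1]
    ring
  have hle1 : ∑ i ∈ Bᶜ, (ov x w i - ov x u i - ov x v i) ^ 2 ≤ ((1 - p) * d / (d + 1)) ^ 2 := by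
    rw [Finset.sum_congr rfl hgood, ← hq]
    apply Finset.sum_le_sum_of_subset_of_nonneg (Finset.subset_univ _)
    intro i _ _; positivity
  have hle2 : ∑ i ∈ B.erase i₁, (ov x w i - ov x u i - ov x v i) ^ 2 ≤
      4 * (p / (d + 1)) * ∑ i ∈ B.erase i₁, ov x u i := by
    rw [Finset.mul_sum]
    exact Finset.sum_le_sum hbadc
  have hcardE : ((B.erase i₁).card : ℝ) = B.card - 1 := by
    rw [Finset.card_erase_of_mem hi, Nat.cast_sub (by exact_mod_cast one_le_card h hw),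
      Nat.cast_one]
  have hle3 : ∑ i ∈ B.erase i₁, ov x u i ≤
      Real.sqrt (B.card - 1) * ((1 - p) * d / (d + 1)) + (B.card - 1) * ((1 - p) / (d + 1)) := by
    have h1 : (∑ i ∈ B.erase i₁, (ov x u i - (1 - p) / (d + 1))) ^ 2 ≤
        (B.card - 1) * ((1 - p) * d / (d + 1)) ^ 2 := by
      refine (sq_sum_le_card_mul_sum_sq).trans ?_
      rw [hcardE]
      apply mul_le_mul_of_nonneg_left _ hn0
      rw [← hq]
      apply Finset.sum_le_sum_of_subset_of_nonneg (Finset.subset_univ _)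
      intro i _ _; positivity
    have h2 : ∑ i ∈ B.erase i₁, (ov x u i - (1 - p) / (d + 1)) ≤
        Real.sqrt (B.card - 1) * ((1 - p) * d / (d + 1)) := by
      have h3 : 0 ≤ (1 - p) * d / (d + 1) := by positivity
      have h4 : Real.sqrt ((B.card - 1) * ((1 - p) * d / (d + 1)) ^ 2) =
          Real.sqrt (B.card - 1) * ((1 - p) * d / (d + 1)) := by
        rw [Real.sqrt_mul hn0, Real.sqrt_sq h3]
      rw [← h4]
      exact Real.le_sqrt_of_sq_le h1
    rw [Finset.sum_sub_distrib, Finset.sum_const, nsmul_eq_mul, hcardE] at h2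
    linarith
  have hfin : 2 * d / (d + 1) * ((1 - p) * p) ≤ ((1 - p) * d / (d + 1)) ^ 2 +
      4 * (p / (d + 1)) * (Real.sqrt (B.card - 1) * ((1 - p) * d / (d + 1)) +
        (B.card - 1) * ((1 - p) / (d + 1))) := by
    rw [← hc, hsplit]
    apply add_le_add hle1
    refine hle2.trans ?_
    apply mul_le_mul_of_nonneg_left hle3
    positivity
  have hkey : ((1 - p) / ((d : ℝ) + 1) ^ 2) * (2 * d * (d + 1) * p) ≤
      ((1 - p) / ((d : ℝ) + 1) ^ 2) * ((1 - p) * (d : ℝ) ^ 2 +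
      4 * p * (d * Real.sqrt (B.card - 1) + (B.card - 1))) := by
    have e1 : ((1 - p) / ((d : ℝ) + 1) ^ 2) * (2 * d * (d + 1) * p) =
        2 * d / (d + 1) * ((1 - p) * p) := by
      field_simp
    have e2 : ((1 - p) / ((d : ℝ) + 1) ^ 2) * ((1 - p) * (d : ℝ) ^ 2 +
      4 * p * (d * Real.sqrt (B.card - 1) + (B.card - 1))) = ((1 - p) * d / (d + 1)) ^ 2 +
      4 * (p / (d + 1)) * (Real.sqrt (B.card - 1) * ((1 - p) * d / (d + 1)) +
        (B.card - 1) * ((1 - p) / (d + 1))) := by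
      field_simp
    rw [e1, e2]
    exact hfin
  exact le_of_mul_le_mul_left hkey (by positivity)

end Pool.Agent.K7.H13.Iso
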