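import Mathlib
import Pool.Agent.K7.H13.IsoCases

/-!
# The isolation theorem
-/

set_option autoImplicit false

namespace Pool.Agent.K7.H13.Iso

open scoped InnerProductSpace ComplexConjugate
open Finset

variable {d : ℕ} {ι : Type*} [Fintype ι] [DecidableEq ι]
variable {x : ι → EuclideanSpace ℂ (Fin d)}

theorem iso_main (h : IsSic x) {w : EuclideanSpace ℂ (Fin d)} (hw : ‖w‖ = 1)
    (hne : ∀ i, ov x w i < 1) {μ : ℝ} (hμ : ((bad x w).card : ℝ) - 1 = μ * (d : ℝ) ^ 2)
    (hμ1 : μ ≤ 9 / 100) :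
    0 ≤ μ ∧ (1 - μ) * (1 - 3 * μ) ≤ μ * (1 + 3 * μ) * (1 + d * μ) := by
  have hd := h.dR
  have hd2 : (0 : ℝ) < (d : ℝ) ^ 2 := by positivity
  have hμ0 : 0 ≤ μ := by
    have h1 := one_le_card h hw
    by_contra hc
    have : μ * (d : ℝ) ^ 2 < 0 := mul_neg_of_neg_of_pos (not_le.1 hc) hd2
    linarith
  refine ⟨hμ0, ?_⟩
  by_cases hle : ∀ i, qp x w i ≤ 1 / 2
  · exact caseA h hw hle hμ (by linarith)
  exfalso
  obtain ⟨i₁, hi₁⟩ := not_forall.1 hle
  have hi₁ := not_le.1 hi₁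
  set T := qp x w i₁ with hT
  have hpe := ov_eq h w i₁
  have hp1 := hne i₁
  rw [← hT] at hpe
  set p := ov x w i₁ with hp
  have hT1 : T < 1 := by
    rw [hpe, div_lt_one (by positivity)] at hp1
    by_contra hc
    have := not_lt.1 hc
    nlinarith
  have hbad : i₁ ∈ bad x w := mem_bad.2 (by rw [← hT]; linarith)
  have hk := key h hw hbad hT1
  rw [← hT, hμ] at hk
  have hT3 : 1 - T ≤ 3 * μ := by
    have h1 : (d : ℝ) ^ 2 * ((1 - T) * T) ≤ (d : ℝ) ^ 2 * ((1 + T) * μ) := by nlinarith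
    have h2 := le_of_mul_le_mul_left h1 hd2
    have h3 : (1 + T) * μ ≤ (3 * T) * μ := mul_le_mul_of_nonneg_right (by linarith) hμ0
    have h4 : T * (1 - T) ≤ T * (3 * μ) := by linarith
    exact le_of_mul_le_mul_left h4 (by linarith)
  have hpT : T ≤ p := by
    rw [hpe, le_div_iff₀ (by positivity)]
    nlinarith
  have hB := caseB h hw hbad hp1
  rw [← hp, hμ] at hB
  have hsq : Real.sqrt (μ * (d : ℝ) ^ 2) ≤ (3 / 10) * d := by
    rw [Real.sqrt_mul hμ0, Real.sqrt_sq hd.le]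
    apply mul_le_mul_of_nonneg_right _ hd.le
    rw [Real.sqrt_le_left (by norm_num)]
    linarith
  have hp0 : 0 < p := by linarith
  have h5 : 4 * p * (d * Real.sqrt (μ * (d : ℝ) ^ 2) + μ * (d : ℝ) ^ 2) ≤
      4 * p * ((39 / 100) * (d : ℝ) ^ 2) := by
    apply mul_le_mul_of_nonneg_left _ (by linarith)
    have h6 : (d : ℝ) * Real.sqrt (μ * (d : ℝ) ^ 2) ≤ d * ((3 / 10) * d) :=
      mul_le_mul_of_nonneg_left hsq hd.le
    have h7 : μ * (d : ℝ) ^ 2 ≤ 9 / 100 * (d : ℝ) ^ 2 :=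
      mul_le_mul_of_nonneg_right hμ1 hd2.le
    nlinarith
  have h8 : (d : ℝ) ^ 2 * (2 * p) ≤ (d : ℝ) ^ 2 * (1 - p + 156 / 100 * p) := by
    have h9 : 0 < d * p := by positivity
    nlinarith
  have h10 := le_of_mul_le_mul_left h8 hd2
  linarith

theorem iso_bound (h : IsSic x) (hd2 : 2 ≤ d) {w : EuclideanSpace ℂ (Fin d)} (hw : ‖w‖ = 1)
    (hne : ∀ i, ov x w i < 1) :
    (d : ℝ) * Real.sqrt d / 8 < (bad x w).card - 1 ∧
      (d : ℝ) * Real.sqrt d - 4 * d < (bad x w).card - 1 := by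
  have hd := h.dR
  set r := Real.sqrt d with hr
  have hr2 : r ^ 2 = d := Real.sq_sqrt hd.le
  have hr0 : 0 < r := Real.sqrt_pos.2 hd
  have hd2' : (2 : ℝ) ≤ d := by exact_mod_cast hd2
  have hr1 : (7 / 5 : ℝ) < r := by
    by_contra hc
    have hc := not_lt.1 hc
    nlinarith
  set μ := (((bad x w).card : ℝ) - 1) / (d : ℝ) ^ 2 with hμd
  have hμ : ((bad x w).card : ℝ) - 1 = μ * (d : ℝ) ^ 2 := by
    rw [hμd]; field_simp
  constructor
  · by_contra hc
    have hc := not_lt.1 hc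
    have h1 : μ ≤ 1 / (8 * r) := by
      rw [hμd, div_le_div_iff₀ (by positivity) (by positivity)]
      have : (d : ℝ) * r / 8 * (8 * r) = (d : ℝ) ^ 2 := by
        rw [← hr2]; ring
      nlinarith
    have h2 : μ * r ≤ 1 / 8 := by
      have h3 : 1 / (8 * r) * r = 1 / 8 := by field_simp
      have := mul_le_mul_of_nonneg_right h1 hr0.le
      linarith
    have h3 : μ ≤ 9 / 100 := by
      rcases le_or_gt μ 0 with h4 | h4
      · linarith
      · nlinarith
    obtain ⟨h4, h5⟩ := iso_main h hw hne hμ h3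
    have h6 : μ * (d * μ) ≤ 1 / 64 := by
      rw [← hr2]
      have : μ * (r ^ 2 * μ) = (μ * r) ^ 2 := by ring
      rw [this]
      have : 0 ≤ μ * r := by positivity
      nlinarith
    have h7 : μ * (1 + 3 * μ) * (1 + d * μ) = (1 + 3 * μ) * (μ + μ * (d * μ)) := by ring
    rw [h7] at h5
    have h8 : (1 + 3 * μ) * (μ + μ * (d * μ)) ≤ (1 + 3 * (9 / 100)) * (9 / 100 + 1 / 64) := by
      apply mul_le_mul (by linarith) (by linarith) (by positivity) (by norm_num)
    have h9 : (91 / 100) * (73 / 100) ≤ (1 - μ) * (1 - 3 * μ) := by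
      apply mul_le_mul (by linarith) (by linarith) (by norm_num) (by linarith)
    norm_num at h8 h9
    linarith
  · by_contra hc
    have hc := not_lt.1 hc
    have h0 : 0 ≤ μ := by
      have h1 := one_le_card h hw
      rw [hμd]
      apply div_nonneg (by linarith) (by positivity)
    set e := (r - 4) / r ^ 2 with he
    have h1 : μ ≤ e := by
      rw [hμd, he, ← hr2, div_le_div_iff₀ (by positivity) (by positivity)]
      rw [← hr2] at hc
      have h2 := mul_le_mul_of_nonneg_right hc (by positivity : (0 : ℝ) ≤ r ^ 2)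
      nlinarith
    have h2 : e ≤ 1 / 16 := by
      rw [he, div_le_div_iff₀ (by positivity) (by norm_num)]
      nlinarith [sq_nonneg (r - 8)]
    obtain ⟨h4, h5⟩ := iso_main h hw hne hμ (by linarith)
    have h6 : (1 - e) * (1 - 3 * e) ≤ (1 - μ) * (1 - 3 * μ) := by
      apply mul_le_mul (by linarith) (by linarith) (by linarith) (by linarith)
    have h7 : μ * (1 + 3 * μ) * (1 + d * μ) ≤ e * (1 + 3 * e) * (1 + d * e) := by
      have h8 : μ * (1 + 3 * μ) ≤ e * (1 + 3 * e) := by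
        apply mul_le_mul h1 (by linarith) (by positivity) (by linarith)
      have h9 : (d : ℝ) * μ ≤ d * e := mul_le_mul_of_nonneg_left h1 hd.le
      have h10 : 0 ≤ e := by linarith
      apply mul_le_mul h8 (by linarith) (by positivity) (by positivity)
    have h8 : (1 - e) * (1 - 3 * e) ≤ e * (1 + 3 * e) * (1 + d * e) := by linarith
    have h9 : (1 - e) * (1 - 3 * e) * r ^ 4 = (r ^ 2 - r + 4) * (r ^ 2 - 3 * r + 12) := by
      rw [he]; field_simp; ring
    have h10 : e * (1 + 3 * e) * (1 + d * e) * r ^ 4 =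
        (r - 4) * (r ^ 2 + 3 * r - 12) * (r - 3) := by
      rw [he, ← hr2]; field_simp; ring
    have h11 := mul_le_mul_of_nonneg_right h8 (by positivity : (0 : ℝ) ≤ r ^ 4)
    rw [h9, h10] at h11
    nlinarith [sq_nonneg (r - 9 / 5)]

end Pool.Agent.K7.H13.Iso
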