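import Pool.Agent.K7.H24.KT.Stm

set_option autoImplicit false

/-! Project KT, jobs UPPER, FREE, MAP, FINAL. -/

namespace Pool.Agent.K7.H13.KT

open Pool.Agent.K7.H24.KT Finset Filter Topology

theorem eq_of_two {V : Type} {t : ℕ} (ht : 2 ≤ t) {G : SimpleGraph V} (hG : Cod t G)
    {P P' : Finset V × Finset V} (hP : IsBi t G P) (hP' : IsBi t G P') {u v : V} (huv : u ≠ v)
    (hu : u ∈ P.1) (hv : v ∈ P.1) (hu' : u ∈ P'.1) (hv' : v ∈ P'.1) : P = P' := by
  classical
  have key : ∀ {A A' B B' : Finset V} {u v : V}, u ≠ v → B.card = t → B'.card = t →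
      (∀ b ∈ B, G.Adj u b ∧ G.Adj v b) → (∀ b ∈ B', G.Adj u b ∧ G.Adj v b) → B = B' := by
    intro A A' B B' u v huv hB hB' h1 h2
    have h3 : (B ∪ B').card ≤ t := hG u v huv (B ∪ B') (by
      intro x hx
      rcases Finset.mem_union.1 hx with h | h
      · exact h1 x h
      · exact h2 x h)
    have h4 : B = B ∪ B' := Finset.eq_of_subset_of_card_le Finset.subset_union_left (by omega)
    have h5 : B' = B ∪ B' := Finset.eq_of_subset_of_card_le Finset.subset_union_right (by omega)
    rw [h4, ← h5]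
  have h2 : P.2 = P'.2 := key (A := ∅) (A' := ∅) huv hP.2.1 hP'.2.1
    (fun b hb => ⟨hP.2.2 u hu b hb, hP.2.2 v hv b hb⟩)
    (fun b hb => ⟨hP'.2.2 u hu' b hb, hP'.2.2 v hv' b hb⟩)
  have h3 : 1 < P.2.card := by rw [hP.2.1]; omega
  obtain ⟨x, hx, y, hy, hxy⟩ := Finset.one_lt_card.1 h3
  have h1 : P.1 = P'.1 := key (A := ∅) (A' := ∅) hxy hP.1 hP'.1
    (fun a ha => ⟨(hP.2.2 a ha x hx).symm, (hP.2.2 a ha y hy).symm⟩)
    (fun a ha => ⟨(hP'.2.2 a ha x (h2 ▸ hx)).symm, (hP'.2.2 a ha y (h2 ▸ hy)).symm⟩)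
  exact Prod.ext h1 h2

/-- JOB UPPER -/
theorem stUpper : StUpper := by
  classical
  intro n t ht G hG
  unfold bi
  set F := univ.filter (fun P : Finset (Fin n) × Finset (Fin n) => IsBi t G P) with hF
  have h1 : (F.biUnion fun P => P.1.offDiag).card = ∑ P ∈ F, P.1.offDiag.card := by
    apply Finset.card_biUnion
    intro P hP P' hP' hne
    show Disjoint P.1.offDiag P'.1.offDiag
    rw [Finset.disjoint_left]
    rintro ⟨u, v⟩ h2 h3
    rw [Finset.mem_offDiag] at h2 h3
    exact hne (eq_of_two ht hG (Finset.mem_filter.1 hP).2 (Finset.mem_filter.1 hP').2 h2.2.2 h2.1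
      h2.2.1 h3.1 h3.2.1)
  have h2 : ∑ P ∈ F, P.1.offDiag.card = F.card * (t * (t - 1)) := by
    rw [Finset.sum_const_nat]
    intro P hP
    rw [Finset.offDiag_card, (Finset.mem_filter.1 hP).2.1, Nat.mul_sub, Nat.mul_one]
  have h3 : (F.biUnion fun P => P.1.offDiag) ⊆ (univ : Finset (Fin n)).offDiag := by
    intro x hx
    obtain ⟨P, _, hx⟩ := Finset.mem_biUnion.1 hx
    rw [Finset.mem_offDiag] at hx ⊢
    exact ⟨Finset.mem_univ _, Finset.mem_univ _, hx.2.2⟩
  have h4 := Finset.card_le_card h3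
  rw [h1, h2, Finset.offDiag_card, Finset.card_univ, Fintype.card_fin] at h4
  rwa [Nat.mul_sub n n 1, Nat.mul_one]

/-- JOB FREE -/
theorem stFree : StFree := by
  classical
  intro V _ t G
  constructor
  · intro hfree u v huv S hS
    by_contra hcon
    obtain ⟨S', hS', hc⟩ := Finset.exists_subset_card_eq (show t + 1 ≤ S.card by omega)
    let e : Fin (t + 1) ≃ S' := (Fintype.equivFinOfCardEq (by rw [Fintype.card_coe, hc])).symm
    apply hfree
    refine ⟨⟨⟨Sum.elim (fun i => if i = 0 then u else v) (fun i => (e i : V)), ?_⟩, ?_⟩⟩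
    · intro a b hab
      rcases a with a | a <;> rcases b with b | b
      · simp at hab
      · have h1 := hS _ (hS' (e b).2)
        simp only [Sum.elim_inl, Sum.elim_inr]
        split_ifs
        · exact h1.1
        · exact h1.2
      · have h1 := hS _ (hS' (e a).2)
        simp only [Sum.elim_inl, Sum.elim_inr]
        split_ifs
        · exact h1.1.symm
        · exact h1.2.symm
      · simp at hab
    · intro a b hab
      rcases a with a | a <;> rcases b with b | b
      · simp only [RelHom.coeFn_mk, Sum.elim_inl] at hab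
        congr 1
        split_ifs at hab with h1 h2 h2
        · rw [h1, h2]
        · exact absurd hab huv
        · exact absurd hab.symm huv
        · omega
      · have h1 := hS _ (hS' (e b).2)
        simp only [RelHom.coeFn_mk, Sum.elim_inl, Sum.elim_inr] at hab
        exfalso
        split_ifs at hab
        · exact G.ne_of_adj h1.1 hab
        · exact G.ne_of_adj h1.2 hab
      · have h1 := hS _ (hS' (e a).2)
        simp only [RelHom.coeFn_mk, Sum.elim_inl, Sum.elim_inr] at hab
        exfalso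
        split_ifs at hab
        · exact G.ne_of_adj h1.1 hab.symm
        · exact G.ne_of_adj h1.2 hab.symm
      · simp only [RelHom.coeFn_mk, Sum.elim_inr] at hab
        rw [e.injective (Subtype.ext hab)]
  · rintro hG ⟨f⟩
    have h1 := hG (f (Sum.inl 0)) (f (Sum.inl 1)) (fun h => by
      have := f.injective h
      simp at this) (univ.image fun i : Fin (t + 1) => f (Sum.inr i)) (by
      intro x hx
      obtain ⟨i, _, rfl⟩ := Finset.mem_image.1 hx
      exact ⟨f.toHom.map_adj (by simp), f.toHom.map_adj (by simp)⟩)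
    rw [Finset.card_image_of_injective _ (fun i j hij => by
      have := f.injective hij
      simpa using this), Finset.card_univ, Fintype.card_fin] at h1
    omega

/-- JOB MAP -/
theorem stMap : StMap := by
  classical
  intro Q _ t n hn ht G hG
  obtain ⟨e⟩ : Nonempty (Q ↪ Fin n) :=
    Function.Embedding.nonempty_of_card_le (by rwa [Fintype.card_fin])
  refine ⟨G.map e, ?_, ?_⟩
  · intro u v huv S hS
    rcases S.eq_empty_or_nonempty with h | ⟨x, hx⟩
    · rw [h]
      simp
    · obtain ⟨⟨_, a, b, hab, rfl, hb⟩, ⟨_, c, d, hcd, rfl, hd⟩⟩ := hS x hx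
      have hac : a ≠ c := fun h => huv (by rw [h])
      let S0 : Finset Q := univ.filter fun y => e y ∈ S
      have hS0 : S ⊆ S0.map e := by
        intro y hy
        obtain ⟨⟨_, _, b', _, _, hb'⟩, _⟩ := hS y hy
        rw [Finset.mem_map]
        refine ⟨b', ?_, hb'⟩
        rw [Finset.mem_filter]
        exact ⟨Finset.mem_univ _, by rw [hb']; exact hy⟩
      have h1 := hG a c hac S0 (by
        intro y hy
        have h2 := hS (e y) (Finset.mem_filter.1 hy).2
        rw [SimpleGraph.map_adj_apply, SimpleGraph.map_adj_apply] at h2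
        exact h2)
      calc S.card ≤ (S0.map e).card := Finset.card_le_card hS0
        _ = S0.card := Finset.card_map _
        _ ≤ t := h1
  · unfold bi
    apply Finset.card_le_card_of_injOn (fun P => (P.1.map e, P.2.map e))
    · intro P hP
      have hP2 := (Finset.mem_filter.1 (Finset.mem_coe.1 hP)).2
      rw [Finset.mem_coe, Finset.mem_filter]
      refine ⟨Finset.mem_univ _, ?_, ?_, ?_⟩
      · rw [Finset.card_map]; exact hP2.1
      · rw [Finset.card_map]; exact hP2.2.1
      · intro a ha b hb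
        obtain ⟨a, ha', rfl⟩ := Finset.mem_map.1 ha
        obtain ⟨b, hb', rfl⟩ := Finset.mem_map.1 hb
        rw [SimpleGraph.map_adj_apply]
        exact hP2.2.2 a ha' b hb'
    · intro P _ P' _ h
      simp only [Prod.mk.injEq] at h
      exact Prod.ext (Finset.map_injective e h.1) (Finset.map_injective e h.2)

/-- JOB FINAL -/
theorem stFinal (hcopy : StCopy) (hfree : StFree) (hupper : StUpper) (hlow : StLow) : StFinal := by
  have hub : ∀ n : ℕ, ∀ c ∈ {c | ∃ G : SimpleGraph (Fin n),
      (completeBipartiteGraph (Fin 2) (Fin (3 + 1))).Free G ∧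
      c = G.copyCount (completeBipartiteGraph (Fin 3) (Fin 3))}, c * 12 ≤ n * (n - 1) := by
    rintro n c ⟨G, hG, rfl⟩
    have h1 := hcopy (Fin n) 3 (by norm_num) G
    have h2 := hupper n 3 (by norm_num) G ((hfree (Fin n) 3 G).1 hG)
    rw [h1] at h2
    omega
  have hup : ∀ n : ℕ, N 3 n * 12 ≤ n * (n - 1) := by
    intro n
    have h1 : N 3 n ≤ n * (n - 1) / 12 := by
      apply csSup_le'
      intro c hc
      have := hub n c hc
      omega
    omega
  have hbd : ∀ n : ℕ, BddAbove {c | ∃ G : SimpleGraph (Fin n),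
      (completeBipartiteGraph (Fin 2) (Fin (3 + 1))).Free G ∧
      c = G.copyCount (completeBipartiteGraph (Fin 3) (Fin 3))} := fun n =>
    ⟨n * (n - 1), fun c hc => by have := hub n c hc; omega⟩
  unfold StFinal
  rw [Metric.tendsto_atTop]
  intro ε hε
  obtain ⟨n0, hn0⟩ := Filter.eventually_atTop.1 (hlow ε hε)
  refine ⟨max n0 1, fun n hn => ?_⟩
  obtain ⟨G, hG, hb⟩ := hn0 n ((le_max_left _ _).trans hn)
  have hn1 : 1 ≤ n := (le_max_right _ _).trans hn
  have h1 : G.copyCount (completeBipartiteGraph (Fin 3) (Fin 3)) ≤ N 3 n :=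
    le_csSup (hbd n) ⟨G, (hfree (Fin n) 3 G).2 hG, rfl⟩
  have h2 := hcopy (Fin n) 3 (by norm_num) G
  rw [h2] at hb
  have h3 : (G.copyCount (completeBipartiteGraph (Fin 3) (Fin 3)) : ℝ) ≤ N 3 n := by exact_mod_cast h1
  have h4 : (N 3 n : ℝ) * 12 ≤ (n : ℝ) ^ 2 := by
    have h5 : N 3 n * 12 ≤ n ^ 2 := (hup n).trans (by
      rw [pow_two]
      exact Nat.mul_le_mul_left n (Nat.sub_le n 1))
    exact_mod_cast h5
  have hnpos : (0 : ℝ) < (n : ℝ) ^ 2 := by positivity
  push_cast at hb
  rw [Real.dist_eq, abs_lt]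
  constructor
  · rw [lt_sub_iff_add_lt, lt_div_iff₀ hnpos]
    nlinarith
  · rw [sub_lt_iff_lt_add, div_lt_iff₀ hnpos]
    nlinarith

end Pool.Agent.K7.H13.KT
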