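import Pool.Agent.K7.H50.OG.Basic

set_option autoImplicit false

/-! Project OG, jobs CONC and JOIN. -/

namespace Pool.Agent.K7.H13.OG

open Pool.Agent.K7.H50.OG Finset

/-- goodness used inside a set of vertices -/
theorem gd_on {n c N : ℕ} {E R : Gr} (hG : Gd n c E) (X : Finset ℕ) (hX : ∀ x ∈ X, 1 ≤ x ∧ x ≤ N)
    (hc : (n - 1) * (c - 1) + 1 ≤ X.card) :
    (∃ f : ℕ → ℕ, (∀ i, 1 ≤ i → i ≤ c → f i ∈ X) ∧
      (∀ i j, 1 ≤ i → i < j → j ≤ c → f i < f j) ∧
      ∀ i j, 1 ≤ i → i < j → j ≤ c → E i j → R (f i) (f j)) ∨ Blu n N R := by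
  classical
  set M := (n - 1) * (c - 1) + 1 with hM
  have h0 : 0 < M := by omega
  let e : ℕ → ℕ := fun i => if h : i - 1 < M then X.orderEmbOfCardLe hc ⟨i - 1, h⟩ else 0
  have he : ∀ i, 1 ≤ i → i ≤ M → e i ∈ X := by
    intro i h1 h2
    have h3 : i - 1 < M := by omega
    simp only [e, dif_pos h3]
    exact X.orderEmbOfCardLe_mem hc _
  have hm : ∀ i j, 1 ≤ i → i < j → j ≤ M → e i < e j := by
    intro i j h1 h2 h3
    have h4 : i - 1 < M := by omega
    have h5 : j - 1 < M := by omega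
    simp only [e, dif_pos h4, dif_pos h5]
    apply (X.orderEmbOfCardLe hc).strictMono
    rw [Fin.mk_lt_mk]
    omega
  rcases hG (fun x y => R (e x) (e y)) with ⟨f, h1, h2, h3⟩ | ⟨g, h1, h2⟩
  · left
    refine ⟨fun i => e (f i), fun i h4 h5 => he _ (h1 i h4 h5).1 (h1 i h4 h5).2, ?_, ?_⟩
    · intro i j h4 h5 h6
      exact hm _ _ (h1 i h4 (by omega)).1 (h2 i j h4 h5 h6) (h1 j (by omega) h6).2
    · intro i j h4 h5 h6 h7
      exact h3 i j h4 h5 h6 h7
  · right
    refine ⟨fun i => e (g i), fun i h4 h5 => hX _ (he _ (h1 i h4 h5).1 (h1 i h4 h5).2), ?_⟩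
    intro i j h4 h5 h6
    exact ⟨hm _ _ (h1 i h4 (by omega)).1 (h2 i j h4 h5 h6).1 (h1 j (by omega) h6).2,
      (h2 i j h4 h5 h6).2⟩

/-- JOB CONC -/
theorem stConc : StConc := by
  classical
  intro n k c E hn hc1 hck hj hG1 hG2 R
  set N := (n - 1) * (k - 1) + 1 with hN
  by_cases hB : Blu n N R
  · exact Or.inr hB
  left
  let P : ℕ → Prop := fun v => ∃ f : ℕ → ℕ, (∀ i, 1 ≤ i → i ≤ c → 1 ≤ f i ∧ f i ≤ N) ∧
    (∀ i j, 1 ≤ i → i < j → j ≤ c → f i < f j) ∧
    (∀ i j, 1 ≤ i → i < j → j ≤ c → E i j → R (f i) (f j)) ∧ f c = v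
  let X := (Icc 1 N).filter fun v => ¬ P v
  let Y := (Icc 1 N).filter fun v => P v
  have hXY : Y.card + X.card = N := by
    have := Finset.card_filter_add_card_filter_not (s := Icc 1 N) (fun v => P v)
    rw [Nat.card_Icc] at this
    simp only [X, Y]
    omega
  have hXc : X.card ≤ (n - 1) * (c - 1) := by
    by_contra hcon
    rcases gd_on (N := N) (R := R) hG1 X (fun x hx => by
      have := (Finset.mem_filter.1 hx).1
      rwa [Finset.mem_Icc] at this) (by omega) with ⟨f, h1, h2, h3⟩ | h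
    · have h4 := h1 c hc1 le_rfl
      have h5 := (Finset.mem_filter.1 h4).2
      refine h5 ⟨f, fun i h6 h7 => ?_, h2, h3, rfl⟩
      have := (Finset.mem_filter.1 (h1 i h6 h7)).1
      rwa [Finset.mem_Icc] at this
    · exact hB h
  have hsplit : (n - 1) * (k - 1) = (n - 1) * (c - 1) + (n - 1) * (k - c + 1 - 1) := by
    rw [← Nat.mul_add]
    congr 1
    omega
  rcases gd_on (N := N) (R := R) hG2 Y (fun x hx => by
      have := (Finset.mem_filter.1 hx).1
      rwa [Finset.mem_Icc] at this) (by omega) with ⟨g, h1, h2, h3⟩ | h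
  swap
  · exact absurd h hB
  obtain ⟨f, f1, f2, f3, f4⟩ := (Finset.mem_filter.1 (h1 1 le_rfl (by omega))).2
  have hgN : ∀ i, 1 ≤ i → i ≤ k - c + 1 → 1 ≤ g i ∧ g i ≤ N := by
    intro i h4 h5
    have := (Finset.mem_filter.1 (h1 i h4 h5)).1
    rwa [Finset.mem_Icc] at this
  have hle : ∀ i, 1 ≤ i → i ≤ c → f i ≤ g 1 := by
    intro i h4 h5
    rcases Nat.lt_or_ge i c with h6 | h6
    · exact (f4 ▸ (f2 i c h4 h6 le_rfl)).le
    · have : i = c := by omega
      rw [this, f4]
  have hFc : ∀ i, c ≤ i → i ≤ k → (if i ≤ c then f i else g (i - c + 1)) = g (i - c + 1) := by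
    intro i h4 h5
    split_ifs with h6
    · have : i = c := by omega
      subst this
      rw [f4]
      congr 1
      omega
    · rfl
  refine ⟨fun i => if i ≤ c then f i else g (i - c + 1), ?_, ?_, ?_⟩
  · intro i h4 h5
    dsimp only
    split_ifs with h6
    · exact f1 i h4 h6
    · exact hgN _ (by omega) (by omega)
  · intro i j h4 h5 h6
    dsimp only
    rcases Nat.lt_or_ge c j with h7 | h7
    · rw [if_neg (by omega : ¬ j ≤ c)]
      split_ifs with h8
      · exact lt_of_le_of_lt (hle i h4 h8) (h2 1 _ le_rfl (by omega) (by omega))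
      · exact h2 _ _ (by omega) (by omega) (by omega)
    · rw [if_pos h7, if_pos (by omega)]
      exact f2 i j h4 h5 h7
  · intro i j h4 h5 h6 h7
    dsimp only
    rcases Nat.lt_or_ge c j with h8 | h8
    · rcases Nat.lt_or_ge i c with h9 | h9
      · exact absurd h7 (hj i j h4 h9 h8 h6)
      · rw [hFc i h9 (by omega), hFc j (by omega) h6]
        refine h3 _ _ (by omega) (by omega) (by omega) ?_
        rw [show i - c + 1 + c - 1 = i by omega, show j - c + 1 + c - 1 = j by omega]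
        exact h7
    · rw [if_pos h8, if_pos (by omega)]
      exact f3 i j h4 h5 h8 h7

end Pool.Agent.K7.H13.OG
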