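import Pool.Agent.K7.H50.OG.Basic

set_option autoImplicit false

/-! Project OG, job FIN. -/

namespace Pool.Agent.K7.H13.OG

open Pool.Agent.K7.H50.OG Finset

/-- the relation of a graph on `Fin k`, on the vertices `1, ..., k` -/
def toE {k : ℕ} (G : SimpleGraph (Fin k)) : Gr := fun i j =>
  ∃ (hi : i - 1 < k) (hj : j - 1 < k), G.Adj ⟨i - 1, hi⟩ ⟨j - 1, hj⟩

theorem con_of {k : ℕ} {G : SimpleGraph (Fin k)} (h : G.Connected) : Con k (toE G) := by
  classical
  intro S hS hS'
  by_contra hcon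
  push Not at hcon
  obtain ⟨i, h1, h2, h3⟩ := hS
  obtain ⟨j, h4, h5, h6⟩ := hS'
  have key : ∀ x y : Fin k, G.Adj x y → (S (x + 1) ↔ S (y + 1)) := by
    intro x y hxy
    rcases lt_or_gt_of_ne (G.ne_of_adj hxy) with hlt | hlt
    · have h7 := hcon (x + 1) (y + 1) (by omega) (by have : (x : ℕ) < y := hlt; omega) (by omega)
        ⟨by simp, by simp, by simpa using hxy⟩
      tauto
    · have h7 := hcon (y + 1) (x + 1) (by omega) (by have : (y : ℕ) < x := hlt; omega) (by omega)
        ⟨by simp, by simp, by simpa using hxy.symm⟩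
      tauto
  have key2 : ∀ x y : Fin k, G.Reachable x y → (S (x + 1) ↔ S (y + 1)) := by
    intro x y hxy
    obtain ⟨w⟩ := hxy
    induction w with
    | nil => rfl
    | cons hadj _ ih => exact (key _ _ hadj).trans ih
  have h8 := key2 ⟨i - 1, by omega⟩ ⟨j - 1, by omega⟩ (h.preconnected _ _)
  simp only [show i - 1 + 1 = i by omega, show j - 1 + 1 = j by omega] at h8
  exact h6 (h8.1 h3)

theorem cop_of {h k : ℕ} {H : SimpleGraph (Fin h)} {G : SimpleGraph (Fin k)} (hc : OCopy H G) :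
    Cop h k (toE H) (toE G) := by
  obtain ⟨f, hf, hE⟩ := hc
  refine ⟨fun i => if hi : i - 1 < h then (f ⟨i - 1, hi⟩ : ℕ) + 1 else 0, ?_, ?_, ?_⟩
  · intro i h1 h2
    have h3 : i - 1 < h := by omega
    simp only [dif_pos h3]
    have := (f ⟨i - 1, h3⟩).2
    omega
  · intro i j h1 h2 h3
    have h4 : i - 1 < h := by omega
    have h5 : j - 1 < h := by omega
    simp only [dif_pos h4, dif_pos h5]
    have : f ⟨i - 1, h4⟩ < f ⟨j - 1, h5⟩ := hf (by rw [Fin.mk_lt_mk]; omega)
    have : (f ⟨i - 1, h4⟩ : ℕ) < f ⟨j - 1, h5⟩ := this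
    omega
  · intro i j h1 h2 h3 h6
    have h4 : i - 1 < h := by omega
    have h5 : j - 1 < h := by omega
    simp only [dif_pos h4, dif_pos h5]
    obtain ⟨_, _, h7⟩ := h6
    exact ⟨by simp, by simp, by simpa using hE _ _ h7⟩

/-- a copy in relations gives a copy in graphs -/
theorem ocopy_of {h N : ℕ} {H : SimpleGraph (Fin h)} {G : SimpleGraph (Fin N)} {f : ℕ → ℕ}
    (h1 : ∀ i, 1 ≤ i → i ≤ h → 1 ≤ f i ∧ f i ≤ N) (h2 : ∀ i j, 1 ≤ i → i < j → j ≤ h → f i < f j)
    (h3 : ∀ i j, 1 ≤ i → i < j → j ≤ h → toE H i j → toE G (f i) (f j)) : OCopy H G := by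
  have hb : ∀ i : Fin h, f (i + 1) - 1 < N := by
    intro i
    have := h1 (i + 1) (by omega) (by omega)
    omega
  refine ⟨fun i => ⟨f (i + 1) - 1, hb i⟩, ?_, ?_⟩
  · intro i j hij
    rw [Fin.mk_lt_mk]
    have h4 := h1 (i + 1) (by omega) (by omega)
    have h5 := h2 (i + 1) (j + 1) (by omega) (by have : (i : ℕ) < j := hij; omega) (by omega)
    omega
  · have key : ∀ i j : Fin h, i < j → H.Adj i j →
        G.Adj ⟨f (i + 1) - 1, hb i⟩ ⟨f (j + 1) - 1, hb j⟩ := by
      intro i j hij hadj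
      obtain ⟨_, _, h4⟩ := h3 (i + 1) (j + 1) (by omega) (by have : (i : ℕ) < j := hij; omega)
        (by omega) ⟨by simp, by simp, by simpa using hadj⟩
      exact h4
    intro i j hadj
    rcases lt_or_gt_of_ne (H.ne_of_adj hadj) with hlt | hlt
    · exact key i j hlt hadj
    · exact (key j i hlt hadj.symm).symm

/-- the graph on `Fin N` of a relation on `1, ..., N` -/
def ofE (N : ℕ) (R : Gr) : SimpleGraph (Fin N) where
  Adj x y := (x < y ∧ R (x + 1) (y + 1)) ∨ (y < x ∧ R (y + 1) (x + 1))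
  symm := ⟨fun x y h => by tauto⟩
  loopless := ⟨fun x h => by
    rcases h with h | h
    · exact absurd h.1 (lt_irrefl _)
    · exact absurd h.1 (lt_irrefl _)⟩

theorem gd_iff {k n : ℕ} (G : SimpleGraph (Fin k)) :
    Gd n k (toE G) ↔ Arr G n ((n - 1) * (k - 1) + 1) := by
  classical
  constructor
  · intro h R
    rcases h (toE R) with ⟨f, h1, h2, h3⟩ | ⟨g, h1, h2⟩
    · exact Or.inl (ocopy_of h1 h2 h3)
    · right
      refine ocopy_of h1 (fun i j a b c => (h2 i j a b c).1) (fun i j a b c _ => ?_)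
      have h4 := h2 i j a b c
      have h5 := h1 i a (by omega)
      have h6 := h1 j (by omega) c
      refine ⟨by omega, by omega, ?_⟩
      rw [SimpleGraph.compl_adj]
      refine ⟨?_, ?_⟩
      · intro h7
        rw [Fin.mk.injEq] at h7
        omega
      · intro h7
        exact h4.2 ⟨by omega, by omega, h7⟩
  · intro h R
    rcases h (ofE _ R) with ⟨f, hf, hE⟩ | ⟨g, hg, hE⟩
    · left
      refine ⟨fun i => if hi : i - 1 < k then (f ⟨i - 1, hi⟩ : ℕ) + 1 else 0, ?_, ?_, ?_⟩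
      · intro i h1 h2
        have h3 : i - 1 < k := by omega
        simp only [dif_pos h3]
        have := (f ⟨i - 1, h3⟩).2
        omega
      · intro i j h1 h2 h3
        have h4 : i - 1 < k := by omega
        have h5 : j - 1 < k := by omega
        simp only [dif_pos h4, dif_pos h5]
        have : f ⟨i - 1, h4⟩ < f ⟨j - 1, h5⟩ := hf (by rw [Fin.mk_lt_mk]; omega)
        have : (f ⟨i - 1, h4⟩ : ℕ) < f ⟨j - 1, h5⟩ := this
        omega
      · intro i j h1 h2 h3 h6
        have h4 : i - 1 < k := by omega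
        have h5 : j - 1 < k := by omega
        simp only [dif_pos h4, dif_pos h5]
        obtain ⟨_, _, h7⟩ := h6
        have h8 : f ⟨i - 1, h4⟩ < f ⟨j - 1, h5⟩ := hf (by rw [Fin.mk_lt_mk]; omega)
        rcases hE _ _ h7 with h9 | h9
        · exact h9.2
        · exact absurd h9.1 (not_lt.2 h8.le)
    · right
      refine ⟨fun i => if hi : i - 1 < n then (g ⟨i - 1, hi⟩ : ℕ) + 1 else 0, ?_, ?_⟩
      · intro i h1 h2
        have h3 : i - 1 < n := by omega
        simp only [dif_pos h3]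
        have := (g ⟨i - 1, h3⟩).2
        omega
      · intro i j h1 h2 h3
        have h4 : i - 1 < n := by omega
        have h5 : j - 1 < n := by omega
        simp only [dif_pos h4, dif_pos h5]
        have h8 : g ⟨i - 1, h4⟩ < g ⟨j - 1, h5⟩ := hg (by rw [Fin.mk_lt_mk]; omega)
        have h9 : (g ⟨i - 1, h4⟩ : ℕ) < g ⟨j - 1, h5⟩ := h8
        refine ⟨by omega, fun h10 => ?_⟩
        have h11 := hE ⟨i - 1, h4⟩ ⟨j - 1, h5⟩ (by
          rw [SimpleGraph.top_adj]
          intro h12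
          rw [Fin.mk.injEq] at h12
          omega)
        rw [SimpleGraph.compl_adj] at h11
        exact h11.2 (Or.inl ⟨h8, h10⟩)

/-- the lower bound -/
theorem lower {h n N : ℕ} (H : SimpleGraph (Fin h)) (hH : H.Connected) (hn : 1 ≤ n) (hh : 1 ≤ h)
    (hN : N ≤ (n - 1) * (h - 1)) : ¬ Arr H n N := by
  classical
  intro hA
  rcases Nat.lt_or_ge 1 h with h1 | h1
  swap
  · -- `h = 1`
    have hN0 : N = 0 := by
      have : h - 1 = 0 := by omega
      rw [this] at hN
      omega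
    subst hN0
    rcases hA ⊥ with ⟨f, _, _⟩ | ⟨g, _, _⟩
    · exact (f ⟨0, hh⟩).elim0
    · exact (g ⟨0, hn⟩).elim0
  set L := h - 1 with hL
  have hLp : 0 < L := by omega
  let R : SimpleGraph (Fin N) :=
    { Adj := fun x y => x ≠ y ∧ (x : ℕ) / L = (y : ℕ) / L
      symm := ⟨fun x y hxy => ⟨hxy.1.symm, hxy.2.symm⟩⟩
      loopless := ⟨fun x hx => hx.1 rfl⟩ }
  rcases hA R with ⟨f, hf, hE⟩ | ⟨g, hg, hE⟩
  · have key : ∀ x y : Fin h, H.Reachable x y → ((f x : ℕ) / L = (f y : ℕ) / L) := by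
      intro x y hxy
      obtain ⟨w⟩ := hxy
      induction w with
      | nil => rfl
      | cons hadj _ ih => exact (hE _ _ hadj).2.trans ih
    have hgap : ∀ i : ℕ, (hi : i < h) → (f ⟨0, hh⟩ : ℕ) + i ≤ f ⟨i, hi⟩ := by
      intro i
      induction i with
      | zero => intro hi; simp
      | succ i ih =>
        intro hi
        have h2 := ih (by omega)
        have h3 : f ⟨i, by omega⟩ < f ⟨i + 1, hi⟩ := hf (by rw [Fin.mk_lt_mk]; omega)
        have h4 : (f ⟨i, by omega⟩ : ℕ) < f ⟨i + 1, hi⟩ := h3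
        omega
    have h5 := hgap L (by omega)
    have h6 := key ⟨0, hh⟩ ⟨L, by omega⟩ (hH.preconnected _ _)
    have h7 : ((f ⟨0, hh⟩ : ℕ) + L) / L ≤ (f ⟨L, by omega⟩ : ℕ) / L := Nat.div_le_div_right h5
    rw [Nat.add_div_right _ hLp] at h7
    omega
  · have hinj : Function.Injective (fun i : Fin n => (⟨(g i : ℕ) / L, by
        apply Nat.div_lt_of_lt_mul
        have := (g i).2
        rw [mul_comm]
        omega⟩ : Fin (n - 1))) := by
      intro i j hij
      rw [Fin.mk.injEq] at hij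
      by_contra hne
      have h2 := hE i j (by rw [SimpleGraph.top_adj]; exact hne)
      rw [SimpleGraph.compl_adj] at h2
      exact h2.2 ⟨h2.1, hij⟩
    have := Fintype.card_le_of_injective _ hinj
    rw [Fintype.card_fin, Fintype.card_fin] at this
    omega

theorem ngood_iff {n h : ℕ} (hn : 1 ≤ n) (H : SimpleGraph (Fin h)) :
    NGood n H ↔ H.Connected ∧ Gd n h (toE H) := by
  constructor
  · rintro ⟨h1, h2, h3⟩
    refine ⟨h1, (gd_iff H).2 ?_⟩
    rw [← h3]
    exact Nat.sInf_mem h2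
  · rintro ⟨h1, h2⟩
    have h3 := (gd_iff H).1 h2
    refine ⟨h1, ⟨_, h3⟩, le_antisymm (Nat.sInf_le h3) ?_⟩
    have h4 : Arr H n (oram H n) := Nat.sInf_mem (s := {N | Arr H n N}) ⟨_, h3⟩
    by_contra hcon
    have := h1.nonempty
    have h5 : 1 ≤ h := by
      rcases Nat.eq_zero_or_pos h with h6 | h6
      · subst h6
        exact (Classical.arbitrary (Fin 0)).elim0
      · exact h6
    exact lower H h1 hn h5 (by omega) h4

/-- JOB FIN -/
theorem stFin (hHer : StHer) : StFin := by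
  intro n h k H G hn hG hH hc
  rw [ngood_iff hn] at hG ⊢
  have hpos : ∀ (m : ℕ) (F : SimpleGraph (Fin m)), F.Connected → 1 ≤ m := by
    intro m F hF
    have := hF.nonempty
    rcases Nat.eq_zero_or_pos m with h6 | h6
    · subst h6
      exact (Classical.arbitrary (Fin 0)).elim0
    · exact h6
  exact ⟨hH, hHer n h k (toE H) (toE G) hn (hpos _ _ hH) (hpos _ _ hG.1) (con_of hH) (con_of hG.1)
    (cop_of hc) hG.2⟩

end Pool.Agent.K7.H13.OG
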