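import Pool.Agent.K7.H50.OG.Basic

set_option autoImplicit false

/-! Project OG, job JOIN. -/

namespace Pool.Agent.K7.H13.OG

open Pool.Agent.K7.H50.OG Finset

theorem gd_mir {n k : ℕ} {E : Gr} (h : Gd n k E) : Gd n k (fun i j => E (k + 1 - j) (k + 1 - i)) := by
  intro R
  set N := (n - 1) * (k - 1) + 1 with hN
  rcases h (fun x y => R (N + 1 - y) (N + 1 - x)) with ⟨f, h1, h2, h3⟩ | ⟨g, h1, h2⟩
  · left
    refine ⟨fun i => N + 1 - f (k + 1 - i), ?_, ?_, ?_⟩
    · intro i h4 h5
      have := h1 (k + 1 - i) (by omega) (by omega)
      dsimp only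
      omega
    · intro i j h4 h5 h6
      have := h2 (k + 1 - j) (k + 1 - i) (by omega) (by omega) (by omega)
      have := h1 (k + 1 - i) (by omega) (by omega)
      dsimp only
      omega
    · intro i j h4 h5 h6 h7
      exact h3 (k + 1 - j) (k + 1 - i) (by omega) (by omega) (by omega) h7
  · right
    refine ⟨fun i => N + 1 - g (n + 1 - i), ?_, ?_⟩
    · intro i h4 h5
      have := h1 (n + 1 - i) (by omega) (by omega)
      dsimp only
      omega
    · intro i j h4 h5 h6
      have h7 := h2 (n + 1 - j) (n + 1 - i) (by omega) (by omega) (by omega)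
      have h8 := h1 (n + 1 - i) (by omega) (by omega)
      dsimp only
      refine ⟨by omega, h7.2⟩

theorem con_mir {k : ℕ} {E : Gr} (h : Con k E) : Con k (fun i j => E (k + 1 - j) (k + 1 - i)) := by
  intro S hS hS'
  obtain ⟨i, j, h1, h2, h3, h4, h5⟩ := h (fun i => S (k + 1 - i))
    (by
      obtain ⟨i, h1, h2, h3⟩ := hS
      refine ⟨k + 1 - i, by omega, by omega, ?_⟩
      rwa [show k + 1 - (k + 1 - i) = i by omega])
    (by
      obtain ⟨i, h1, h2, h3⟩ := hS'
      refine ⟨k + 1 - i, by omega, by omega, ?_⟩
      rwa [show k + 1 - (k + 1 - i) = i by omega])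
  refine ⟨k + 1 - j, k + 1 - i, by omega, by omega, by omega, ?_, by tauto⟩
  show E (k + 1 - (k + 1 - i)) (k + 1 - (k + 1 - j))
  rwa [show k + 1 - (k + 1 - i) = i by omega, show k + 1 - (k + 1 - j) = j by omega]

theorem gd_congr {n k : ℕ} {E E' : Gr} (hE : ∀ i j, 1 ≤ i → i < j → j ≤ k → E' i j → E i j)
    (h : Gd n k E) : Gd n k E' := by
  intro R
  rcases h R with ⟨f, h1, h2, h3⟩ | h
  · exact Or.inl ⟨f, h1, h2, fun i j a b c d => h3 i j a b c (hE i j a b c d)⟩
  · exact Or.inr h

/-- the first side of a joint -/
theorem join1 {n k c : ℕ} {E : Gr} (hn : 1 ≤ n) (hc1 : 1 < c) (hck : c < k) (hcon : Con k E)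
    (hj : ∀ i j, 1 ≤ i → i < c → c < j → j ≤ k → ¬ E i j) (hG : Gd n k E) : Gd n c E := by
  classical
  intro R
  set N1 := (n - 1) * (c - 1) + 1 with hN1
  set L := k - c with hL
  have hLp : 0 < L := by omega
  have hN : (n - 1) * (k - 1) + 1 = N1 + (n - 1) * L := by
    have : (n - 1) * (k - 1) = (n - 1) * (c - 1) + (n - 1) * L := by
      rw [← Nat.mul_add]
      congr 1
      omega
    omega
  let B : ℕ → ℕ := fun x => (x - N1 - 1) / L
  have hBlt : ∀ x, N1 < x → x ≤ N1 + (n - 1) * L → B x < n - 1 := by
    intro x h1 h2
    apply Nat.div_lt_of_lt_mul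
    rw [mul_comm]
    omega
  have hBmono : ∀ x y, x ≤ y → B x ≤ B y := fun x y h => Nat.div_le_div_right (by omega)
  rcases hG (fun x y => if y ≤ N1 then R x y else (x ≤ N1 ∨ B x = B y)) with
    ⟨f, h1, h2, h3⟩ | ⟨g, h1, h2⟩
  · left
    rw [hN] at h1
    -- the vertices `c, ..., k`
    by_cases hfc : f c ≤ N1
    · refine ⟨f, fun i h4 h5 => ⟨(h1 i h4 (by omega)).1, ?_⟩, fun i j h4 h5 h6 => h2 i j h4 h5 (by omega),
        fun i j h4 h5 h6 h7 => ?_⟩
      · rcases Nat.lt_or_ge i c with h6 | h6
        · exact (h2 i c h4 h6 hck.le).le.trans hfc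
        · have : i = c := by omega
          rwa [this]
      · have h8 := h3 i j h4 h5 (by omega) h7
        dsimp only at h8
        have h9 : f j ≤ N1 := by
          rcases Nat.lt_or_ge j c with h6 | h6
          · exact (h2 j c (by omega) h6 hck.le).le.trans hfc
          · have : j = c := by omega
            rwa [this]
        rwa [if_pos h9] at h8
    · exfalso
      have hbig : ∀ i, c ≤ i → i ≤ k → N1 < f i := by
        intro i h4 h5
        rcases Nat.lt_or_ge c i with h6 | h6
        · have := h2 c i (by omega) h6 h5
          omega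
        · have : i = c := by omega
          rw [this]
          omega
      -- all of them are in the same block
      have hblock : B (f k) = B (f c) := by
        have hcl := hcon.closed (fun i => i < c ∨ (c ≤ i ∧ B (f i) = B (f c))) (by
          intro i j h4 h5 h6 h7
          rcases Nat.lt_or_ge c j with h8 | h8
          · rcases Nat.lt_or_ge i c with h9 | h9
            · exact absurd h7 (hj i j h4 h9 h8 h6)
            · have h10 := h3 i j h4 h5 h6 h7
              dsimp only at h10
              rw [if_neg (by have := hbig j (by omega) h6; omega)] at h10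
              have h11 := hbig i h9 (by omega)
              have h12 : B (f i) = B (f j) := by
                rcases h10 with h | h
                · omega
                · exact h
              constructor
              · rintro (h | h)
                · omega
                · exact Or.inr ⟨by omega, by rw [← h12]; exact h.2⟩
              · rintro (h | h)
                · omega
                · exact Or.inr ⟨by omega, by rw [h12]; exact h.2⟩
          · constructor
            · intro _
              rcases Nat.lt_or_ge j c with h9 | h9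
              · exact Or.inl h9
              · have : j = c := by omega
                exact Or.inr ⟨h9, by rw [this]⟩
            · intro _
              exact Or.inl (by omega)) (show 1 ≤ c by omega) hck.le (Or.inr ⟨le_rfl, rfl⟩) k (by omega) le_rfl
        rcases hcl with h | h
        · omega
        · exact h.2
      have h4 := mono_gap h2 (show 1 ≤ c by omega) hck.le le_rfl
      have h5 := hbig c le_rfl hck.le
      have h6 : B (f c) * L ≤ f c - N1 - 1 := Nat.div_mul_le_self _ _
      have h7 : f k - N1 - 1 < (B (f k) + 1) * L := by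
        rw [← Nat.div_lt_iff_lt_mul hLp]
        exact Nat.lt_succ_self _
      rw [hblock, Nat.add_mul, Nat.one_mul] at h7
      omega
  · right
    rw [hN] at h1
    -- all the vertices are old
    by_cases hgn : g n ≤ N1
    · have hle : ∀ i, 1 ≤ i → i ≤ n → g i ≤ N1 := by
        intro i h4 h5
        rcases Nat.lt_or_ge i n with h6 | h6
        · exact (h2 i n h4 h6 le_rfl).1.le.trans hgn
        · have : i = n := by omega
          rwa [this]
      refine ⟨g, fun i h4 h5 => ⟨(h1 i h4 h5).1, hle i h4 h5⟩, fun i j h4 h5 h6 => ⟨(h2 i j h4 h5 h6).1, ?_⟩⟩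
      have h7 := (h2 i j h4 h5 h6).2
      dsimp only at h7
      rwa [if_pos (hle j (by omega) h6)] at h7
    · exfalso
      have hbig : ∀ i, 1 ≤ i → i ≤ n → N1 < g i := by
        intro i h4 h5
        rcases Nat.lt_or_ge i n with h6 | h6
        · have h7 := (h2 i n h4 h6 le_rfl).2
          dsimp only at h7
          rw [if_neg hgn] at h7
          push Not at h7
          exact h7.1
        · have : i = n := by omega
          rw [this]
          omega
      have hind : ∀ i, 1 ≤ i → i ≤ n → i ≤ B (g i) + 1 := by
        intro i h4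
        induction i, h4 using Nat.le_induction with
        | base => intro _; omega
        | succ i h4 ih =>
          intro h5
          have h6 := ih (by omega)
          have h7 := h2 i (i + 1) h4 (by omega) h5
          have h8 := h7.2
          dsimp only at h8
          rw [if_neg (by have := hbig (i + 1) (by omega) h5; omega)] at h8
          push Not at h8
          have h9 := hBmono _ _ h7.1.le
          have h10 := h8.2
          omega
      have h4 := hind n hn le_rfl
      have h5 := hBlt (g n) (hbig n hn le_rfl) (h1 n hn le_rfl).2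
      omega

/-- JOB JOIN -/
theorem stJoin : StJoin := by
  intro n k c E hn hc1 hck hcon hj hG
  refine ⟨join1 hn hc1 hck hcon hj hG, ?_⟩
  have h1 := join1 (c := k + 1 - c) hn (by omega) (by omega) (con_mir hcon) (fun i j h4 h5 h6 h7 => by
    exact hj (k + 1 - j) (k + 1 - i) (by omega) (by omega) (by omega) (by omega)) (gd_mir hG)
  have h2 := gd_mir h1
  have e : k - c + 1 = k + 1 - c := by omega
  rw [e]
  refine gd_congr (fun i j h4 h5 h6 h7 => ?_) h2
  rwa [show k + 1 - (k + 1 - c + 1 - i) = i + c - 1 by omega,
    show k + 1 - (k + 1 - c + 1 - j) = j + c - 1 by omega]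

end Pool.Agent.K7.H13.OG
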