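import Pool.Agent.K7.H60.UP.Stm

/-! # MP_d3fa2a_an, job CONV: `ph l` is convex -/

set_option autoImplicit false

namespace Pool.Agent.K7.H13.UPCONV

open Pool.Agent.K7.H60.UP

theorem convexPh (l : ℝ) (hl : 1 ≤ l) : ConvexOn ℝ Set.univ (ph l) := by
  have hf : ConvexOn ℝ Set.univ (fun t : ℝ => max t 0) := by
    have := (convexOn_id (𝕜 := ℝ) (convex_univ (𝕜 := ℝ) (E := ℝ))).sup
      (convexOn_const (𝕜 := ℝ) (0 : ℝ) (convex_univ (𝕜 := ℝ) (E := ℝ)))
    exact this
  have him : (fun t : ℝ => max t 0) '' Set.univ = Set.Ici 0 := by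
    ext x
    simp only [Set.image_univ, Set.mem_range, Set.mem_Ici]
    constructor
    · rintro ⟨y, rfl⟩; exact le_max_right _ _
    · intro hx; exact ⟨x, max_eq_left hx⟩
  have hg : ConvexOn ℝ ((fun t : ℝ => max t 0) '' Set.univ) (fun x : ℝ => x ^ l) := by
    rw [him]; exact convexOn_rpow hl
  have hm : MonotoneOn (fun x : ℝ => x ^ l) ((fun t : ℝ => max t 0) '' Set.univ) := by
    rw [him]
    intro x hx y hy hxy
    exact Real.rpow_le_rpow hx hxy (by linarith)
  exact hg.comp hf hm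

theorem aux (l g a b : ℝ) (hl : 1 ≤ l) (hb : 0 ≤ b) (hab : b ≤ a) :
    ph l (g + b) + ph l (g - b) ≤ ph l (g + a) + ph l (g - a) := by
  rcases eq_or_lt_of_le (hb.trans hab) with h0 | ha
  · have : b = 0 := by linarith
    subst h0; subst this; simp
  have hc := (convexPh l hl).2
  have h2a : (0 : ℝ) < 2 * a := by linarith
  have h1 := hc (Set.mem_univ (g + a)) (Set.mem_univ (g - a))
    (a := (a + b) / (2 * a)) (b := (a - b) / (2 * a)) (by positivity)
    (div_nonneg (by linarith) h2a.le) (by field_simp; ring)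
  have h2 := hc (Set.mem_univ (g + a)) (Set.mem_univ (g - a))
    (a := (a - b) / (2 * a)) (b := (a + b) / (2 * a)) (div_nonneg (by linarith) h2a.le)
    (by positivity) (by field_simp; ring)
  simp only [smul_eq_mul] at h1 h2
  have e1 : (a + b) / (2 * a) * (g + a) + (a - b) / (2 * a) * (g - a) = g + b := by
    field_simp; ring
  have e2 : (a - b) / (2 * a) * (g + a) + (a + b) / (2 * a) * (g - a) = g - b := by
    field_simp; ring
  rw [e1] at h1
  rw [e2] at h2
  have e3 : (a + b) / (2 * a) + (a - b) / (2 * a) = 1 := by field_simp; ring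
  have e4 : (a + b) / (2 * a) * ph l (g + a) + (a - b) / (2 * a) * ph l (g - a) +
      ((a - b) / (2 * a) * ph l (g + a) + (a + b) / (2 * a) * ph l (g - a)) =
      ph l (g + a) + ph l (g - a) := by
    rw [show (a + b) / (2 * a) * ph l (g + a) + (a - b) / (2 * a) * ph l (g - a) +
      ((a - b) / (2 * a) * ph l (g + a) + (a + b) / (2 * a) * ph l (g - a)) =
      ((a + b) / (2 * a) + (a - b) / (2 * a)) * (ph l (g + a) + ph l (g - a)) by ring, e3,
      one_mul]
  linarith

theorem t : StConv := by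
  intro l g k₁ k₂ hl h
  have h' := aux l g |k₁| |k₂| hl (abs_nonneg _) h
  rcases abs_cases k₁ with ⟨e1, _⟩ | ⟨e1, _⟩ <;> rcases abs_cases k₂ with ⟨e2, _⟩ | ⟨e2, _⟩ <;>
    rw [e1, e2] at h' <;> (try simp only [sub_neg_eq_add, ← sub_eq_add_neg] at h') <;> linarith

end Pool.Agent.K7.H13.UPCONV
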